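import Pool.Agent.H773R3.Fail

set_option autoImplicit false
set_option linter.unusedSectionVars false

namespace Pool.Agent.H773R3

open Finset Matrix
open scoped Classical

noncomputable section

variable {d p : ℕ} [Fact p.Prime] {k : ℕ}

theorem lam_mul {τ : Fin d → Fin d → ZMod p} (hτ : τ ∈ TT d p 2) (g h : UT d p) :
    (Nof τ * (g * h).mat).trace = (Nof τ * g.mat).trace + (Nof τ * h.mat).trace
      := by
  simp only [trace_Nof]
  rw [← Finset.sum_add_distrib]
  refine Finset.sum_congr rfl (fun b _ => ?_)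
  rw [← Finset.sum_add_distrib]
  refine Finset.sum_congr rfl (fun a _ => ?_)
  by_cases hab : a < b ∧ (b : ℕ) < a + 2
  · have h1 := hab.1
    rw [Fin.lt_def] at h1
    have e : (g * h).mat a b = g.mat a b + h.mat a b := by
      rw [UT.mat_mul, Matrix.mul_apply, Finset.sum_eq_add a b hab.1.ne]
      · rw [UT.diag, UT.diag]; ring
      · intro c _ hc
        rcases lt_or_gt_of_ne hc.1 with h2 | h2
        · rw [UT.low g h2, zero_mul]
        · rcases lt_or_gt_of_ne hc.2 with h3 | h3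
          · rw [Fin.lt_def] at h2 h3
            omega
          · rw [UT.low h h3, mul_zero]
      · simp
      · simp
    rw [e]; ring
  · rw [hτ a b hab]; ring

theorem lam_one {τ : Fin d → Fin d → ZMod p} (hτ : τ ∈ TT d p 2) :
    (Nof τ * (1 : UT d p).mat).trace = 0 := by
  have := lam_mul hτ (1 : UT d p) 1
  rw [mul_one] at this
  simpa using this

/-- additive functional as a homomorphism -/
def lamHom {τ : Fin d → Fin d → ZMod p} (hτ : τ ∈ TT d p 2) : UT d p →* Multiplicative (ZMod p) where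
  toFun g := Multiplicative.ofAdd ((Nof τ * g.mat).trace)
  map_one' := by rw [lam_one hτ]; rfl
  map_mul' g h := by rw [lam_mul hτ]; rfl

/-- character -/
def lamChar {τ : Fin d → Fin d → ZMod p} (hτ : τ ∈ TT d p 2) : UT d p →* ℂ where
  toFun g := psi p ((Nof τ * g.mat).trace)
  map_one' := by rw [lam_one hτ]; simp
  map_mul' g h := by rw [lam_mul hτ, AddChar.map_add_eq_mul]

theorem lamHom_surj {τ : Fin d → Fin d → ZMod p} (h1 : τ ∈ TT d p 2) (h2 : τ ∉ TT d p 1) :
    Function.Surjective (lamHom h1) := by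
  rw [mem_TT] at h2
  push Not at h2
  obtain ⟨i, l, h3, h4⟩ := h2
  have h5 : i < l ∧ (l : ℕ) < i + 2 := by
    by_contra hc
    exact h4 (h1 i l hc)
  intro y
  refine ⟨rowElt i l h5.1 ((Multiplicative.toAdd y) / τ i l), ?_⟩
  change Multiplicative.ofAdd ((Nof τ * (1 + Matrix.single i l ((Multiplicative.toAdd y) / τ i l))).trace) = y
  rw [mul_add, Matrix.trace_add]
  have e1 : (Nof τ * (1 : Matrix (Fin d) (Fin d) (ZMod p))).trace = 0 := lam_one h1
  have e2 : (Nof τ * Matrix.single i l ((Multiplicative.toAdd y) / τ i l)).trace = Multiplicative.toAdd y := by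
    rw [trace_Nof, Finset.sum_eq_single l, Finset.sum_eq_single i]
    · rw [Matrix.single_apply, if_pos ⟨rfl, rfl⟩]
      field_simp
    · intro b _ hb
      rw [Matrix.single_apply, if_neg (fun h => hb h.1.symm), mul_zero]
    · simp
    · intro b _ hb
      refine Finset.sum_eq_zero (fun a _ => ?_)
      rw [Matrix.single_apply, if_neg (fun h => hb h.2.symm), mul_zero]
    · simp
  rw [e1, e2, zero_add]
  rfl

theorem sum_ph_lam {τ : Fin d → Fin d → ZMod p} (h1 : τ ∈ TT d p 2) (h2 : τ ∉ TT d p 1) :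
    ∑ g : UT d p, ph ((Nof τ * g.mat).trace) ≤ (Fintype.card (UT d p) : ℝ) * Real.exp (-(1/4)) := by
  have hp0 : (0:ℝ) < p := by exact_mod_cast (Fact.out : p.Prime).pos
  have e := equidistG (lamHom h1) (lamHom_surj h1 h2) (fun y => ph (Multiplicative.toAdd y))
  have hc : (Fintype.card (Multiplicative (ZMod p)) : ℝ) = p := by
    rw [Fintype.card_multiplicative, ZMod.card]
  rw [hc] at e
  have e2 : ∑ b : Multiplicative (ZMod p), ph (Multiplicative.toAdd b) = ∑ y : ZMod p, ph y :=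
    Equiv.sum_comp Multiplicative.toAdd (fun y => ph y)
  rw [e2] at e
  have e3 : (p:ℝ) * ∑ g : UT d p, ph ((Nof τ * g.mat).trace)
      ≤ (p:ℝ) * ((Fintype.card (UT d p) : ℝ) * Real.exp (-(1/4))) := by
    calc (p:ℝ) * ∑ g : UT d p, ph ((Nof τ * g.mat).trace)
        = (Fintype.card (UT d p) : ℝ) * ∑ y : ZMod p, ph y := e
      _ ≤ (Fintype.card (UT d p) : ℝ) * ((p:ℝ) * Real.exp (-(1/4))) :=
          mul_le_mul_of_nonneg_left sum_ph_le (by positivity)
      _ = _ := by ring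
  exact le_of_mul_le_mul_left e3 hp0

/-- steps for the abelianization -/
def hA (Z : Fin k → UT d p) (q : Fin k × Fin 4) : UT d p :=
  match q.2 with
  | 0 => 1
  | 1 => 1
  | 2 => Z q.1
  | 3 => (Z q.1)⁻¹

/-- involution -/
def invA (q : Fin k × Fin 4) : Fin k × Fin 4 := (q.1, ![0, 1, 3, 2] q.2)

theorem invA_inv : Function.Involutive (invA (k := k)) := by
  rintro ⟨i, t⟩
  fin_cases t <;> rfl

theorem hA_inv (Z : Fin k → UT d p) (q : Fin k × Fin 4) : hA Z (invA q) = (hA Z q)⁻¹ := by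
  obtain ⟨i, t⟩ := q
  fin_cases t
  · simp [hA, invA]
  · simp [hA, invA]
  · simp [hA, invA]
  · simp [hA, invA]

theorem sum_Dd_hA (Z : Fin k → UT d p) (f : UT d p → ℝ) :
    ∑ q : Fin k × Fin 4, Dd f (hA Z q) = 2 * ∑ i, Dd f (Z i) := by
  rw [Fintype.sum_prod_type, Finset.mul_sum]
  refine Finset.sum_congr rfl (fun i _ => ?_)
  rw [Fin.sum_univ_four]
  have ez : Dd f (1 : UT d p) = 0 := by simp [Dd]
  simp only [hA]
  rw [ez, Dd_inv]; ring

/-- trace on the abelianization -/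
def TA (L : ℕ) (Z : Fin k → UT d p) : ℝ := Tr (Gam 2) (Gam 1) (hA Z) L

theorem TA_eq (L : ℕ) (Z : Fin k → UT d p) :
    TA L Z = ∑ τ ∈ DD d p 1, (∑ i, (2 + 2 * cc ((Nof τ * (Z i).mat).trace)))^L := by
  have : ((TA L Z : ℝ) : ℂ) =
      ((∑ τ ∈ DD d p 1, (∑ i, (2 + 2 * cc ((Nof τ * (Z i).mat).trace)))^L : ℝ) : ℂ) := by
    unfold TA Tr
    rw [Finset.mul_sum, Complex.ofReal_sum]
    have h1 : ∀ s : Fin L → Fin k × Fin 4,
        (((Fintype.card (UT d p) : ℝ) * kap (Gam 2) (Gam 1) (wordOf (hA Z) s) : ℝ) : ℂ)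
        = ∑ τ ∈ DD d p 1, psi p ((Nof τ * (wordOf (hA Z) s).mat).trace) := fun s => kap_eq le_rfl _
    rw [Finset.sum_congr rfl (fun s _ => h1 s), Finset.sum_comm, Complex.ofReal_sum]
    refine Finset.sum_congr rfl (fun τ hτ => ?_)
    have hτ2 : τ ∈ TT d p 2 := by
      simp only [DD, Finset.mem_filter, Finset.mem_univ, true_and] at hτ
      exact hτ.1
    have h2 : ∀ s : Fin L → Fin k × Fin 4, psi p ((Nof τ * (wordOf (hA Z) s).mat).trace)
        = ∏ r, lamChar hτ2 (hA Z (s r)) := by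
      intro s
      change lamChar hτ2 (wordOf (hA Z) s) = _
      unfold wordOf
      rw [map_list_prod, List.map_ofFn, List.prod_ofFn]
      rfl
    rw [Finset.sum_congr rfl (fun s _ => h2 s),
      ← Fintype.sum_pow (fun q => lamChar hτ2 (hA Z q)) L]
    have h3 : ∑ q : Fin k × Fin 4, lamChar hτ2 (hA Z q)
        = ((∑ i, (2 + 2 * cc ((Nof τ * (Z i).mat).trace)) : ℝ) : ℂ) := by
      rw [Fintype.sum_prod_type]
      push_cast
      refine Finset.sum_congr rfl (fun i _ => ?_)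
      rw [Fin.sum_univ_four]
      simp only [hA]
      rw [map_one]
      have e1 : lamChar hτ2 (Z i) = psi p ((Nof τ * (Z i).mat).trace) := rfl
      have e2 : lamChar hτ2 (Z i)⁻¹ = (starRingEnd ℂ) (psi p ((Nof τ * (Z i).mat).trace)) := by
        rw [← AddChar.map_neg_eq_conj]
        change psi p ((Nof τ * ((Z i)⁻¹).mat).trace) = _
        congr 1
        have := lam_mul hτ2 (Z i) (Z i)⁻¹
        rw [mul_inv_cancel, lam_one hτ2] at this
        exact (neg_eq_of_add_eq_zero_right this.symm).symm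
      rw [e1, e2, cc]
      have h := Complex.add_conj (psi p ((Nof τ * (Z i).mat).trace))
      rw [add_assoc (1+1 : ℂ), h]
      push_cast
      ring
    rw [h3]
    push_cast
    rfl
  exact_mod_cast this

theorem sum_TA_le (hk : 0 < k) (L : ℕ) (hL : k ≤ L) :
    ∑ Z : Fin k → UT d p, TA L Z ≤
      (Fintype.card (UT d p) : ℝ)^k * (4 * (k:ℝ))^L * ((p:ℝ)^d * Real.exp (-(k/4))) := by
  have hkr : (0:ℝ) < k := by exact_mod_cast hk
  have h1 : ∀ τ ∈ DD d p 1, ∑ Z : Fin k → UT d p,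
      (∑ i, (2 + 2 * cc ((Nof τ * (Z i).mat).trace)))^L ≤
      (Fintype.card (UT d p) : ℝ)^k * (4 * (k:ℝ))^L * Real.exp (-(k/4)) := by
    intro τ hτ
    simp only [DD, Finset.mem_filter, Finset.mem_univ, true_and] at hτ
    have h2 : ∀ Z : Fin k → UT d p, (∑ i, (2 + 2 * cc ((Nof τ * (Z i).mat).trace)))^L ≤
        (4 * (k:ℝ))^L * ∏ i, ph ((Nof τ * (Z i).mat).trace) := by
      intro Z
      set S := ∑ i, (1 - cc ((Nof τ * (Z i).mat).trace)) with hSdef
      have hS0 : 0 ≤ S := Finset.sum_nonneg (fun i _ => by linarith [cc_le ((Nof τ * (Z i).mat).trace)])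
      have e1 : ∑ i, (2 + 2 * cc ((Nof τ * (Z i).mat).trace)) = 4 * (k:ℝ) - 2 * S := by
        rw [hSdef, Finset.mul_sum]
        have : (4 * (k:ℝ)) = ∑ i : Fin k, (4:ℝ) := by
          simp; ring
        rw [this, ← Finset.sum_sub_distrib]
        refine Finset.sum_congr rfl (fun i _ => ?_)
        ring
      have e0 : 0 ≤ ∑ i, (2 + 2 * cc ((Nof τ * (Z i).mat).trace)) :=
        Finset.sum_nonneg (fun i _ => by
          linarith [neg_one_le_cc ((Nof τ * (Z i).mat).trace)])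
      have e2 : ∑ i, (2 + 2 * cc ((Nof τ * (Z i).mat).trace)) ≤ 4 * (k:ℝ) * Real.exp (-(S / (2 * (k:ℝ)))) := by
        rw [e1]
        have h3 := Real.add_one_le_exp (-(S / (2 * (k:ℝ))))
        have h4 : 4 * (k:ℝ) - 2 * S = 4 * (k:ℝ) * (-(S / (2 * (k:ℝ))) + 1) := by
          field_simp; ring
        rw [h4]
        apply mul_le_mul_of_nonneg_left h3 (by positivity)
      calc (∑ i, (2 + 2 * cc ((Nof τ * (Z i).mat).trace)))^L
          ≤ (4 * (k:ℝ) * Real.exp (-(S / (2 * (k:ℝ)))))^L := pow_le_pow_left₀ e0 e2 L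
        _ = (4 * (k:ℝ))^L * Real.exp (-(L * S / (2 * (k:ℝ)))) := by
            rw [mul_pow (4 * (k:ℝ)), ← Real.exp_nat_mul]
            congr 2; ring
        _ ≤ (4 * (k:ℝ))^L * Real.exp (-(S / 2)) := by
            apply mul_le_mul_of_nonneg_left _ (by positivity)
            apply Real.exp_le_exp.2
            rw [neg_le_neg_iff, div_le_div_iff₀ (by norm_num) (by positivity)]
            have hL' : (k : ℝ) ≤ L := by exact_mod_cast hL
            nlinarith
        _ = _ := by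
            congr 1
            unfold ph
            rw [← Real.exp_sum]
            congr 1
            rw [hSdef, Finset.sum_neg_distrib, Finset.sum_div]
    calc ∑ Z : Fin k → UT d p, (∑ i, (2 + 2 * cc ((Nof τ * (Z i).mat).trace)))^L
        ≤ ∑ Z : Fin k → UT d p, (4 * (k:ℝ))^L * ∏ i, ph ((Nof τ * (Z i).mat).trace) :=
          Finset.sum_le_sum (fun Z _ => h2 Z)
      _ = (4 * (k:ℝ))^L * (∑ g : UT d p, ph ((Nof τ * g.mat).trace))^k := by
          rw [← Finset.mul_sum, Fintype.sum_pow]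
      _ ≤ (4 * (k:ℝ))^L * ((Fintype.card (UT d p) : ℝ) * Real.exp (-(1/4)))^k := by
          apply mul_le_mul_of_nonneg_left _ (by positivity)
          apply pow_le_pow_left₀ (Finset.sum_nonneg (fun g _ => (ph_pos _).le)) (sum_ph_lam hτ.1 hτ.2)
      _ = _ := by
          rw [mul_pow (Fintype.card (UT d p) : ℝ), ← Real.exp_nat_mul]
          have : (k:ℝ) * -(1/4) = -(k/4) := by ring
          rw [this]; ring
  simp only [TA_eq]
  rw [Finset.sum_comm]
  calc ∑ τ ∈ DD d p 1, ∑ Z : Fin k → UT d p, (∑ i, (2 + 2 * cc ((Nof τ * (Z i).mat).trace)))^L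
      ≤ ∑ τ ∈ DD d p 1, (Fintype.card (UT d p) : ℝ)^k * (4 * (k:ℝ))^L * Real.exp (-(k/4)) :=
        Finset.sum_le_sum h1
    _ = ((DD d p 1).card : ℝ) * ((Fintype.card (UT d p) : ℝ)^k * (4 * (k:ℝ))^L * Real.exp (-(k/4))) := by
        rw [Finset.sum_const, nsmul_eq_mul]
    _ ≤ (p:ℝ)^(d*1) * ((Fintype.card (UT d p) : ℝ)^k * (4 * (k:ℝ))^L * Real.exp (-(k/4))) :=
        mul_le_mul_of_nonneg_right (card_DD_le 1) (by positivity)
    _ = _ := by rw [mul_one]; ring

theorem TA_nonneg (m : ℕ) (Z : Fin k → UT d p) : 0 ≤ TA (2^(m+1)) Z := by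
  have h2 : 2^m + 2^m = 2^(m+1) := by rw [pow_succ]; ring
  unfold TA
  rw [← h2]
  exact Tr_nonneg (Gam_anti (by omega)) (hA Z) invA invA_inv (hA_inv Z) (2^m)

theorem bad_count1 (hk : 0 < k) (m : ℕ) (hL : k ≤ 2^(m+1)) {η : ℝ} (hη : η < 1) :
    ((univ.filter (fun Z : Fin k → UT d p =>
      ¬ (TA (2^(m+1)) Z ≤ ((1 - η) * (4 * (k:ℝ))) ^ (2^(m+1))))).card : ℝ)
      * (1 - η)^(2^(m+1)) ≤
      (Fintype.card (UT d p) : ℝ) ^ k * ((p:ℝ)^d * Real.exp (-(k/4))) := by
  set L := 2^(m+1) with hLdef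
  have hkr : (0:ℝ) < k := by exact_mod_cast hk
  have h1 : ((univ.filter (fun Z : Fin k → UT d p =>
      ¬ (TA L Z ≤ ((1 - η) * (4 * (k:ℝ))) ^ L))).card : ℝ)
      * ((1 - η) * (4 * (k:ℝ)))^L ≤ ∑ Z : Fin k → UT d p, TA L Z := by
    rw [← nsmul_eq_mul, ← Finset.sum_const]
    refine (Finset.sum_le_sum (fun Z hZ => ?_)).trans
      (Finset.sum_le_sum_of_subset_of_nonneg (Finset.filter_subset _ _) (fun Z _ _ => TA_nonneg m Z))
    exact (not_le.1 (Finset.mem_filter.1 hZ).2).le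
  have h3 := sum_TA_le (d := d) (p := p) hk L hL
  have h4 : (0:ℝ) < (4 * (k:ℝ))^L := by positivity
  have h5 : (4 * (k:ℝ))^L *
      (((univ.filter (fun Z : Fin k → UT d p =>
      ¬ (TA L Z ≤ ((1 - η) * (4 * (k:ℝ))) ^ L))).card : ℝ) * (1 - η)^L)
      ≤ (4 * (k:ℝ))^L * ((Fintype.card (UT d p) : ℝ) ^ k * ((p:ℝ)^d * Real.exp (-(k/4)))) := by
    calc _ = ((univ.filter (fun Z : Fin k → UT d p =>
      ¬ (TA L Z ≤ ((1 - η) * (4 * (k:ℝ))) ^ L))).card : ℝ) * ((1 - η) * (4 * (k:ℝ)))^L := by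
          rw [mul_pow (1 - η)]; ring
      _ ≤ _ := h1.trans h3
      _ = _ := by ring
  exact le_of_mul_le_mul_left h5 h4

theorem good_level1 (m : ℕ) (Z : Fin k → UT d p) {η : ℝ} (hη : η ≤ 1)
    (hT : TA (2^(m+1)) Z ≤ ((1 - η) * (4 * (k:ℝ))) ^ (2^(m+1)))
    {f : UT d p → ℝ} (hf : InV (Gam 2) (Gam 1) f) :
    (4 * η * k) * ∑ x, f x ^ 2 ≤ ∑ i, Dd f (Z i) := by
  have hcard : (Fintype.card (Fin k × Fin 4) : ℝ) = 4 * (k:ℝ) := by
    simp only [Fintype.card_prod, Fintype.card_fin]; push_cast; ring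
  have h1 := energy_of_trace (Gam_anti (by omega)) (hA Z) invA invA_inv (hA_inv Z) m hη
    (by rw [hcard]; exact hT) hf
  rw [hcard, sum_Dd_hA] at h1
  linarith

end

end Pool.Agent.H773R3
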