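import Pool.Agent.H773R3.Level

set_option autoImplicit false
set_option linter.unusedSectionVars false

namespace Pool.Agent.H773R3

open Finset Matrix
open scoped Classical

noncomputable section

/-! ### general facts -/

theorem equidistG {A B : Type*} [Group A] [Group B] [Fintype A] [Fintype B]
    (f : A →* B) (hf : Function.Surjective f) (F : B → ℝ) :
    (Fintype.card B : ℝ) * ∑ a, F (f a) = (Fintype.card A : ℝ) * ∑ b, F b := by
  have h1 : ∀ b : B, ∑ a, F (f a) = ∑ a, F (f a * b) := by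
    intro b
    obtain ⟨a0, rfl⟩ := hf b
    rw [← Equiv.sum_comp (Equiv.mulRight a0)]
    simp
  calc (Fintype.card B : ℝ) * ∑ a, F (f a) = ∑ b : B, ∑ a, F (f a) := by
        rw [Finset.sum_const, card_univ, nsmul_eq_mul]
    _ = ∑ b : B, ∑ a, F (f a * b) := Finset.sum_congr rfl (fun b _ => h1 b)
    _ = ∑ a, ∑ b : B, F (f a * b) := Finset.sum_comm
    _ = ∑ a : A, ∑ b : B, F b := by
        refine Finset.sum_congr rfl (fun a _ => ?_)
        exact Equiv.sum_comp (Equiv.mulLeft (f a)) F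
    _ = _ := by rw [Finset.sum_const, card_univ, nsmul_eq_mul]

section General

variable {G : Type*} [Group G] [Fintype G]

/-- displacement energy -/
def Dd (f : G → ℝ) (g : G) : ℝ := ∑ x, (f (x * g) - f x)^2

theorem Dd_nonneg (f : G → ℝ) (g : G) : 0 ≤ Dd f g := by unfold Dd; positivity

theorem Dd_inv (f : G → ℝ) (g : G) : Dd f g⁻¹ = Dd f g := by
  unfold Dd
  rw [← Equiv.sum_comp (Equiv.mulRight g) (fun x => (f (x * g⁻¹) - f x)^2)]
  refine Finset.sum_congr rfl (fun x _ => ?_)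
  simp only [Equiv.coe_mulRight, mul_inv_cancel_right]
  ring

theorem Dd_mul (f : G → ℝ) (g h : G) : Dd f (g * h) ≤ 2 * Dd f g + 2 * Dd f h := by
  have e : Dd f h = ∑ x, (f (x * g * h) - f (x * g))^2 := by
    unfold Dd
    rw [← Equiv.sum_comp (Equiv.mulRight g) (fun x => (f (x * h) - f x)^2)]
    rfl
  rw [e]
  unfold Dd
  rw [Finset.mul_sum, Finset.mul_sum, ← Finset.sum_add_distrib]
  refine Finset.sum_le_sum (fun x _ => ?_)
  rw [← mul_assoc x g h]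
  nlinarith [sq_nonneg ((f (x * g * h) - f (x * g)) - (f (x * g) - f x))]

theorem Dd_comm (f : G → ℝ) (g h : G) : Dd f (g * h * g⁻¹ * h⁻¹) ≤ 8 * (Dd f g + Dd f h) := by
  have h1 := Dd_mul f (g * h) (g⁻¹ * h⁻¹)
  have h2 := Dd_mul f g h
  have h3 := Dd_mul f g⁻¹ h⁻¹
  rw [Dd_inv, Dd_inv] at h3
  rw [← mul_assoc] at h1
  linarith

theorem corr_eq (f : G → ℝ) (g : G) : ∑ x, f x * f (x * g) = ∑ x, f x ^ 2 - Dd f g / 2 := by
  have e : ∑ x, f (x * g)^2 = ∑ x, f x ^ 2 := Equiv.sum_comp (Equiv.mulRight g) (fun x => f x ^ 2)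
  have : Dd f g = ∑ x, f (x * g)^2 + ∑ x, f x ^2 - 2 * ∑ x, f x * f (x * g) := by
    unfold Dd
    rw [Finset.mul_sum, ← Finset.sum_add_distrib, ← Finset.sum_sub_distrib]
    refine Finset.sum_congr rfl (fun x _ => ?_)
    ring
  rw [this, e]; ring

theorem stepOp_corr {Q : Type*} [Fintype Q] (h : Q → G) (f : G → ℝ) :
    ∑ x, f x * stepOp h f x = (Fintype.card Q : ℝ) * ∑ x, f x ^ 2 - (∑ q, Dd f (h q)) / 2 := by
  unfold stepOp
  simp only [Finset.mul_sum]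
  rw [Finset.sum_comm]
  rw [Finset.sum_congr rfl (fun q _ => corr_eq f (h q)), Finset.sum_sub_distrib, Finset.sum_const,
    card_univ, nsmul_eq_mul, ← Finset.mul_sum, Finset.sum_div]

/-- spectral bound from the trace -/
theorem energy_of_trace {Q : Type*} [Fintype Q] {N1 N0 : Subgroup G} [N1.Normal] [N0.Normal]
    (hle : N1 ≤ N0) (h : Q → G)
    (inv : Q → Q) (hinv : Function.Involutive inv) (hh : ∀ q, h (inv q) = (h q)⁻¹) (m : ℕ)
    {η : ℝ} (hη : η ≤ 1)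
    (hTr : Tr N1 N0 h (2^(m+1)) ≤ ((1 - η) * Fintype.card Q) ^ (2^(m+1)))
    {f : G → ℝ} (hf : InV N1 N0 f) :
    2 * η * Fintype.card Q * ∑ x, f x ^ 2 ≤ ∑ q, Dd f (h q) := by
  have h1 := pow_le_trace hle h inv hinv hh hf m
  have hS : 0 ≤ ∑ x, f x ^ 2 := by positivity
  have h2 : |∑ x, f x * stepOp h f x| ^ (2^(m+1)) ≤
      ((∑ x, f x ^ 2) * ((1 - η) * Fintype.card Q)) ^ (2^(m+1)) := by
    rw [mul_pow]
    exact h1.trans (mul_le_mul_of_nonneg_left hTr (by positivity))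
  have h3 : |∑ x, f x * stepOp h f x| ≤ (∑ x, f x ^ 2) * ((1 - η) * Fintype.card Q) := by
    apply le_of_pow_le_pow_left₀ (by positivity) _ h2
    apply mul_nonneg hS
    apply mul_nonneg (by linarith) (by positivity)
  have h4 := le_of_abs_le h3
  rw [stepOp_corr] at h4
  nlinarith

end General

variable {d p : ℕ} [Fact p.Prime] {K : ℕ}

/-- step elements -/
def hS (T : Fin K ⊕ Fin K → UT d p) (q : Stp K) : UT d p := ev T (stepWord q)

/-- involution of steps -/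
def invS (q : Stp K) : Stp K := (q.1, q.2.1, ![0, 1, 3, 2] q.2.2)

theorem invS_inv : Function.Involutive (invS (K := K)) := by
  rintro ⟨i, j, t⟩
  fin_cases t <;> rfl

theorem hS_inv (T : Fin K ⊕ Fin K → UT d p) (q : Stp K) : hS T (invS q) = (hS T q)⁻¹ := by
  obtain ⟨i, j, t⟩ := q
  fin_cases t
  · simp [hS, invS, stepWord, ev]
  · simp [hS, invS, stepWord, ev]
  · simp [hS, invS, stepWord, ev, lett]; group
  · simp [hS, invS, stepWord, ev, lett]; group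

theorem hS_two (T : Fin K ⊕ Fin K → UT d p) (i j : Fin K) :
    hS T (i, j, 2) = T (Sum.inl i) * T (Sum.inr j) * (T (Sum.inl i))⁻¹ * (T (Sum.inr j))⁻¹ := by
  simp [hS, stepWord, ev, lett, mul_assoc]

theorem sum_Dd_steps (T : Fin K ⊕ Fin K → UT d p) (f : UT d p → ℝ) :
    ∑ q : Stp K, Dd f (hS T q) ≤ 16 * K * (∑ i, Dd f (T (Sum.inl i)) + ∑ j, Dd f (T (Sum.inr j))) := by
  rw [Fintype.sum_prod_type]
  have h1 : ∀ i : Fin K, ∑ y : Fin K × Fin 4, Dd f (hS T (i, y)) ≤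
      ∑ j : Fin K, 16 * (Dd f (T (Sum.inl i)) + Dd f (T (Sum.inr j))) := by
    intro i
    rw [Fintype.sum_prod_type]
    refine Finset.sum_le_sum (fun j _ => ?_)
    rw [Fin.sum_univ_four]
    have e0 : hS T (i, j, 0) = 1 := by simp [hS, stepWord, ev]
    have e1 : hS T (i, j, 1) = 1 := by simp [hS, stepWord, ev]
    have e3 : hS T (i, j, 3) = (hS T (i, j, 2))⁻¹ := by
      rw [← hS_inv]; rfl
    have ez : Dd f (1 : UT d p) = 0 := by simp [Dd]
    rw [e0, e1, e3, ez, Dd_inv, hS_two]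
    have := Dd_comm f (T (Sum.inl i)) (T (Sum.inr j))
    linarith
  refine (Finset.sum_le_sum (fun i _ => h1 i)).trans (le_of_eq ?_)
  simp only [← Finset.mul_sum, Finset.sum_add_distrib, Finset.sum_const, card_univ,
    Fintype.card_fin, nsmul_eq_mul]
  ring

/-- trace at level `w` -/
def Tw (w L : ℕ) (T : Fin K ⊕ Fin K → UT d p) : ℝ := Tr (Gam (w+1)) (Gam w) (hS T) L

theorem Tw_eq {w : ℕ} (hw : 1 ≤ w) (L : ℕ) (T : Fin K ⊕ Fin K → UT d p) :
    ((Tw w L T : ℝ) : ℂ) = ∑ τ ∈ DD d p w, ∑ s : Fin L → Stp K,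
      psi p ((Nof τ * (ev T (fw s)).mat).trace) := by
  unfold Tw Tr
  rw [Finset.mul_sum, Complex.ofReal_sum, Finset.sum_comm]
  refine Finset.sum_congr rfl (fun s _ => ?_)
  rw [kap_eq hw, ev_fw]
  rfl

theorem sum_Tw_le {w : ℕ} (hw : 2 ≤ w) (hK : 0 < K) (L : ℕ) (hL : 16 * K * w ≤ L) :
    ∑ T : Fin K ⊕ Fin K → UT d p, Tw w L T ≤
      (Fintype.card (UT d p) : ℝ) ^ (2 * K) * (4 * (K:ℝ)^2)^L * ((p:ℝ)^(d*w) * epsg p (w-1) K) := by
  have e1 : ((∑ T : Fin K ⊕ Fin K → UT d p, Tw w L T : ℝ) : ℂ)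
      = ∑ τ ∈ DD d p w, ∑ s : Fin L → Stp K, ∑ X : Fin K → UT d p, ∑ Y : Fin K → UT d p,
        psi p ((Nof τ * (ev (Sum.elim X Y) (fw s)).mat).trace) := by
    rw [Complex.ofReal_sum, Finset.sum_congr rfl (fun T _ => Tw_eq (by omega) L T), Finset.sum_comm]
    refine Finset.sum_congr rfl (fun τ _ => ?_)
    rw [Finset.sum_comm]
    refine Finset.sum_congr rfl (fun s _ => ?_)
    rw [← Equiv.sum_comp (Equiv.sumArrowEquivProdArrow (Fin K) (Fin K) (UT d p)).symm,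
      Fintype.sum_prod_type]
    rfl
  have e2 : ∑ T : Fin K ⊕ Fin K → UT d p, Tw w L T ≤
      ‖((∑ T : Fin K ⊕ Fin K → UT d p, Tw w L T : ℝ) : ℂ)‖ := by
    rw [Complex.norm_real]
    exact Real.le_norm_self _
  refine e2.trans ?_
  rw [e1]
  have hB0 : 0 ≤ (Fintype.card (UT d p) : ℝ) ^ (2 * K) * (4 * (K:ℝ)^2)^L * epsg p (w-1) K := by
    unfold epsg; positivity
  calc ‖∑ τ ∈ DD d p w, ∑ s : Fin L → Stp K, ∑ X : Fin K → UT d p, ∑ Y : Fin K → UT d p,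
        psi p ((Nof τ * (ev (Sum.elim X Y) (fw s)).mat).trace)‖
      ≤ ∑ τ ∈ DD d p w, ∑ s : Fin L → Stp K, ‖∑ X : Fin K → UT d p, ∑ Y : Fin K → UT d p,
        psi p ((Nof τ * (ev (Sum.elim X Y) (fw s)).mat).trace)‖ := by
        refine (norm_sum_le _ _).trans (Finset.sum_le_sum (fun τ _ => norm_sum_le _ _))
    _ ≤ ∑ τ ∈ DD d p w, (Fintype.card (UT d p) : ℝ) ^ (2 * K) * (4 * (K:ℝ)^2)^L * epsg p (w-1) K := by
        refine Finset.sum_le_sum (fun τ hτ => ?_)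
        obtain ⟨i, l, h1, h2, h3⟩ := corner_of_DD (by omega) hτ
        exact word_sum_bound hK (by omega) L (by
          have : w - 1 + 1 = w := by omega
          rw [this]; exact hL) (by omega) h2 h3
    _ = ((DD d p w).card : ℝ) * ((Fintype.card (UT d p) : ℝ) ^ (2 * K) * (4 * (K:ℝ)^2)^L * epsg p (w-1) K) := by
        rw [Finset.sum_const, nsmul_eq_mul]
    _ ≤ (p:ℝ)^(d*w) * ((Fintype.card (UT d p) : ℝ) ^ (2 * K) * (4 * (K:ℝ)^2)^L * epsg p (w-1) K) :=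
        mul_le_mul_of_nonneg_right (card_DD_le w) hB0
    _ = _ := by ring

theorem Tw_nonneg (w m : ℕ) (T : Fin K ⊕ Fin K → UT d p) : 0 ≤ Tw w (2^(m+1)) T := by
  have h2 : 2^m + 2^m = 2^(m+1) := by rw [pow_succ]; ring
  unfold Tw
  rw [← h2]
  exact Tr_nonneg (Gam_anti (by omega)) (hS T) invS invS_inv (hS_inv T) (2^m)

/-- transfer to `Fin k` -/
theorem sum_comp_inj {k : ℕ} (e : Fin K ⊕ Fin K → Fin k) (he : Function.Injective e)
    (F : (Fin K ⊕ Fin K → UT d p) → ℝ) :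
    (Fintype.card (UT d p) : ℝ) ^ (2 * K) * ∑ Z : Fin k → UT d p, F (Z ∘ e)
      = (Fintype.card (UT d p) : ℝ) ^ k * ∑ T, F T := by
  let f : (Fin k → UT d p) →* (Fin K ⊕ Fin K → UT d p) :=
    { toFun := fun Z => Z ∘ e
      map_one' := rfl
      map_mul' := fun _ _ => rfl }
  have hf : Function.Surjective f := by
    intro T
    refine ⟨Function.extend e T 1, ?_⟩
    funext x
    exact he.extend_apply T 1 x
  have := equidistG f hf F
  rw [Fintype.card_fun, Fintype.card_fun, Fintype.card_fin, Fintype.card_sum, Fintype.card_fin,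
    ← two_mul] at this
  push_cast at this
  exact this

/-- number of bad tuples at level `w ≥ 2` -/
theorem bad_count {w : ℕ} (hw : 2 ≤ w) (hK : 0 < K) (m : ℕ) (hL : 16 * K * w ≤ 2^(m+1))
    {k : ℕ} (e : Fin K ⊕ Fin K → Fin k) (he : Function.Injective e) {η : ℝ} (hη : η < 1) :
    ((univ.filter (fun Z : Fin k → UT d p =>
      ¬ (Tw w (2^(m+1)) (Z ∘ e) ≤ ((1 - η) * (4 * (K:ℝ)^2)) ^ (2^(m+1))))).card : ℝ)
      * (1 - η)^(2^(m+1)) ≤
      (Fintype.card (UT d p) : ℝ) ^ k * ((p:ℝ)^(d*w) * epsg p (w-1) K) := by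
  set L := 2^(m+1) with hLdef
  have hn : (0:ℝ) < Fintype.card (UT d p) := by
    have : 0 < Fintype.card (UT d p) := Fintype.card_pos
    exact_mod_cast this
  have hKr : (0:ℝ) < K := by exact_mod_cast hK
  have h1 : ((univ.filter (fun Z : Fin k → UT d p =>
      ¬ (Tw w L (Z ∘ e) ≤ ((1 - η) * (4 * (K:ℝ)^2)) ^ L))).card : ℝ)
      * ((1 - η) * (4 * (K:ℝ)^2))^L ≤ ∑ Z : Fin k → UT d p, Tw w L (Z ∘ e) := by
    rw [← nsmul_eq_mul, ← Finset.sum_const]
    refine (Finset.sum_le_sum (fun Z hZ => ?_)).trans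
      (Finset.sum_le_sum_of_subset_of_nonneg (Finset.filter_subset _ _) (fun Z _ _ => Tw_nonneg w m (Z ∘ e)))
    exact (not_le.1 (Finset.mem_filter.1 hZ).2).le
  have h2 := sum_comp_inj (d := d) (p := p) e he (fun T => Tw w L T)
  have h3 := sum_Tw_le (K := K) (d := d) (p := p) hw hK L hL
  have hc : (0:ℝ) < (Fintype.card (UT d p) : ℝ) ^ (2 * K) := by positivity
  have h4 : (0:ℝ) < (4 * (K:ℝ)^2)^L := by positivity
  have h5 : ((Fintype.card (UT d p) : ℝ) ^ (2 * K) * (4 * (K:ℝ)^2)^L) *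
      (((univ.filter (fun Z : Fin k → UT d p =>
      ¬ (Tw w L (Z ∘ e) ≤ ((1 - η) * (4 * (K:ℝ)^2)) ^ L))).card : ℝ) * (1 - η)^L)
      ≤ ((Fintype.card (UT d p) : ℝ) ^ (2 * K) * (4 * (K:ℝ)^2)^L) *
        ((Fintype.card (UT d p) : ℝ) ^ k * ((p:ℝ)^(d*w) * epsg p (w-1) K)) := by
    calc _ = (Fintype.card (UT d p) : ℝ) ^ (2 * K) * (((univ.filter (fun Z : Fin k → UT d p =>
      ¬ (Tw w L (Z ∘ e) ≤ ((1 - η) * (4 * (K:ℝ)^2)) ^ L))).card : ℝ) * ((1 - η) * (4 * (K:ℝ)^2))^L) := by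
          rw [mul_pow (1 - η)]; ring
      _ ≤ (Fintype.card (UT d p) : ℝ) ^ (2 * K) * ∑ Z : Fin k → UT d p, Tw w L (Z ∘ e) :=
          mul_le_mul_of_nonneg_left h1 hc.le
      _ = (Fintype.card (UT d p) : ℝ) ^ k * ∑ T : Fin K ⊕ Fin K → UT d p, Tw w L T := h2
      _ ≤ (Fintype.card (UT d p) : ℝ) ^ k * ((Fintype.card (UT d p) : ℝ) ^ (2 * K) * (4 * (K:ℝ)^2)^L * ((p:ℝ)^(d*w) * epsg p (w-1) K)) :=
          mul_le_mul_of_nonneg_left h3 (by positivity)
      _ = _ := by ring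
  exact le_of_mul_le_mul_left h5 (by positivity)

/-- consequence of goodness at level `w ≥ 2` -/
theorem good_level {w : ℕ} (m : ℕ) (T : Fin K ⊕ Fin K → UT d p) {η : ℝ} (hη : η ≤ 1) (hK : 0 < K)
    (hT : Tw w (2^(m+1)) T ≤ ((1 - η) * (4 * (K:ℝ)^2)) ^ (2^(m+1)))
    {f : UT d p → ℝ} (hf : InV (Gam (w+1)) (Gam w) f) :
    (η * K / 2) * ∑ x, f x ^ 2 ≤ ∑ i, Dd f (T (Sum.inl i)) + ∑ j, Dd f (T (Sum.inr j)) := by
  have hKr : (0:ℝ) < K := by exact_mod_cast hK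
  have hcard : (Fintype.card (Stp K) : ℝ) = 4 * (K:ℝ)^2 := by
    simp only [Stp, Fintype.card_prod, Fintype.card_fin]; push_cast; ring
  have h1 := energy_of_trace (Gam_anti (by omega)) (hS T) invS invS_inv (hS_inv T) m hη
    (by rw [hcard]; exact hT) hf
  rw [hcard] at h1
  have h2 := sum_Dd_steps T f
  have h3 : 2 * η * (4 * (K:ℝ)^2) * ∑ x, f x ^ 2 ≤
    16 * K * (∑ i, Dd f (T (Sum.inl i)) + ∑ j, Dd f (T (Sum.inr j))) := h1.trans h2
  have h4 : (16 * (K:ℝ)) * ((η * K / 2) * ∑ x, f x ^ 2) ≤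
      (16 * (K:ℝ)) * (∑ i, Dd f (T (Sum.inl i)) + ∑ j, Dd f (T (Sum.inr j))) := by
    refine le_trans (le_of_eq ?_) h3; ring
  exact le_of_mul_le_mul_left h4 (by positivity)

end

end Pool.Agent.H773R3
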