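import Pool.Agent.H773R3.Gap

set_option autoImplicit false
set_option linter.unusedSectionVars false

namespace Pool.Agent.H773R3

open Finset Matrix
open scoped Classical

noncomputable section

theorem exists_pow_between (n : ℕ) (hn : 2 ≤ n) : ∃ m, n ≤ 2^(m+1) ∧ 2^(m+1) ≤ 2*n := by
  have h1 : n ≤ 2 ^ Nat.clog 2 n := Nat.le_pow_clog (by norm_num) n
  have h2 : 2 ^ (Nat.clog 2 n).pred < n := Nat.pow_pred_clog_lt_self (by norm_num) (by omega)
  have h3 : 0 < Nat.clog 2 n := Nat.clog_pos (by norm_num) hn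
  obtain ⟨c, hc⟩ : ∃ c, Nat.clog 2 n = c + 1 := ⟨Nat.clog 2 n - 1, by omega⟩
  rw [hc] at h1 h2
  refine ⟨c, h1, ?_⟩
  simp only [Nat.pred_succ] at h2
  rw [pow_succ]; omega

theorem ppow (p : ℕ) (hp : 0 < p) (n : ℕ) : (p:ℝ)^n = Real.exp (n * Real.log p) := by
  have : (0:ℝ) < p := by exact_mod_cast hp
  rw [Real.exp_nat_mul, Real.exp_log this]

theorem one_sub_pow (L : ℕ) : Real.exp (-(L / 3200)) ≤ (1 - (1/6400 : ℝ))^L := by
  have h1 : Real.exp (-(1/3200 : ℝ)) ≤ 1 - (1/6400 : ℝ) := by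
    rw [Real.exp_neg]
    have h2 : (1/3200 : ℝ) + 1 ≤ Real.exp (1/3200 : ℝ) := Real.add_one_le_exp _
    have h3 : (Real.exp (1/3200 : ℝ))⁻¹ ≤ ((1/3200 : ℝ) + 1)⁻¹ :=
      inv_anti₀ (by norm_num) h2
    refine h3.trans ?_
    norm_num
  have h2 : Real.exp (-(L / 3200)) = (Real.exp (-(1/3200 : ℝ)))^L := by
    rw [← Real.exp_nat_mul]; congr 1; ring
  rw [h2]
  exact pow_le_pow_left₀ (Real.exp_pos _).le h1 L

variable {d p : ℕ} [Fact p.Prime] {k K : ℕ}

/-- the good event at level `w ≥ 2` -/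
def goodW (e : Fin K ⊕ Fin K → Fin k) (w m : ℕ) (Z : Fin k → UT d p) : Prop :=
  Tw w (2^(m+1)) (Z ∘ e) ≤ ((1 - (1/6400 : ℝ)) * (4 * (K:ℝ)^2)) ^ (2^(m+1))

/-- the good event at level `1` -/
def good1 (m : ℕ) (Z : Fin k → UT d p) : Prop :=
  TA (2^(m+1)) Z ≤ ((1 - (1/6400 : ℝ)) * (4 * (k:ℝ))) ^ (2^(m+1))

theorem bad_w_bound {w : ℕ} (hw : 2 ≤ w) (hwd : w < d) (hK : 0 < K)
    (ha : 1000 * (d * Real.log p) ≤ (K:ℝ)) (e : Fin K ⊕ Fin K → Fin k) (he : Function.Injective e) :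
    ∃ m, ((univ.filter (fun Z : Fin k → UT d p => ¬ goodW e w m Z)).card : ℝ) ≤
      (Fintype.card (UT d p) : ℝ) ^ k * (2 * Real.exp (-(1/20 * K))) := by
  have hp : 0 < p := (Fact.out : p.Prime).pos
  have hp1 : (1:ℝ) ≤ p := by exact_mod_cast hp
  have hlog : 0 ≤ Real.log p := Real.log_nonneg hp1
  have hKr : (1:ℝ) ≤ K := by exact_mod_cast hK
  have hwr : (2:ℝ) ≤ w := by exact_mod_cast hw
  have hwdr : (w:ℝ) ≤ d := by exact_mod_cast hwd.le
  obtain ⟨m, hm1, hm2⟩ := exists_pow_between (16 * K * w) (by nlinarith)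
  refine ⟨m, ?_⟩
  have h := bad_count (d := d) (p := p) (k := k) hw hK m hm1 e he (η := 1/6400) (by norm_num)
  have hL : ((2^(m+1) : ℕ) : ℝ) ≤ 32 * K * w := by
    have : ((2^(m+1) : ℕ) : ℝ) ≤ ((2 * (16 * K * w) : ℕ) : ℝ) := by exact_mod_cast hm2
    refine this.trans (le_of_eq ?_)
    push_cast; ring
  have h1 : Real.exp (-(K * w / 100)) ≤ (1 - (1/6400 : ℝ))^(2^(m+1)) := by
    refine le_trans ?_ (one_sub_pow (2^(m+1)))
    apply Real.exp_le_exp.2
    linarith
  set B := ((univ.filter (fun Z : Fin k → UT d p => ¬ goodW e w m Z)).card : ℝ) with hB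
  have hB0 : 0 ≤ B := by positivity
  have h2 : B * Real.exp (-(K * w / 100)) ≤
      (Fintype.card (UT d p) : ℝ) ^ k * ((p:ℝ)^(d*w) * epsg p (w-1) K) :=
    (mul_le_mul_of_nonneg_left h1 hB0).trans h
  -- bound on the error
  have hd : (p:ℝ)^(d*w) ≤ Real.exp (K * w / 1000) := by
    rw [ppow p hp]
    apply Real.exp_le_exp.2
    push_cast
    nlinarith
  have hw1 : ((w - 1 : ℕ) : ℝ) = w - 1 := by
    rw [Nat.cast_sub (by omega)]; simp
  have hfl : (w:ℝ)/3 ≤ ((w/2 : ℕ) : ℝ) := by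
    have : w ≤ 3 * (w/2) := by omega
    have : (w:ℝ) ≤ 3 * ((w/2 : ℕ) : ℝ) := by exact_mod_cast this
    linarith
  have he1 : epsg p (w-1) K ≤ Real.exp (-(K * w / 25)) + Real.exp (-(K * w * 123 / 3000)) := by
    unfold epsg
    rw [hw1]
    have hww : w - 1 + 1 = w := by omega
    rw [hww]
    apply add_le_add
    · apply Real.exp_le_exp.2
      nlinarith
    · have h3 : (p:ℝ)^(w-1) * Real.exp (-(K/8)) ≤ Real.exp (-(K * 123 / 1000)) := by
        rw [ppow p hp, ← Real.exp_add]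
        apply Real.exp_le_exp.2
        rw [hw1]
        nlinarith
      calc ((p:ℝ)^(w-1) * Real.exp (-(K/8)))^(w/2) ≤ (Real.exp (-(K * 123 / 1000)))^(w/2) :=
            pow_le_pow_left₀ (by positivity) h3 _
        _ = Real.exp (((w/2 : ℕ) : ℝ) * (-(K * 123 / 1000))) := by rw [Real.exp_nat_mul]
        _ ≤ _ := by
            apply Real.exp_le_exp.2
            nlinarith
  have he2 : epsg p (w-1) K ≤ 2 * Real.exp (-(K * w / 25)) := by
    have : Real.exp (-(K * w * 123 / 3000)) ≤ Real.exp (-(K * w / 25)) := by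
      apply Real.exp_le_exp.2
      nlinarith
    linarith
  have h3 : (p:ℝ)^(d*w) * epsg p (w-1) K ≤ Real.exp (K * w / 1000) * (2 * Real.exp (-(K * w / 25))) := by
    apply mul_le_mul hd he2
    · unfold epsg; positivity
    · positivity
  have h4 : B * Real.exp (-(K * w / 100)) ≤
      ((Fintype.card (UT d p) : ℝ) ^ k * (2 * Real.exp (-(1/20 * K)))) * Real.exp (-(K * w / 100)) := by
    refine h2.trans ?_
    rw [mul_assoc]
    apply mul_le_mul_of_nonneg_left _ (by positivity)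
    refine h3.trans ?_
    have e1 : Real.exp (K * w / 1000) * (2 * Real.exp (-(K * w / 25))) =
        2 * Real.exp (K * w / 1000 + (-(K * w / 25))) := by rw [Real.exp_add]; ring
    have e2 : 2 * Real.exp (-(1/20 * K)) * Real.exp (-(K * w / 100)) =
        2 * Real.exp (-(1/20 * K) + (-(K * w / 100))) := by rw [Real.exp_add]; ring
    rw [e1, e2]
    apply mul_le_mul_of_nonneg_left _ (by norm_num)
    apply Real.exp_le_exp.2
    nlinarith
  exact le_of_mul_le_mul_right h4 (Real.exp_pos _)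

theorem bad_1_bound (hk : 2 ≤ k)
    (ha : 2000 * (d * Real.log p) ≤ (k:ℝ)) :
    ∃ m, ((univ.filter (fun Z : Fin k → UT d p => ¬ good1 m Z)).card : ℝ) ≤
      (Fintype.card (UT d p) : ℝ) ^ k * Real.exp (-(k/8)) := by
  have hp : 0 < p := (Fact.out : p.Prime).pos
  have hkr : (2:ℝ) ≤ k := by exact_mod_cast hk
  obtain ⟨m, hm1, hm2⟩ := exists_pow_between k hk
  refine ⟨m, ?_⟩
  have h := bad_count1 (d := d) (p := p) (k := k) (by omega) m hm1 (η := 1/6400) (by norm_num)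
  have hL : ((2^(m+1) : ℕ) : ℝ) ≤ 2 * k := by exact_mod_cast hm2
  have h1 : Real.exp (-(k / 1600)) ≤ (1 - (1/6400 : ℝ))^(2^(m+1)) := by
    refine le_trans ?_ (one_sub_pow (2^(m+1)))
    apply Real.exp_le_exp.2
    linarith
  set B := ((univ.filter (fun Z : Fin k → UT d p => ¬ good1 m Z)).card : ℝ) with hB
  have hB0 : 0 ≤ B := by positivity
  have h2 : B * Real.exp (-(k / 1600)) ≤
      (Fintype.card (UT d p) : ℝ) ^ k * ((p:ℝ)^d * Real.exp (-(k/4))) :=
    (mul_le_mul_of_nonneg_left h1 hB0).trans h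
  have h4 : B * Real.exp (-(k / 1600)) ≤
      ((Fintype.card (UT d p) : ℝ) ^ k * Real.exp (-(k/8))) * Real.exp (-(k / 1600)) := by
    refine h2.trans ?_
    rw [mul_assoc]
    apply mul_le_mul_of_nonneg_left _ (by positivity)
    rw [ppow p hp, ← Real.exp_add, ← Real.exp_add]
    apply Real.exp_le_exp.2
    nlinarith
  exact le_of_mul_le_mul_right h4 (Real.exp_pos _)

/-- all levels good implies expansion -/
theorem exp_of_good (hd : 1 ≤ d) (hK : 0 < K) (hKk : (k:ℝ) ≤ 3 * K)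
    (e : Fin K ⊕ Fin K → Fin k) (he : Function.Injective e) (mm : ℕ → ℕ)
    (Z : Fin k → UT d p) (h1 : good1 (mm 1) Z) (h2 : ∀ w, 2 ≤ w → w < d → goodW e w (mm w) Z) :
    Exp (1/153600) Z := by
  apply exp_of_gap Z (by norm_num)
  intro f
  apply poincare Z _ _ hd f
  intro w hw hwd f hf
  have hf0 : 0 ≤ ∑ x, f x ^ 2 := Finset.sum_nonneg (fun x _ => sq_nonneg _)
  have hk0 : (0:ℝ) ≤ k := Nat.cast_nonneg _
  rcases Nat.lt_or_ge w 2 with hw2 | hw2
  · have hw1 : w = 1 := by omega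
    subst hw1
    have := good_level1 (mm 1) Z (η := 1/6400) (by norm_num) h1 hf
    refine le_trans ?_ this
    apply mul_le_mul_of_nonneg_right _ hf0
    linarith
  · have h3 := good_level (mm w) (Z ∘ e) (η := 1/6400) (by norm_num) hK (h2 w hw2 hwd) hf
    have h4 : ∑ i, Dd f ((Z ∘ e) (Sum.inl i)) + ∑ j, Dd f ((Z ∘ e) (Sum.inr j)) ≤ ∑ i, Dd f (Z i) := by
      rw [← Fintype.sum_sum_type (fun i => Dd f ((Z ∘ e) i))]
      have h5 : ∑ x, Dd f ((Z ∘ e) x) = ∑ i ∈ univ.map ⟨e, he⟩, Dd f (Z i) := by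
        rw [Finset.sum_map]; rfl
      rw [h5]
      exact Finset.sum_le_sum_of_subset_of_nonneg (Finset.subset_univ _) (fun i _ _ => Dd_nonneg f _)
    refine le_trans ?_ (h3.trans h4)
    apply mul_le_mul_of_nonneg_right _ hf0
    linarith

/-- the set of bad tuples is small -/
theorem bad_bound (hd : 3 ≤ d) (hK1 : 2 * K ≤ k) (hK2 : k ≤ 2 * K + 1)
    (ha : 1000 * (d * Real.log p) ≤ (K:ℝ)) :
    ((univ.filter (fun Z : Fin k → UT d p => ¬ Exp (1/153600) Z)).card : ℝ) ≤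
      (Fintype.card (UT d p) : ℝ) ^ k * (2 * Real.exp (-(1/40 * K))) := by
  have hp : 0 < p := (Fact.out : p.Prime).pos
  have hp2 : (2:ℝ) ≤ p := by exact_mod_cast (Fact.out : p.Prime).two_le
  have hlog2 : (1/2:ℝ) ≤ Real.log p := by
    have h1 : Real.log 2 ≤ Real.log p := Real.log_le_log (by norm_num) hp2
    have h2 := Real.log_two_gt_d9
    linarith
  have hdr : (3:ℝ) ≤ d := by exact_mod_cast hd
  have hKd : 500 * (d:ℝ) ≤ K := by nlinarith
  have hKr : (1500:ℝ) ≤ K := by linarith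
  have hK : 1500 ≤ K := by exact_mod_cast hKr
  have hk : 2 ≤ k := by omega
  have hkK : 2 * (K:ℝ) ≤ k := by exact_mod_cast hK1
  have hkK2 : (k:ℝ) ≤ 3 * K := by
    have : k ≤ 3 * K := by omega
    exact_mod_cast this
  -- the injection
  let e : Fin K ⊕ Fin K → Fin k := Sum.elim (fun i => ⟨i.1, by omega⟩) (fun j => ⟨K + j.1, by omega⟩)
  have he : Function.Injective e := by
    rintro (i | i) (j | j) h
    · simp only [e, Sum.elim_inl, Fin.mk.injEq] at h
      rw [Fin.ext h]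
    · simp only [e, Sum.elim_inl, Sum.elim_inr, Fin.mk.injEq] at h
      omega
    · simp only [e, Sum.elim_inl, Sum.elim_inr, Fin.mk.injEq] at h
      omega
    · simp only [e, Sum.elim_inr, Fin.mk.injEq] at h
      rw [Fin.ext (by omega : i.1 = j.1)]
  obtain ⟨m1, hm1⟩ := bad_1_bound (d := d) (p := p) (k := k) hk (by linarith)
  have hw : ∀ w, ∃ m, 2 ≤ w → w < d →
      ((univ.filter (fun Z : Fin k → UT d p => ¬ goodW e w m Z)).card : ℝ) ≤
      (Fintype.card (UT d p) : ℝ) ^ k * (2 * Real.exp (-(1/20 * K))) := by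
    intro w
    by_cases h : 2 ≤ w ∧ w < d
    · obtain ⟨m, hm⟩ := bad_w_bound (d := d) (p := p) (k := k) h.1 h.2 (by omega) ha e he
      exact ⟨m, fun _ _ => hm⟩
    · exact ⟨0, fun h1 h2 => absurd ⟨h1, h2⟩ h⟩
  choose mw hmw using hw
  let mm : ℕ → ℕ := fun w => if w = 1 then m1 else mw w
  have hmm1 : mm 1 = m1 := by simp [mm]
  have hmm2 : ∀ w, 2 ≤ w → mm w = mw w := by
    intro w hw
    have : w ≠ 1 := by omega
    simp [mm, this]
  have hsub : (univ.filter (fun Z : Fin k → UT d p => ¬ Exp (1/153600) Z)) ⊆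
      (univ.filter (fun Z : Fin k → UT d p => ¬ good1 m1 Z)) ∪
      (Finset.Ico 2 d).biUnion (fun w => univ.filter (fun Z : Fin k → UT d p => ¬ goodW e w (mw w) Z)) := by
    intro Z hZ
    by_contra hcon
    rw [Finset.mem_union, not_or] at hcon
    obtain ⟨hc1, hc2⟩ := hcon
    simp only [Finset.mem_filter, Finset.mem_univ, true_and, not_not] at hc1 hZ
    apply hZ
    apply exp_of_good (by omega) (by omega) hkK2 e he mm Z
    · rw [hmm1]; exact hc1
    · intro w hw1 hw2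
      rw [hmm2 w hw1]
      by_contra hg
      apply hc2
      rw [Finset.mem_biUnion]
      exact ⟨w, Finset.mem_Ico.2 ⟨hw1, hw2⟩, by simp [hg]⟩
  have hcard : ((univ.filter (fun Z : Fin k → UT d p => ¬ Exp (1/153600) Z)).card : ℝ) ≤
      ((univ.filter (fun Z : Fin k → UT d p => ¬ good1 m1 Z)).card : ℝ) +
      ∑ w ∈ Finset.Ico 2 d, ((univ.filter (fun Z : Fin k → UT d p => ¬ goodW e w (mw w) Z)).card : ℝ) := by
    have h1 := (Finset.card_le_card hsub).trans (Finset.card_union_le _ _)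
    have h2 := Finset.card_biUnion_le (s := Finset.Ico 2 d)
      (t := fun w => univ.filter (fun Z : Fin k → UT d p => ¬ goodW e w (mw w) Z))
    have h3 := h1.trans (Nat.add_le_add_left h2 _)
    exact_mod_cast h3
  have hc0 : (0:ℝ) ≤ (Fintype.card (UT d p) : ℝ) ^ k := by positivity
  have hsum : ∑ w ∈ Finset.Ico 2 d, ((univ.filter (fun Z : Fin k → UT d p => ¬ goodW e w (mw w) Z)).card : ℝ)
      ≤ (d:ℝ) * ((Fintype.card (UT d p) : ℝ) ^ k * (2 * Real.exp (-(1/20 * K)))) := by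
    calc _ ≤ ∑ w ∈ Finset.Ico 2 d, ((Fintype.card (UT d p) : ℝ) ^ k * (2 * Real.exp (-(1/20 * K)))) := by
          refine Finset.sum_le_sum (fun w hw => ?_)
          rw [Finset.mem_Ico] at hw
          exact hmw w hw.1 hw.2
      _ = ((d - 2 : ℕ) : ℝ) * ((Fintype.card (UT d p) : ℝ) ^ k * (2 * Real.exp (-(1/20 * K)))) := by
          rw [Finset.sum_const, Nat.card_Ico, nsmul_eq_mul]
      _ ≤ _ := by
          apply mul_le_mul_of_nonneg_right _ (by positivity)
          exact_mod_cast Nat.sub_le d 2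
  have hx1 : Real.exp (-(k/8)) ≤ Real.exp (-(1/40 * K)) := Real.exp_le_exp.2 (by linarith)
  have hx2 : (d:ℝ) * (2 * Real.exp (-(1/20 * K))) ≤ Real.exp (-(1/40 * K)) := by
    have h1 : Real.exp (-(1/20 * K)) = Real.exp (-(1/40 * K)) * Real.exp (-(1/40 * K)) := by
      rw [← Real.exp_add]; congr 1; ring
    have h2 : 2 * (d:ℝ) ≤ Real.exp (1/40 * K) := by
      have := Real.add_one_le_exp (1/40 * (K:ℝ))
      linarith
    have h3 : Real.exp (1/40 * K) * Real.exp (-(1/40 * K)) = 1 := by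
      rw [← Real.exp_add]; simp
    calc (d:ℝ) * (2 * Real.exp (-(1/20 * K))) = (2 * d * Real.exp (-(1/40 * K))) * Real.exp (-(1/40 * K)) := by
          rw [h1]; ring
      _ ≤ (Real.exp (1/40 * K) * Real.exp (-(1/40 * K))) * Real.exp (-(1/40 * K)) := by
          apply mul_le_mul_of_nonneg_right _ (Real.exp_pos _).le
          exact mul_le_mul_of_nonneg_right h2 (Real.exp_pos _).le
      _ = _ := by rw [h3, one_mul]
  calc _ ≤ _ := hcard
    _ ≤ (Fintype.card (UT d p) : ℝ) ^ k * Real.exp (-(k/8)) +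
        (d:ℝ) * ((Fintype.card (UT d p) : ℝ) ^ k * (2 * Real.exp (-(1/20 * K)))) := add_le_add hm1 hsum
    _ = (Fintype.card (UT d p) : ℝ) ^ k * (Real.exp (-(k/8)) + (d:ℝ) * (2 * Real.exp (-(1/20 * K)))) := by ring
    _ ≤ _ := by
        apply mul_le_mul_of_nonneg_left _ hc0
        linarith

theorem card_UT_le : (Fintype.card (UT d p) : ℝ) ≤ Real.exp (d * (d * Real.log p)) := by
  have hp : 0 < p := (Fact.out : p.Prime).pos
  have h1 : Fintype.card (UT d p) ≤ Fintype.card (Matrix (Fin d) (Fin d) (ZMod p)) :=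
    Fintype.card_le_of_injective (fun g : UT d p => g.mat) (fun g h H => UT.ext' H)
  have h2 : Fintype.card (Matrix (Fin d) (Fin d) (ZMod p)) = p^(d*d) := by
    have : Fintype.card (Matrix (Fin d) (Fin d) (ZMod p)) = Fintype.card (Fin d → Fin d → ZMod p) := rfl
    rw [this]
    simp only [Fintype.card_fun, Fintype.card_fin, ZMod.card]
    rw [pow_mul]
  rw [h2] at h1
  have h3 : (Fintype.card (UT d p) : ℝ) ≤ (p:ℝ)^(d*d) := by exact_mod_cast h1
  refine h3.trans (le_of_eq ?_)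
  rw [ppow p hp]
  push_cast
  ring_nf

/-- the final statement over the group type -/
theorem final (δ : ℝ) (hδ : 0 < δ) : ∃ N : ℕ, ∀ (p : ℕ) [Fact p.Prime], ∀ d : ℕ, 3 ≤ d → ∀ k : ℕ,
    4500 * ((d:ℝ) - 1) * Real.log p ≤ k → N ≤ Fintype.card (UT d p) →
    (1 - δ) * (Fintype.card (UT d p) : ℝ)^k ≤
      ((univ.filter (fun Z : Fin k → UT d p => Exp (1/153600) Z)).card : ℝ) := by
  refine ⟨⌈Real.exp (2 * (Real.log (2/δ))^2)⌉₊ + 1, ?_⟩
  intro p _ d hd k hk hN
  have hp : 0 < p := (Fact.out : p.Prime).pos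
  have hp2 : (2:ℝ) ≤ p := by exact_mod_cast (Fact.out : p.Prime).two_le
  have hlog2 : (1/2:ℝ) ≤ Real.log p := by
    have h1 : Real.log 2 ≤ Real.log p := Real.log_le_log (by norm_num) hp2
    have h2 := Real.log_two_gt_d9
    linarith
  have hdr : (3:ℝ) ≤ d := by exact_mod_cast hd
  have hk2 : 3000 * (d * Real.log p) ≤ k := by nlinarith
  have hkr : (4500:ℝ) ≤ k := by nlinarith
  have hkn : 4500 ≤ k := by exact_mod_cast hkr
  obtain ⟨K, hK⟩ : ∃ K, K = k / 2 := ⟨_, rfl⟩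
  have hK1 : 2 * K ≤ k := by omega
  have hK2 : k ≤ 2 * K + 1 := by omega
  have hK3 : k ≤ 3 * K := by omega
  have hK3r : (k:ℝ) ≤ 3 * K := by exact_mod_cast hK3
  have ha : 1000 * (d * Real.log p) ≤ (K:ℝ) := by linarith
  have hbad := bad_bound (d := d) (p := p) (k := k) hd hK1 hK2 ha
  -- smallness of the error
  have hsmall : 2 * Real.exp (-(1/40 * K)) ≤ δ := by
    by_contra hcon
    push Not at hcon
    have h1 : δ / 2 < Real.exp (-(1/40 * K)) := by linarith
    have h2 : Real.log (δ/2) < -(1/40 * K) := (Real.log_lt_iff_lt_exp (by positivity)).2 h1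
    have h3 : Real.log (2/δ) = - Real.log (δ/2) := by
      rw [← Real.log_inv]; congr 1; rw [inv_div]
    have h4 : 1/40 * (K:ℝ) < Real.log (2/δ) := by rw [h3]; linarith
    set a := (d:ℝ) * Real.log p with hadef
    have ha0 : 0 < a := by positivity
    have h5 : a ≤ Real.log (2/δ) := by linarith
    have h6 : (d:ℝ) ≤ 2 * a := by nlinarith
    have h7 : (Fintype.card (UT d p) : ℝ) ≤ Real.exp (2 * (Real.log (2/δ))^2) := by
      refine card_UT_le.trans ?_
      apply Real.exp_le_exp.2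
      rw [← hadef]
      nlinarith
    have h8 : ((⌈Real.exp (2 * (Real.log (2/δ))^2)⌉₊ + 1 : ℕ) : ℝ) ≤ (Fintype.card (UT d p) : ℝ) := by
      exact_mod_cast hN
    push_cast at h8
    have h9 := Nat.le_ceil (Real.exp (2 * (Real.log (2/δ))^2))
    linarith
  have hc0 : (0:ℝ) ≤ (Fintype.card (UT d p) : ℝ) ^ k := by positivity
  have hsplit : ((univ.filter (fun Z : Fin k → UT d p => Exp (1/153600) Z)).card : ℝ) +
      ((univ.filter (fun Z : Fin k → UT d p => ¬ Exp (1/153600) Z)).card : ℝ) =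
      (Fintype.card (UT d p) : ℝ) ^ k := by
    have h1 := Finset.card_filter_add_card_filter_not (s := (univ : Finset (Fin k → UT d p)))
      (fun Z => Exp (1/153600) Z)
    rw [card_univ, Fintype.card_fun, Fintype.card_fin] at h1
    exact_mod_cast h1
  have h10 : (Fintype.card (UT d p) : ℝ) ^ k * (2 * Real.exp (-(1/40 * K))) ≤
      (Fintype.card (UT d p) : ℝ) ^ k * δ := mul_le_mul_of_nonneg_left hsmall hc0
  nlinarith

end

end Pool.Agent.H773R3
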