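import Pool.Agent.H773R3.Ab

set_option autoImplicit false
set_option linter.unusedSectionVars false

namespace Pool.Agent.H773R3

open Finset Matrix
open scoped Classical

noncomputable section

section General

variable {G : Type*} [Group G] [Fintype G]

/-- average over cosets -/
def avgN (N : Subgroup G) (f : G → ℝ) (x : G) : ℝ :=
  (∑ y : G, (if y ∈ N then f (x * y) else 0)) / (Nat.card N : ℝ)

theorem avgN_inv (N : Subgroup G) (f : G → ℝ) (x : G) {z : G} (hz : z ∈ N) :
    avgN N f (x * z) = avgN N f x := by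
  unfold avgN
  congr 1
  rw [← Equiv.sum_comp (Equiv.mulLeft z) (fun y => if y ∈ N then f (x * y) else 0)]
  refine Finset.sum_congr rfl (fun y _ => ?_)
  simp only [Equiv.coe_mulLeft]
  have : (z * y ∈ N) ↔ y ∈ N := mul_mem_cancel_left hz
  simp only [this, mul_assoc]

theorem avgN_of_inv (N : Subgroup G) (f : G → ℝ) (hf : ∀ x, ∀ y ∈ N, f (x * y) = f x) (x : G) :
    avgN N f x = f x := by
  unfold avgN
  have : ∀ y : G, (if y ∈ N then f (x * y) else 0) = f x * (if y ∈ N then 1 else 0) := by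
    intro y
    split_ifs with h
    · rw [hf x y h, mul_one]
    · rw [mul_zero]
  simp only [this]
  rw [← Finset.mul_sum, ← card_eq_sum]
  field_simp [(card_pos' N).ne']

theorem zero_avg (N : Subgroup G) (f : G → ℝ) (x : G) :
    ∑ y : G, (if y ∈ N then (f (x * y) - avgN N f (x * y)) else 0) = 0 := by
  have h1 : ∀ y : G, (if y ∈ N then (f (x * y) - avgN N f (x * y)) else 0)
      = (if y ∈ N then f (x * y) else 0) - avgN N f x * (if y ∈ N then 1 else 0) := by
    intro y
    split_ifs with h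
    · rw [avgN_inv N f x h, mul_one]
    · simp
  simp only [h1]
  rw [Finset.sum_sub_distrib, ← Finset.mul_sum, ← card_eq_sum]
  unfold avgN
  field_simp [(card_pos' N).ne']
  ring

/-- orthogonality -/
theorem orth (N : Subgroup G) (u v : G → ℝ) (hu : ∀ x, ∀ y ∈ N, u (x * y) = u x)
    (hv : ∀ x, ∑ y : G, (if y ∈ N then v (x * y) else 0) = 0) : ∑ x, u x * v x = 0 := by
  have h1 : (Nat.card N : ℝ) * ∑ x, u x * v x = 0 := by
    rw [card_eq_sum, Finset.sum_mul]
    have h2 : ∀ y : G, (if y ∈ N then (1:ℝ) else 0) * ∑ x, u x * v x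
        = ∑ x, u x * (if y ∈ N then v (x * y) else 0) := by
      intro y
      by_cases hy : y ∈ N
      · simp only [hy, if_true, one_mul]
        rw [← Equiv.sum_comp (Equiv.mulRight y) (fun x => u x * v x)]
        refine Finset.sum_congr rfl (fun x _ => ?_)
        simp only [Equiv.coe_mulRight]
        rw [hu x y hy]
      · simp [hy]
    rw [Finset.sum_congr rfl (fun y _ => h2 y), Finset.sum_comm]
    refine Finset.sum_eq_zero (fun x _ => ?_)
    rw [← Finset.mul_sum, hv x, mul_zero]
  exact (mul_eq_zero.1 h1).resolve_left (card_pos' N).ne'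

theorem split_sq (N : Subgroup G) (u v : G → ℝ) (hu : ∀ x, ∀ y ∈ N, u (x * y) = u x)
    (hv : ∀ x, ∑ y : G, (if y ∈ N then v (x * y) else 0) = 0) :
    ∑ x, (u x + v x)^2 = ∑ x, u x ^ 2 + ∑ x, v x ^ 2 := by
  have h := orth N u v hu hv
  have : ∑ x, (u x + v x)^2 = ∑ x, u x ^ 2 + ∑ x, v x ^ 2 + 2 * ∑ x, u x * v x := by
    rw [Finset.mul_sum, ← Finset.sum_add_distrib, ← Finset.sum_add_distrib]
    refine Finset.sum_congr rfl (fun x _ => ?_)
    ring
  rw [this, h]; ring

theorem Dd_split (N : Subgroup G) [N.Normal] (u v : G → ℝ) (hu : ∀ x, ∀ y ∈ N, u (x * y) = u x)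
    (hv : ∀ x, ∑ y : G, (if y ∈ N then v (x * y) else 0) = 0) (z : G) :
    Dd (fun x => u x + v x) z = Dd u z + Dd v z := by
  unfold Dd
  have h1 := split_sq N (fun x => u (x * z) - u x) (fun x => v (x * z) - v x) (by
    intro x y hy
    have : x * y * z = (x * z) * (z⁻¹ * y * z) := by group
    rw [this, hu (x * z) (z⁻¹ * y * z), hu x y hy]
    have := Subgroup.Normal.conj_mem (H := N) inferInstance y hy z⁻¹
    simpa using this) (by
    intro x
    have h2 : ∀ y : G, (if y ∈ N then (v (x * y * z) - v (x * y)) else 0)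
        = (if y ∈ N then v (x * y * z) else 0) - (if y ∈ N then v (x * y) else 0) := by
      intro y; split_ifs <;> simp
    simp only [h2]
    rw [Finset.sum_sub_distrib, hv x, sub_zero]
    refine Eq.trans ?_ (hv (x * z))
    rw [← Equiv.sum_comp (MulAut.conj z).toEquiv (fun y => if y ∈ N then v (x * y * z) else 0)]
    refine Finset.sum_congr rfl (fun y _ => ?_)
    have hm : ((MulAut.conj z).toEquiv y ∈ N) ↔ y ∈ N := by
      constructor
      · intro hy
        have := Subgroup.Normal.conj_mem (H := N) inferInstance _ hy z⁻¹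
        simpa [MulAut.conj_apply, mul_assoc] using this
      · intro hy
        have := Subgroup.Normal.conj_mem (H := N) inferInstance _ hy z
        simpa [MulAut.conj_apply] using this
    by_cases hy : y ∈ N
    · rw [if_pos hy, if_pos (hm.2 hy)]
      congr 1
      simp [MulAut.conj_apply, mul_assoc]
    · rw [if_neg hy, if_neg (fun hc => hy (hm.1 hc))])
  rw [← h1]
  refine Finset.sum_congr rfl (fun x _ => ?_)
  ring

theorem sum_avgN (N : Subgroup G) (f : G → ℝ) : ∑ x, avgN N f x = ∑ x, f x := by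
  have h := orth N (fun _ => 1) (fun x => f x - avgN N f x) (fun _ _ _ => rfl) (zero_avg N f)
  simp only [one_mul] at h
  rw [Finset.sum_sub_distrib] at h
  linarith

end General

variable {d p : ℕ} [Fact p.Prime] {k : ℕ}

theorem poincare (Z : Fin k → UT d p) (c0 : ℝ)
    (hgood : ∀ w, 1 ≤ w → w < d → ∀ f : UT d p → ℝ, InV (Gam (w+1)) (Gam w) f →
      c0 * ∑ x, f x ^ 2 ≤ ∑ i, Dd f (Z i))
    (hd : 1 ≤ d) (f : UT d p → ℝ) :
    c0 * ∑ x, (f x - (∑ y, f y) / (Fintype.card (UT d p) : ℝ)) ^ 2 ≤ ∑ i, Dd f (Z i) := by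
  have hn : (0:ℝ) < Fintype.card (UT d p) := by
    have : 0 < Fintype.card (UT d p) := Fintype.card_pos
    exact_mod_cast this
  have key : ∀ w, 1 ≤ w → w ≤ d → ∀ f : UT d p → ℝ, (∀ x, ∀ y ∈ Gam w, f (x * y) = f x) →
      c0 * ∑ x, (f x - (∑ y, f y) / (Fintype.card (UT d p) : ℝ)) ^ 2 ≤ ∑ i, Dd f (Z i) := by
    intro w hw
    induction w, hw using Nat.le_induction with
    | base =>
      intro _ f hf
      have h1 : ∀ x, f x = f 1 := by
        intro x
        have := hf 1 x (by rw [Gam_one]; exact Subgroup.mem_top x)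
        rwa [one_mul] at this
      have h2 : ∀ x : UT d p, f x - (∑ y, f y) / (Fintype.card (UT d p) : ℝ) = 0 := by
        intro x
        rw [Finset.sum_congr rfl (fun y _ => h1 y), Finset.sum_const, card_univ, nsmul_eq_mul, h1 x]
        field_simp
        ring
      simp only [h2]
      have : 0 ≤ ∑ i, Dd f (Z i) := Finset.sum_nonneg (fun i _ => Dd_nonneg f _)
      simpa using this
    | succ w hw ih =>
      intro hwd f hf
      set g := avgN (Gam w) f with hg
      have hgi : ∀ x, ∀ y ∈ Gam w, g (x * y) = g x := fun x y hy => avgN_inv (Gam w) f x hy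
      set h : UT d p → ℝ := fun x => f x - g x with hh
      have hV : InV (Gam (w+1)) (Gam w) h := by
        constructor
        · intro x y hy
          simp only [hh]
          rw [hf x y hy, hgi x y (Gam_anti (by omega) hy)]
        · exact zero_avg (Gam w) f
      have h1 := ih (by omega) g hgi
      have h2 := hgood w hw (by omega) h hV
      have hsum : ∑ y, g y = ∑ y, f y := sum_avgN (Gam w) f
      rw [hsum] at h1
      set μ := (∑ y, f y) / (Fintype.card (UT d p) : ℝ) with hμ
      have h3 : ∑ x, (f x - μ)^2 = ∑ x, (g x - μ)^2 + ∑ x, h x ^ 2 := by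
        rw [← split_sq (Gam w) (fun x => g x - μ) h (fun x y hy => by simp only [hgi x y hy]) hV.2]
        refine Finset.sum_congr rfl (fun x _ => ?_)
        simp only [hh]; ring
      have h4 : ∀ i, Dd f (Z i) = Dd g (Z i) + Dd h (Z i) := by
        intro i
        rw [← Dd_split (Gam w) g h hgi hV.2 (Z i)]
        congr 1
        funext x
        simp only [hh]; ring
      rw [h3, mul_add, Finset.sum_congr rfl (fun i _ => h4 i), Finset.sum_add_distrib]
      exact add_le_add h1 h2
  apply key d hd le_rfl f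
  intro x y hy
  rw [Gam_top le_rfl hd, Subgroup.mem_bot] at hy
  rw [hy, mul_one]

theorem Dd_ind (S : Finset (UT d p)) (z : UT d p) :
    Dd (fun x => if x ∈ S then (1:ℝ) else 0) z = 2 * ((S.filter (fun x => x * z ∉ S)).card : ℝ) := by
  have h1 : ∀ x : UT d p, ((if x * z ∈ S then (1:ℝ) else 0) - (if x ∈ S then 1 else 0))^2
      = 2 * (if x ∈ S ∧ x * z ∉ S then 1 else 0) + ((if x * z ∈ S then (1:ℝ) else 0) - (if x ∈ S then 1 else 0)) := by
    intro x
    by_cases h1 : x ∈ S <;> by_cases h2 : x * z ∈ S <;> simp [h1, h2] <;> norm_num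
  unfold Dd
  simp only [h1]
  rw [Finset.sum_add_distrib, Finset.sum_sub_distrib, ← Finset.mul_sum]
  have h2 : ∑ x : UT d p, (if x * z ∈ S then (1:ℝ) else 0) = ∑ x : UT d p, (if x ∈ S then (1:ℝ) else 0) :=
    Equiv.sum_comp (Equiv.mulRight z) (fun x => if x ∈ S then (1:ℝ) else 0)
  rw [h2, sub_self, add_zero, Finset.sum_boole]
  congr 2
  congr 1
  ext x
  simp

/-- expansion of a tuple -/
def Exp (ε : ℝ) (Z : Fin k → UT d p) : Prop :=
  ∀ S : Finset (UT d p), 2 * S.card ≤ Fintype.card (UT d p) →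
    ε * (k : ℝ) * (S.card : ℝ) ≤
      (((S ×ˢ (Finset.univ : Finset (Fin k))).filter (fun x => x.1 * Z x.2 ∉ S)).card : ℝ)

theorem exp_of_gap (Z : Fin k → UT d p) {ε : ℝ} (hε : 0 < ε)
    (h : ∀ f : UT d p → ℝ, (4 * ε * k) * ∑ x, (f x - (∑ y, f y) / (Fintype.card (UT d p) : ℝ)) ^ 2
      ≤ ∑ i, Dd f (Z i)) : Exp ε Z := by
  intro S hS
  have hn : (0:ℝ) < Fintype.card (UT d p) := by
    have : 0 < Fintype.card (UT d p) := Fintype.card_pos
    exact_mod_cast this
  have h1 := h (fun x => if x ∈ S then (1:ℝ) else 0)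
  have e1 : ∑ y : UT d p, (if y ∈ S then (1:ℝ) else 0) = S.card := by
    rw [Finset.sum_boole]; congr 2; ext x; simp
  rw [e1] at h1
  set n := (Fintype.card (UT d p) : ℝ) with hnd
  set s := (S.card : ℝ) with hs
  have e2 : ∑ x : UT d p, ((if x ∈ S then (1:ℝ) else 0) - s / n)^2 = s - s^2/n := by
    have : ∀ x : UT d p, ((if x ∈ S then (1:ℝ) else 0) - s / n)^2
        = (1 - 2 * (s/n)) * (if x ∈ S then (1:ℝ) else 0) + (s/n)^2 := by
      intro x; split_ifs <;> ring
    simp only [this]
    rw [Finset.sum_add_distrib, ← Finset.mul_sum, e1, Finset.sum_const, card_univ, nsmul_eq_mul, ← hnd]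
    field_simp
    ring
  rw [e2] at h1
  have e3 : ∑ i, Dd (fun x => if x ∈ S then (1:ℝ) else 0) (Z i)
      = 2 * (((S ×ˢ (Finset.univ : Finset (Fin k))).filter (fun x => x.1 * Z x.2 ∉ S)).card : ℝ) := by
    simp only [Dd_ind]
    rw [← Finset.mul_sum]
    congr 1
    rw [Finset.card_filter, Finset.sum_product_right]
    push_cast
    refine Finset.sum_congr rfl (fun i _ => ?_)
    rw [Finset.card_filter]
    push_cast
    rfl
  rw [e3] at h1
  have h2 : (2:ℝ) * s ≤ n := by rw [hs, hnd]; exact_mod_cast hS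
  have hs0 : 0 ≤ s := by positivity
  have h3 : s / 2 ≤ s - s^2/n := by
    have : s^2/n ≤ s/2 := by
      rw [div_le_div_iff₀ hn (by norm_num)]
      nlinarith
    linarith
  have h4 : (4 * ε * k) * (s/2) ≤ (4 * ε * k) * (s - s^2/n) :=
    mul_le_mul_of_nonneg_left h3 (by positivity)
  linarith

end

end Pool.Agent.H773R3
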