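import Pool.Agent.H773R3.Row

set_option autoImplicit false
set_option linter.unusedSectionVars false

namespace Pool.Agent.H773R3

open Finset Matrix
open scoped Classical

noncomputable section

variable {d p : ℕ} [Fact p.Prime]

/-- the standard character -/
abbrev psi (p : ℕ) [Fact p.Prime] : AddChar (ZMod p) ℂ := ZMod.stdAddChar

theorem psi_norm (x : ZMod p) : ‖psi p x‖ = 1 := AddChar.norm_apply _ _

theorem psi_eq_one {x : ZMod p} : psi p x = 1 ↔ x = 0 := by
  constructor
  · intro h
    apply ZMod.injective_stdAddChar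
    rw [h]; simp
  · rintro rfl; simp

/-- sum of a character composed with an additive map -/
theorem sum_char {A : Type*} [AddCommGroup A] [Fintype A] (f : A →+ ZMod p) :
    ∑ a, psi p (f a) = if (∀ a, f a = 0) then (Fintype.card A : ℂ) else 0 := by
  split_ifs with h
  · simp [h]
  · push Not at h
    obtain ⟨a0, ha0⟩ := h
    have := (AddChar.sum_eq_zero_iff_ne_zero (ψ := (psi p).compAddMonoidHom f)).2 (by
      intro h0
      have h1 := congrArg (fun χ : AddChar A ℂ => χ a0) h0
      simp only [AddChar.compAddMonoidHom_apply] at h1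
      rw [AddChar.zero_apply] at h1
      exact ha0 (psi_eq_one.1 h1))
    simpa using this

/-! ### column averaging -/

/-- column matrix with entries in column `l`, rows strictly between `i` and `l` -/
def colMat (i l : Fin d) (u : Fin d → ZMod p) : Matrix (Fin d) (Fin d) (ZMod p) :=
  Matrix.of fun r c => if c = l ∧ i < r ∧ r < l then u r else 0

theorem colMat_ColS (i l : Fin d) (u : Fin d → ZMod p) : ColS l (colMat i l u) := by
  intro r c h
  simp only [colMat, Matrix.of_apply]
  rw [if_neg]
  rintro ⟨rfl, _, h2⟩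
  exact h ⟨h2, le_rfl⟩

theorem isUT_one_add_colMat (i l : Fin d) (u : Fin d → ZMod p) : IsUT (1 + colMat i l u) := by
  intro r c
  constructor
  · intro h
    rw [Matrix.add_apply, Matrix.one_apply, if_neg h.ne', zero_add]
    simp only [colMat, Matrix.of_apply]
    rw [if_neg]
    rintro ⟨rfl, _, h2⟩
    exact absurd (h.trans h2) (lt_irrefl _)
  · rw [Matrix.add_apply, Matrix.one_apply_eq]
    simp only [colMat, Matrix.of_apply]
    rw [if_neg, add_zero]
    rintro ⟨rfl, _, h2⟩
    exact absurd h2 (lt_irrefl _)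

/-- as a group element -/
def colElt (i l : Fin d) (u : Fin d → ZMod p) : UT d p := ⟨1 + colMat i l u, isUT_one_add_colMat i l u⟩

theorem trace_colMat (i l : Fin d) (u : Fin d → ZMod p) (Z : Matrix (Fin d) (Fin d) (ZMod p)) :
    (Z * colMat i l u).trace = ∑ r, (if i < r ∧ r < l then u r * Z l r else 0) := by
  rw [Matrix.trace, Finset.sum_eq_single l]
  · rw [Matrix.diag_apply, Matrix.mul_apply]
    refine Finset.sum_congr rfl (fun r _ => ?_)
    simp only [colMat, Matrix.of_apply, true_and]
    split_ifs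
    · ring
    · ring
  · intro b _ hb
    rw [Matrix.diag_apply, Matrix.mul_apply]
    refine Finset.sum_eq_zero (fun r _ => ?_)
    simp only [colMat, Matrix.of_apply]
    rw [if_neg (fun h => hb h.1), mul_zero]
  · simp

variable {K : ℕ}

/-- the event that all relevant derivative entries vanish -/
def Van (N : Matrix (Fin d) (Fin d) (ZMod p)) (w : List ((Fin K ⊕ Fin K) × Bool)) (i l : Fin d)
    (b : ℕ) (X Y : Fin K → UT d p) : Prop :=
  ∀ m : Fin K, ∀ a : Fin d, i < a → a < l → (a : ℕ) ≤ b → Zder (Sum.elim X Y) N w (Sum.inl m) l a = 0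

/-- linear functional of `u` -/
def uFun (i l : Fin d) (z : Fin K → Fin d → ZMod p) : (Fin K → Fin d → ZMod p) →+ ZMod p where
  toFun u := ∑ m, ∑ r, (if i < r ∧ r < l then u m r * z m r else 0)
  map_zero' := by simp
  map_add' u u' := by
    rw [← Finset.sum_add_distrib]
    refine Finset.sum_congr rfl (fun m _ => ?_)
    rw [← Finset.sum_add_distrib]
    refine Finset.sum_congr rfl (fun r _ => ?_)
    split_ifs
    · simp only [Pi.add_apply]; ring
    · simp

theorem uFun_zero_iff (i l : Fin d) (z : Fin K → Fin d → ZMod p) :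
    (∀ u, uFun i l z u = 0) ↔ ∀ m a, i < a → a < l → z m a = 0 := by
  constructor
  · intro h m a h1 h2
    have := h (fun m' a' => if m' = m ∧ a' = a then 1 else 0)
    simp only [uFun, AddMonoidHom.coe_mk, ZeroHom.coe_mk] at this
    rw [Finset.sum_eq_single m, Finset.sum_eq_single a] at this
    · simpa [h1, h2] using this
    · intro b _ hb; simp [hb]
    · simp
    · intro b _ hb; simp [hb]
    · simp
  · intro h u
    simp only [uFun, AddMonoidHom.coe_mk, ZeroHom.coe_mk]
    refine Finset.sum_eq_zero (fun m _ => Finset.sum_eq_zero (fun r _ => ?_))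
    split_ifs with hr
    · rw [h m r hr.1 hr.2, mul_zero]
    · rfl

theorem step1 (w : List ((Fin K ⊕ Fin K) × Bool)) (N : Matrix (Fin d) (Fin d) (ZMod p))
    (i l : Fin d) :
    ‖∑ X : Fin K → UT d p, ∑ Y : Fin K → UT d p, psi p ((N * (ev (Sum.elim X Y) w).mat).trace)‖
      ≤ ∑ X : Fin K → UT d p, ∑ Y : Fin K → UT d p, (if Van N w i l d X Y then (1:ℝ) else 0) := by
  set U := Fin K → Fin d → ZMod p with hU
  have hcard : (0:ℝ) < (Fintype.card U : ℝ) := by
    have : 0 < Fintype.card U := Fintype.card_pos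
    exact_mod_cast this
  set S := ∑ X : Fin K → UT d p, ∑ Y : Fin K → UT d p,
    psi p ((N * (ev (Sum.elim X Y) w).mat).trace) with hS
  have h1 : ∀ u : U, S = ∑ X : Fin K → UT d p, ∑ Y : Fin K → UT d p,
      psi p ((N * (ev (Sum.elim X Y) w).mat).trace) *
        psi p (uFun i l (fun m a => Zder (Sum.elim X Y) N w (Sum.inl m) l a) u) := by
    intro u
    rw [hS]
    rw [← Equiv.sum_comp (Equiv.mulRight (fun m => colElt i l (u m) : Fin K → UT d p))]
    refine Finset.sum_congr rfl (fun X _ => Finset.sum_congr rfl (fun Y _ => ?_))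
    rw [← AddChar.map_add_eq_mul]
    congr 1
    have := trace_shift (Sum.elim X Y)
      (Sum.elim ((Equiv.mulRight (fun m => colElt i l (u m) : Fin K → UT d p)) X) Y) l
      (Sum.elim (fun m => colMat i l (u m)) (fun _ => 0))
      (by rintro (m | m)
          · exact colMat_ColS _ _ _
          · exact ColS.zero)
      (by rintro (m | m)
          · simp [colElt]; rfl
          · simp) w N
    rw [this, Fintype.sum_sum_type]
    congr 1
    simp only [Sum.elim_inl, Sum.elim_inr, mul_zero, Matrix.trace_zero, Finset.sum_const_zero,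
      add_zero, uFun, AddMonoidHom.coe_mk, ZeroHom.coe_mk]
    refine Finset.sum_congr rfl (fun m _ => ?_)
    rw [trace_colMat]
  have h2 : (Fintype.card U : ℂ) * S = ∑ X : Fin K → UT d p, ∑ Y : Fin K → UT d p,
      psi p ((N * (ev (Sum.elim X Y) w).mat).trace) *
        ∑ u : U, psi p (uFun i l (fun m a => Zder (Sum.elim X Y) N w (Sum.inl m) l a) u) := by
    have : (Fintype.card U : ℂ) * S = ∑ u : U, S := by
      rw [Finset.sum_const, card_univ, nsmul_eq_mul]
    rw [this, Finset.sum_congr rfl (fun u _ => h1 u), Finset.sum_comm]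
    refine Finset.sum_congr rfl (fun X _ => ?_)
    rw [Finset.sum_comm]
    refine Finset.sum_congr rfl (fun Y _ => ?_)
    rw [Finset.mul_sum]
  have h3 : (Fintype.card U : ℝ) * ‖S‖ ≤ (Fintype.card U : ℝ) *
      ∑ X : Fin K → UT d p, ∑ Y : Fin K → UT d p, (if Van N w i l d X Y then (1:ℝ) else 0) := by
    have e : (Fintype.card U : ℝ) * ‖S‖ = ‖(Fintype.card U : ℂ) * S‖ := by
      rw [norm_mul]; simp
    rw [e, h2, Finset.mul_sum]
    refine (norm_sum_le _ _).trans (Finset.sum_le_sum (fun X _ => ?_))
    rw [Finset.mul_sum]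
    refine (norm_sum_le _ _).trans (Finset.sum_le_sum (fun Y _ => ?_))
    rw [norm_mul, psi_norm, one_mul, sum_char]
    by_cases hv : ∀ m a, i < a → a < l → Zder (Sum.elim X Y) N w (Sum.inl m) l a = 0
    · have hV : Van N w i l d X Y := fun m a h1 h2 _ => hv m a h1 h2
      rw [if_pos ((uFun_zero_iff i l _).2 hv), if_pos hV, mul_one]
      simp
    · rw [if_neg (fun h => hv ((uFun_zero_iff i l _).1 h)), norm_zero]
      positivity
  exact le_of_mul_le_mul_left h3 hcard

/-! ### row averaging -/

/-- elementary element -/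
def rowElt (i a : Fin d) (hia : i < a) (v : ZMod p) : UT d p :=
  ⟨1 + Matrix.single i a v, by
    intro r c
    constructor
    · intro h
      rw [Matrix.add_apply, Matrix.one_apply, if_neg h.ne', zero_add, Matrix.single_apply, if_neg]
      rintro ⟨rfl, rfl⟩
      exact absurd (h.trans hia) (lt_irrefl _)
    · rw [Matrix.add_apply, Matrix.one_apply_eq, Matrix.single_apply, if_neg, add_zero]
      rintro ⟨rfl, rfl⟩
      exact absurd hia (lt_irrefl _)⟩

theorem single_RowS (i a : Fin d) (v : ZMod p) : RowS i a (Matrix.single i a v) := by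
  intro r c h
  rw [Matrix.single_apply, if_neg]
  rintro ⟨rfl, rfl⟩
  exact h ⟨le_rfl, le_rfl⟩

theorem rowElt_rel (i a : Fin d) (hia : i < a) (v : ZMod p) (g : UT d p) :
    Rel i a g (rowElt i a hia v * g) v := by
  have e : (rowElt i a hia v * g).mat - g.mat = Matrix.single i a v * g.mat := by
    rw [UT.mat_mul]
    change (1 + Matrix.single i a v) * g.mat - g.mat = _
    rw [add_mul, one_mul]; abel
  refine ⟨?_, ?_⟩
  · rw [e]; exact (single_RowS i a v).mul_right g.isUT
  · rw [e, (single_RowS i a v).entry_right g.isUT, Matrix.single_apply, if_pos ⟨rfl, rfl⟩]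

/-- number of kernel vectors -/
def Zc (w : List ((Fin K ⊕ Fin K) × Bool)) : ℕ :=
  (univ.filter (fun v : Fin K → ZMod p => ∀ m : Fin K,
    kapw (Sum.elim (fun _ => 0) v) 0 w (Sum.inl m) = 0)).card

theorem kapw_add {ι : Type*} [DecidableEq ι] (v v' : ι → ZMod p) (β β' : ZMod p)
    (w : List (ι × Bool)) (m : ι) :
    kapw (v + v') (β + β') w m = kapw v β w m + kapw v' β' w m := by
  induction w generalizing β β' with
  | nil => simp [kapw]
  | cons a w ih =>
    simp only [kapw]
    by_cases ha : a.2
    · simp only [ha, if_true, Pi.add_apply]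
      rw [show β + β' + (v a.1 + v' a.1) = (β + v a.1) + (β' + v' a.1) by ring, ih]
      split_ifs <;> ring
    · simp only [ha, if_false, Pi.add_apply, Bool.false_eq_true]
      rw [show β + β' - (v a.1 + v' a.1) = (β - v a.1) + (β' - v' a.1) by ring, ih]
      split_ifs <;> ring

theorem coset_le (w : List ((Fin K ⊕ Fin K) × Bool)) (t : ZMod p) (ht : t ≠ 0)
    (z : Fin K → ZMod p) :
    (univ.filter (fun v : Fin K → ZMod p => ∀ m : Fin K,
      z m + t * kapw (Sum.elim (fun _ => 0) v) 0 w (Sum.inl m) = 0)).card ≤ Zc (p := p) w := by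
  by_cases hne : (univ.filter (fun v : Fin K → ZMod p => ∀ m : Fin K,
      z m + t * kapw (Sum.elim (fun _ => 0) v) 0 w (Sum.inl m) = 0)).Nonempty
  · obtain ⟨v0, hv0⟩ := hne
    rw [Finset.mem_filter] at hv0
    unfold Zc
    apply Finset.card_le_card_of_injOn (fun v => v - v0)
    · intro v hv
      simp only [Finset.coe_filter, Finset.mem_univ, true_and, Set.mem_ofPred_eq] at hv ⊢
      intro m
      have h1 := hv m
      have h2 := hv0.2 m
      have h3 := kapw_add (Sum.elim (fun _ => 0) (v - v0)) (Sum.elim (fun _ => (0 : ZMod p)) v0) 0 0 w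
        (Sum.inl m)
      have h4 : (Sum.elim (fun _ => 0) (v - v0) : Fin K ⊕ Fin K → ZMod p)
          + (Sum.elim (fun _ => (0 : ZMod p)) v0) = Sum.elim (fun _ => 0) v := by
        funext x; rcases x with x | x <;> simp
      rw [h4, add_zero] at h3
      have h5 : t * kapw (Sum.elim (fun _ => 0) (v - v0)) 0 w (Sum.inl m) = 0 := by
        have : t * kapw (Sum.elim (fun _ => 0) (v - v0)) 0 w (Sum.inl m)
          = (z m + t * kapw (Sum.elim (fun _ => 0) v) 0 w (Sum.inl m))
            - (z m + t * kapw (Sum.elim (fun _ => 0) v0) 0 w (Sum.inl m)) := by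
          rw [h3]; ring
        rw [this, h1, h2, sub_zero]
      exact (mul_eq_zero.1 h5).resolve_left ht
    · intro v _ v' _ h
      simpa using h
  · rw [Finset.not_nonempty_iff_eq_empty] at hne
    rw [hne]; simp

theorem step2_aux (w : List ((Fin K ⊕ Fin K) × Bool)) {N : Matrix (Fin d) (Fin d) (ZMod p)}
    {i l : Fin d} (hil : i < l) {t : ZMod p} (ht : t ≠ 0) (hN : Corner i l t N)
    (X : Fin K → UT d p) (b : ℕ) (hb1 : (i : ℕ) ≤ b) (hb2 : b + 1 < l) :
    (univ.filter (fun Y : Fin K → UT d p => Van N w i l (b+1) X Y)).card * p ^ K ≤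
      (univ.filter (fun Y : Fin K → UT d p => Van N w i l b X Y)).card * Zc (p := p) w := by
  have hbd : b + 1 < d := lt_trans hb2 l.2
  set a : Fin d := ⟨b + 1, hbd⟩ with ha
  have hia : i < a := by rw [Fin.lt_def]; simp [ha]; omega
  have hal : a < l := by rw [Fin.lt_def]; simpa [ha] using hb2
  have hcv : (p ^ K : ℕ) = Fintype.card (Fin K → ZMod p) := by
    rw [Fintype.card_fun, ZMod.card, Fintype.card_fin]
  rw [hcv, Finset.card_filter, Finset.sum_mul]
  -- shift
  let sh : (Fin K → ZMod p) → (Fin K → UT d p) → (Fin K → UT d p) := fun v Y j =>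
    rowElt i a hia (v j) * Y j
  have hshift : ∀ v : Fin K → ZMod p,
      ∑ Y : Fin K → UT d p, (if Van N w i l (b+1) X Y then 1 else 0)
      = ∑ Y : Fin K → UT d p, (if Van N w i l (b+1) X (sh v Y) then 1 else 0) := by
    intro v
    rw [← Equiv.sum_comp (Equiv.mulLeft (fun j => rowElt i a hia (v j) : Fin K → UT d p))]
    rfl
  have hz : ∀ (v : Fin K → ZMod p) (Y : Fin K → UT d p) (m : Fin K) (a' : Fin d), a' ≤ a →
      Zder (Sum.elim X (sh v Y)) N w (Sum.inl m) l a'
        = Zder (Sum.elim X Y) N w (Sum.inl m) l a'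
          + (if a' = a then t * kapw (Sum.elim (fun _ => 0) v) 0 w (Sum.inl m) else 0) := by
    intro v Y m a' ha'
    have := Zder_rel hia hil hN (T := Sum.elim X Y) (T' := Sum.elim X (sh v Y))
      (v := Sum.elim (fun _ => 0) v) (by
        rintro (m | m)
        · exact Rel.refl i a _
        · exact rowElt_rel i a hia (v m) (Y m)) ha' w (Sum.inl m) 1 1 0 (Rel.refl i a 1)
    simp only [UT.mat_one, mul_one] at this
    rw [← this]; ring
  have hsub : ∀ (v : Fin K → ZMod p) (Y : Fin K → UT d p), Van N w i l (b+1) X (sh v Y) →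
      Van N w i l b X Y ∧ ∀ m : Fin K, Zder (Sum.elim X Y) N w (Sum.inl m) l a
        + t * kapw (Sum.elim (fun _ => 0) v) 0 w (Sum.inl m) = 0 := by
    intro v Y hV
    constructor
    · intro m a' h1 h2 h3
      have hle : a' ≤ a := by rw [Fin.le_def]; simp [ha]; omega
      have := hz v Y m a' hle
      rw [if_neg (by intro h; rw [h] at h3; simp [ha] at h3), add_zero] at this
      rw [← this]
      exact hV m a' h1 h2 (by omega)
    · intro m
      have := hz v Y m a le_rfl
      rw [if_pos rfl] at this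
      rw [← this]
      exact hV m a hia hal (by simp [ha])
  calc ∑ Y : Fin K → UT d p, (if Van N w i l (b+1) X Y then 1 else 0) * Fintype.card (Fin K → ZMod p)
      = ∑ v : Fin K → ZMod p, ∑ Y : Fin K → UT d p, (if Van N w i l (b+1) X Y then 1 else 0) := by
        rw [Finset.sum_const, card_univ, smul_eq_mul, ← Finset.sum_mul, mul_comm]
    _ = ∑ v : Fin K → ZMod p, ∑ Y : Fin K → UT d p,
          (if Van N w i l (b+1) X (sh v Y) then 1 else 0) :=
        Finset.sum_congr rfl (fun v _ => hshift v)
    _ = ∑ Y : Fin K → UT d p, ∑ v : Fin K → ZMod p,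
          (if Van N w i l (b+1) X (sh v Y) then 1 else 0) := Finset.sum_comm
    _ ≤ ∑ Y : Fin K → UT d p, (if Van N w i l b X Y then 1 else 0) * Zc (p := p) w := by
        refine Finset.sum_le_sum (fun Y _ => ?_)
        by_cases hY : Van N w i l b X Y
        · rw [if_pos hY, one_mul]
          refine le_trans ?_ (coset_le w t ht (fun m => Zder (Sum.elim X Y) N w (Sum.inl m) l a))
          rw [Finset.card_filter]
          refine Finset.sum_le_sum (fun v _ => ?_)
          by_cases hv : Van N w i l (b+1) X (sh v Y)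
          · rw [if_pos hv, if_pos (hsub v Y hv).2]
          · rw [if_neg hv]; exact Nat.zero_le _
        · rw [if_neg hY, zero_mul]
          refine le_of_eq (Finset.sum_eq_zero (fun v _ => ?_))
          rw [if_neg (fun hv => hY (hsub v Y hv).1)]
    _ = _ := by rw [← Finset.sum_mul, Finset.card_filter]

theorem step2 (w : List ((Fin K ⊕ Fin K) × Bool)) {N : Matrix (Fin d) (Fin d) (ZMod p)}
    {i l : Fin d} (hil : i < l) {t : ZMod p} (ht : t ≠ 0) (hN : Corner i l t N)
    (X : Fin K → UT d p) (g : ℕ) (hg : (i : ℕ) + g < l) :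
    (univ.filter (fun Y : Fin K → UT d p => Van N w i l (i + g) X Y)).card * (p ^ K) ^ g ≤
      Fintype.card (UT d p) ^ K * (Zc (p := p) w) ^ g := by
  induction g with
  | zero =>
    simp only [pow_zero, mul_one]
    refine (Finset.card_le_univ _).trans ?_
    rw [Fintype.card_fun, Fintype.card_fin]
  | succ g ih =>
    have h1 := step2_aux w hil ht hN X (i + g) (by omega) (by omega)
    have h2 := ih (by omega)
    rw [← add_assoc]
    calc (univ.filter (fun Y : Fin K → UT d p => Van N w i l (i + g + 1) X Y)).card * (p ^ K) ^ (g+1)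
        = ((univ.filter (fun Y : Fin K → UT d p => Van N w i l (i + g + 1) X Y)).card * p ^ K)
          * (p ^ K) ^ g := by ring
      _ ≤ ((univ.filter (fun Y : Fin K → UT d p => Van N w i l (i + g) X Y)).card * Zc (p := p) w)
          * (p ^ K) ^ g := Nat.mul_le_mul_right _ h1
      _ = ((univ.filter (fun Y : Fin K → UT d p => Van N w i l (i + g) X Y)).card
          * (p ^ K) ^ g) * Zc (p := p) w := by ring
      _ ≤ (Fintype.card (UT d p) ^ K * (Zc (p := p) w) ^ g) * Zc (p := p) w :=
          Nat.mul_le_mul_right _ h2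
      _ = _ := by ring

/-- **Key estimate.** -/
theorem key (w : List ((Fin K ⊕ Fin K) × Bool)) {N : Matrix (Fin d) (Fin d) (ZMod p)}
    {i l : Fin d} (g : ℕ) (hg : (l : ℕ) = i + g + 1) {t : ZMod p} (ht : t ≠ 0)
    (hN : Corner i l t N) :
    ‖∑ X : Fin K → UT d p, ∑ Y : Fin K → UT d p, psi p ((N * (ev (Sum.elim X Y) w).mat).trace)‖
      * ((p:ℝ) ^ K) ^ g ≤ (Fintype.card (UT d p) : ℝ) ^ (2 * K) * (Zc (p := p) w : ℝ) ^ g := by
  have hil : i < l := by rw [Fin.lt_def]; omega
  have h1 := step1 w N i l
  have h2 : ∀ X : Fin K → UT d p,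
      (∑ Y : Fin K → UT d p, (if Van N w i l d X Y then (1:ℝ) else 0)) * ((p:ℝ) ^ K) ^ g
        ≤ (Fintype.card (UT d p) : ℝ) ^ K * (Zc (p := p) w : ℝ) ^ g := by
    intro X
    have h3 := step2 w hil ht hN X g (by omega)
    have e : ∀ Y : Fin K → UT d p, Van N w i l d X Y ↔ Van N w i l (i + g) X Y := by
      intro Y
      constructor
      · intro h m a h1 h2 _
        exact h m a h1 h2 (by have := a.2; omega)
      · intro h m a h1 h2 _
        refine h m a h1 h2 ?_
        rw [Fin.lt_def] at h2
        omega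
    simp only [e]
    rw [Finset.sum_boole]
    exact_mod_cast h3
  calc _ ≤ (∑ X : Fin K → UT d p, ∑ Y : Fin K → UT d p, (if Van N w i l d X Y then (1:ℝ) else 0))
        * ((p:ℝ) ^ K) ^ g := by
        apply mul_le_mul_of_nonneg_right h1 (by positivity)
    _ = ∑ X : Fin K → UT d p, (∑ Y : Fin K → UT d p, (if Van N w i l d X Y then (1:ℝ) else 0))
        * ((p:ℝ) ^ K) ^ g := by rw [Finset.sum_mul]
    _ ≤ ∑ X : Fin K → UT d p, (Fintype.card (UT d p) : ℝ) ^ K * (Zc (p := p) w : ℝ) ^ g :=
        Finset.sum_le_sum (fun X _ => h2 X)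
    _ = _ := by
        rw [Finset.sum_const, card_univ, Fintype.card_fun, Fintype.card_fin, nsmul_eq_mul]
        push_cast
        ring

end

end Pool.Agent.H773R3
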