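import Pool.Agent.H773R3.Words

set_option autoImplicit false
set_option linter.unusedSectionVars false

namespace Pool.Agent.H773R3

open Finset Matrix
open scoped Classical

noncomputable section

variable {d p : ℕ} [Fact p.Prime]

/-- entries only at distance `≥ w` above the diagonal -/
def LevS (w : ℕ) (M : Matrix (Fin d) (Fin d) (ZMod p)) : Prop :=
  ∀ a b : Fin d, ¬ ((a : ℕ) + w ≤ b) → M a b = 0

theorem LevS.mul_right {w : ℕ} {M N : Matrix (Fin d) (Fin d) (ZMod p)} (hM : LevS w M)
    (hN : IsUT N) : LevS w (M * N) := by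
  intro r c h
  rw [Matrix.mul_apply]
  refine Finset.sum_eq_zero (fun k _ => ?_)
  by_cases h1 : (r : ℕ) + w ≤ k
  · have hc : c < k := by rw [Fin.lt_def]; omega
    rw [(hN k c).1 hc, mul_zero]
  · rw [hM r k h1, zero_mul]

theorem LevS.mul_left {w : ℕ} {M N : Matrix (Fin d) (Fin d) (ZMod p)} (hM : LevS w M)
    (hN : IsUT N) : LevS w (N * M) := by
  intro r c h
  rw [Matrix.mul_apply]
  refine Finset.sum_eq_zero (fun k _ => ?_)
  by_cases h1 : (k : ℕ) + w ≤ c
  · have hc : k < r := by rw [Fin.lt_def]; omega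
    rw [(hN r k).1 hc, zero_mul]
  · rw [hM k c h1, mul_zero]

theorem LevS.add {w : ℕ} {M N : Matrix (Fin d) (Fin d) (ZMod p)} (hM : LevS w M)
    (hN : LevS w N) : LevS w (M + N) := by
  intro r c h
  rw [Matrix.add_apply, hM r c h, hN r c h, add_zero]

theorem LevS.neg {w : ℕ} {M : Matrix (Fin d) (Fin d) (ZMod p)} (hM : LevS w M) :
    LevS w (-M) := by
  intro r c h
  rw [Matrix.neg_apply, hM r c h, neg_zero]

/-- lower central series -/
def Gam (w : ℕ) : Subgroup (UT d p) where
  carrier := {g | LevS w (g.mat - 1)}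
  one_mem' := by
    change LevS w ((1 : UT d p).mat - 1)
    rw [UT.mat_one, sub_self]; intro a b _; rfl
  mul_mem' := by
    intro g h hg hh
    change LevS w ((g * h).mat - 1)
    have : (g * h).mat - 1 = (g.mat - 1) * h.mat + (h.mat - 1) := by
      rw [UT.mat_mul, sub_mul, one_mul]; abel
    rw [this]
    exact (LevS.mul_right hg h.isUT).add hh
  inv_mem' := by
    intro g hg
    change LevS w ((g⁻¹).mat - 1)
    have : (g⁻¹).mat - 1 = -((g⁻¹).mat * (g.mat - 1)) := by
      rw [mul_sub, mul_one, UT.mat_inv, UT.inv_mul_mat]; abel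
    rw [this]
    exact (LevS.mul_left hg (g⁻¹).isUT).neg

theorem mem_Gam {w : ℕ} {g : UT d p} : g ∈ Gam w ↔ LevS w (g.mat - 1) := Iff.rfl

instance (w : ℕ) : (Gam (d := d) (p := p) w).Normal where
  conj_mem := by
    intro g hg h
    rw [mem_Gam] at hg ⊢
    have : (h * g * h⁻¹).mat - 1 = h.mat * (g.mat - 1) * (h⁻¹).mat := by
      rw [mul_sub, mul_one, sub_mul, UT.mat_mul, UT.mat_mul]
      congr 1
      rw [UT.mat_inv, UT.mul_inv_mat]
    rw [this]
    exact (LevS.mul_left hg h.isUT).mul_right (h⁻¹).isUT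

theorem mem_Gam' {w : ℕ} {g : UT d p} (hw : 1 ≤ w) :
    g ∈ Gam w ↔ ∀ a b : Fin d, a < b → (b : ℕ) < a + w → g.mat a b = 0 := by
  rw [mem_Gam]
  constructor
  · intro h a b h1 h2
    have := h a b (by omega)
    rwa [Matrix.sub_apply, Matrix.one_apply, if_neg h1.ne, sub_zero] at this
  · intro h a b h1
    rw [Matrix.sub_apply]
    rcases lt_trichotomy a b with hab | hab | hab
    · rw [h a b hab (by omega), Matrix.one_apply, if_neg hab.ne, sub_zero]
    · rw [hab, UT.diag, Matrix.one_apply_eq, sub_self]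
    · rw [UT.low g hab, Matrix.one_apply, if_neg hab.ne', sub_zero]

theorem Gam_anti {w w' : ℕ} (h : w ≤ w') : Gam (d := d) (p := p) w' ≤ Gam w := by
  intro g hg a b hab
  exact hg a b (by omega)

theorem Gam_one : Gam (d := d) (p := p) 1 = ⊤ := by
  rw [eq_top_iff]
  intro g _
  rw [mem_Gam' le_rfl]
  intro a b h1 h2
  rw [Fin.lt_def] at h1; omega

theorem Gam_top {w : ℕ} (h : d ≤ w) (hw : 1 ≤ w) : Gam (d := d) (p := p) w = ⊥ := by
  rw [eq_bot_iff]
  intro g hg
  rw [Subgroup.mem_bot]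
  apply UT.ext'
  ext a b
  rw [UT.mat_one]
  have := hg a b (by have := b.2; omega)
  rwa [Matrix.sub_apply, sub_eq_zero] at this

variable (d p) in
/-- dual matrices supported at distance `< w` above the diagonal -/
def TT (w : ℕ) : AddSubgroup (Fin d → Fin d → ZMod p) where
  carrier := {τ | ∀ a b : Fin d, ¬ (a < b ∧ (b : ℕ) < a + w) → τ a b = 0}
  zero_mem' := by intro a b _; rfl
  add_mem' := by
    intro τ σ h1 h2 a b h
    rw [Pi.add_apply, Pi.add_apply, h1 a b h, h2 a b h, add_zero]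
  neg_mem' := by
    intro τ h1 a b h
    rw [Pi.neg_apply, Pi.neg_apply, h1 a b h, neg_zero]

theorem mem_TT {w : ℕ} {τ : Fin d → Fin d → ZMod p} :
    τ ∈ TT d p w ↔ ∀ a b : Fin d, ¬ (a < b ∧ (b : ℕ) < a + w) → τ a b = 0 := Iff.rfl

/-- functional as a matrix -/
def Nof (τ : Fin d → Fin d → ZMod p) : Matrix (Fin d) (Fin d) (ZMod p) := Matrix.of fun b a => τ a b

theorem trace_Nof (τ : Fin d → Fin d → ZMod p) (M : Matrix (Fin d) (Fin d) (ZMod p)) :
    (Nof τ * M).trace = ∑ b, ∑ a, τ a b * M a b := by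
  simp [Matrix.trace, Matrix.mul_apply, Nof]

/-- functional on `TT` -/
def tFun (w : ℕ) (M : Matrix (Fin d) (Fin d) (ZMod p)) : TT d p w →+ ZMod p where
  toFun τ := (Nof τ.1 * M).trace
  map_zero' := by simp [trace_Nof]
  map_add' u u' := by
    simp only [trace_Nof]
    rw [← Finset.sum_add_distrib]
    refine Finset.sum_congr rfl (fun m _ => ?_)
    rw [← Finset.sum_add_distrib]
    refine Finset.sum_congr rfl (fun r _ => ?_)
    simp only [AddSubgroup.coe_add, Pi.add_apply]; ring

theorem tFun_zero_iff {w : ℕ} (hw : 1 ≤ w) (g : UT d p) :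
    (∀ τ, tFun w g.mat τ = 0) ↔ g ∈ Gam w := by
  rw [mem_Gam' hw]
  constructor
  · intro h a b h1 h2
    have := h ⟨fun a' b' => if a' = a ∧ b' = b then 1 else 0, by
      intro a' b' h'
      refine if_neg ?_
      rintro ⟨rfl, rfl⟩
      exact h' ⟨h1, h2⟩⟩
    simp only [tFun, AddMonoidHom.coe_mk, ZeroHom.coe_mk, trace_Nof] at this
    rw [Finset.sum_eq_single b, Finset.sum_eq_single a] at this
    · simpa using this
    · intro c _ hb; simp [hb]
    · simp
    · intro c _ hb; simp [hb]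
    · simp
  · intro h τ
    simp only [tFun, AddMonoidHom.coe_mk, ZeroHom.coe_mk, trace_Nof]
    refine Finset.sum_eq_zero (fun b _ => Finset.sum_eq_zero (fun a _ => ?_))
    by_cases hab : a < b ∧ (b : ℕ) < a + w
    · rw [h a b hab.1 hab.2, mul_zero]
    · rw [τ.2 a b hab, zero_mul]

/-- splitting of a unitriangular matrix -/
def splitE (w : ℕ) : UT d p ≃ TT d p w × Gam (d := d) (p := p) w where
  toFun g := (⟨fun a b => if a < b ∧ (b : ℕ) < a + w then g.mat a b else 0, by
      intro a b h; exact if_neg h⟩,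
    ⟨⟨Matrix.of fun a b => if a < b ∧ (b : ℕ) < a + w then 0 else g.mat a b, by
      intro a b
      constructor
      · intro h
        simp only [Matrix.of_apply]
        rw [if_neg (fun h' => absurd (h.trans h'.1) (lt_irrefl _)), UT.low g h]
      · simp only [Matrix.of_apply]
        rw [if_neg (fun h' => absurd h'.1 (lt_irrefl _)), UT.diag]⟩, by
      refine mem_Gam.2 ?_
      intro a b h
      change (if a < b ∧ (b : ℕ) < a + w then 0 else g.mat a b) - (1 : Matrix _ _ _) a b = 0
      rcases lt_trichotomy a b with hab | hab | hab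
      · rw [if_pos ⟨hab, by omega⟩, Matrix.one_apply, if_neg hab.ne, sub_zero]
      · rw [hab, if_neg (fun h' => absurd h'.1 (lt_irrefl _)), UT.diag, Matrix.one_apply_eq, sub_self]
      · rw [if_neg (fun h' => absurd (hab.trans h'.1) (lt_irrefl _)), UT.low g hab,
          Matrix.one_apply, if_neg hab.ne', sub_zero]⟩)
  invFun x := ⟨Matrix.of fun a b => if a < b ∧ (b : ℕ) < a + w then x.1.1 a b else x.2.1.mat a b, by
      intro a b
      constructor
      · intro h
        simp only [Matrix.of_apply]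
        rw [if_neg (fun h' => absurd (h.trans h'.1) (lt_irrefl _)), UT.low _ h]
      · simp only [Matrix.of_apply]
        rw [if_neg (fun h' => absurd h'.1 (lt_irrefl _)), UT.diag]⟩
  left_inv g := by
    apply UT.ext'
    ext a b
    change (if a < b ∧ (b : ℕ) < a + w then (if a < b ∧ (b : ℕ) < a + w then g.mat a b else 0)
      else (if a < b ∧ (b : ℕ) < a + w then 0 else g.mat a b)) = g.mat a b
    split_ifs <;> rfl
  right_inv x := by
    obtain ⟨τ, h⟩ := x
    apply Prod.ext
    · apply Subtype.ext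
      funext a b
      change (if a < b ∧ (b : ℕ) < a + w then
        (if a < b ∧ (b : ℕ) < a + w then τ.1 a b else h.1.mat a b) else 0) = τ.1 a b
      split_ifs with h1
      · rfl
      · exact (τ.2 a b h1).symm
    · apply Subtype.ext
      apply UT.ext'
      ext a b
      change (if a < b ∧ (b : ℕ) < a + w then 0 else
        (if a < b ∧ (b : ℕ) < a + w then τ.1 a b else h.1.mat a b)) = h.1.mat a b
      split_ifs with h1
      · have := h.2 a b (by omega)
        rw [Matrix.sub_apply, Matrix.one_apply, if_neg h1.1.ne, sub_zero] at this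
        exact this.symm
      · rfl

theorem card_split (w : ℕ) :
    (Fintype.card (UT d p) : ℝ) = (Fintype.card (TT d p w) : ℝ) * (Nat.card (Gam (d := d) (p := p) w) : ℝ) := by
  rw [Fintype.card_congr (splitE w), Fintype.card_prod, Nat.card_eq_fintype_card]
  push_cast; rfl

theorem card_TT_le (w : ℕ) : Fintype.card (TT d p (w+1)) ≤ p ^ (d * w) := by
  have h1 : p ^ (d * w) = Fintype.card (Fin d → Fin w → ZMod p) := by
    rw [Fintype.card_fun, Fintype.card_fun, ZMod.card, Fintype.card_fin, Fintype.card_fin, ← pow_mul,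
      mul_comm]
  rw [h1]
  apply Fintype.card_le_of_injective (fun τ : TT d p (w+1) => fun (a : Fin d) (c : Fin w) =>
    if h : (a : ℕ) + 1 + c < d then τ.1 a ⟨a + 1 + c, h⟩ else 0)
  intro τ σ h
  apply Subtype.ext
  funext a b
  by_cases hab : a < b ∧ (b : ℕ) < a + (w + 1)
  · have h1 := hab.1
    rw [Fin.lt_def] at h1
    have h2 := congrFun (congrFun h a) ⟨b - a - 1, by omega⟩
    have h3 : (a : ℕ) + 1 + (b - a - 1) = b := by omega
    simp only [h3, b.2, dif_pos] at h2
    exact h2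
  · rw [τ.2 a b hab, σ.2 a b hab]

theorem ind_eq {w : ℕ} (hw : 1 ≤ w) (g : UT d p) :
    (((Fintype.card (UT d p) : ℝ) * ((if g ∈ Gam w then 1 else 0) / (Nat.card (Gam (d := d) (p := p) w) : ℝ)) : ℝ) : ℂ)
      = ∑ τ : TT d p w, psi p ((Nof τ.1 * g.mat).trace) := by
  have h1 := sum_char (tFun w g.mat)
  have h2 : ∑ τ : TT d p w, psi p (tFun w g.mat τ) = ∑ τ : TT d p w, psi p ((Nof τ.1 * g.mat).trace) := rfl
  rw [← h2, h1]
  have hpos := card_pos' (Gam (d := d) (p := p) w)
  by_cases hg : g ∈ Gam w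
  · rw [if_pos ((tFun_zero_iff hw g).2 hg), if_pos hg, card_split w]
    push_cast
    have : ((Nat.card (Gam (d := d) (p := p) w) : ℕ) : ℂ) ≠ 0 := by exact_mod_cast hpos.ne'
    field_simp
  · rw [if_neg (fun h => hg ((tFun_zero_iff hw g).1 h)), if_neg hg]
    simp

/-- new dual matrices at level `w` -/
def DD (d p : ℕ) [Fact p.Prime] (w : ℕ) : Finset (Fin d → Fin d → ZMod p) :=
  univ.filter (fun τ => τ ∈ TT d p (w+1) ∧ τ ∉ TT d p w)

theorem TT_mono (w : ℕ) : TT d p w ≤ TT d p (w+1) := by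
  intro τ h a b hab
  exact h a b (fun h' => hab ⟨h'.1, by omega⟩)

theorem kap_eq {w : ℕ} (hw : 1 ≤ w) (g : UT d p) :
    (((Fintype.card (UT d p) : ℝ) * kap (Gam (w+1)) (Gam w) g : ℝ) : ℂ)
      = ∑ τ ∈ DD d p w, psi p ((Nof τ * g.mat).trace) := by
  have h1 := ind_eq (w := w+1) (by omega) g
  have h0 := ind_eq (w := w) hw g
  have e : ∀ v : ℕ, ∑ τ : TT d p v, psi p ((Nof τ.1 * g.mat).trace)
      = ∑ τ ∈ univ.filter (fun τ => τ ∈ TT d p v), psi p ((Nof τ * g.mat).trace) := by
    intro v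
    exact (Finset.sum_subtype (univ.filter (fun τ => τ ∈ TT d p v)) (by simp)
      (fun τ => psi p ((Nof τ * g.mat).trace))).symm
  rw [e] at h1 h0
  unfold kap
  rw [mul_sub, Complex.ofReal_sub, h1, h0]
  have hd : DD d p w = (univ.filter (fun τ => τ ∈ TT d p (w+1))) \ (univ.filter (fun τ => τ ∈ TT d p w)) := by
    ext τ
    simp [DD]
  rw [hd, Finset.sum_sdiff_eq_sub]
  intro τ
  simp only [Finset.mem_filter, Finset.mem_univ, true_and]
  exact fun h => TT_mono w h

theorem card_DD_le (w : ℕ) : ((DD d p w).card : ℝ) ≤ (p:ℝ) ^ (d * w) := by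
  have h1 : (DD d p w).card ≤ Fintype.card (TT d p (w+1)) := by
    rw [Fintype.card_subtype]
    apply Finset.card_le_card
    intro τ
    simp only [DD, Finset.mem_filter, Finset.mem_univ, true_and]
    exact fun h => h.1
  have h2 := h1.trans (card_TT_le w)
  exact_mod_cast h2

theorem corner_of_DD {w : ℕ} (hw : 1 ≤ w) {τ : Fin d → Fin d → ZMod p} (h : τ ∈ DD d p w) :
    ∃ i l : Fin d, (l : ℕ) = i + w ∧ τ i l ≠ 0 ∧ Corner i l (τ i l) (Nof τ) := by
  simp only [DD, Finset.mem_filter, Finset.mem_univ, true_and] at h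
  obtain ⟨h1, h2⟩ := h
  rw [mem_TT] at h2
  push Not at h2
  obtain ⟨i, l, h3, h4⟩ := h2
  have h5 : i < l ∧ (l : ℕ) < i + (w+1) := by
    by_contra hc
    exact h4 (h1 i l hc)
  have h6 : (l : ℕ) = i + w := by
    have := h3 h5.1
    omega
  refine ⟨i, l, h6, h4, ?_⟩
  intro b r hb hr
  rw [Fin.le_def] at hb hr
  change τ r b = _
  by_cases hc : b = l ∧ r = i
  · rw [if_pos hc, hc.1, hc.2]
  · rw [if_neg hc]
    apply h1
    rintro ⟨h7, h8⟩
    apply hc
    constructor <;> (apply Fin.ext; omega)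

end

end Pool.Agent.H773R3
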