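import Pool.Agent.H773R3.Key

set_option autoImplicit false
set_option linter.unusedSectionVars false

namespace Pool.Agent.H773R3

open Finset Matrix
open scoped Classical

noncomputable section

variable {p : ℕ} [Fact p.Prime]

/-- real part of the character -/
def cc (x : ZMod p) : ℝ := (psi p x).re

theorem cc_le (x : ZMod p) : cc x ≤ 1 := by
  have := Complex.re_le_norm (psi p x)
  rwa [psi_norm] at this

theorem neg_one_le_cc (x : ZMod p) : -1 ≤ cc x := by
  have := Complex.abs_re_le_norm (psi p x)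
  rw [psi_norm] at this
  exact (abs_le.1 this).1

theorem sum_psi : ∑ x : ZMod p, psi p x = 0 := by
  have := sum_char (p := p) (AddMonoidHom.id (ZMod p))
  simp only [AddMonoidHom.id_apply] at this
  rw [this, if_neg]
  intro h
  exact one_ne_zero (h 1)

theorem sum_cc : ∑ x : ZMod p, cc x = 0 := by
  have := congrArg Complex.re (sum_psi (p := p))
  simpa [cc] using this

/-- local weight -/
def ph (x : ZMod p) : ℝ := Real.exp (-((1 - cc x) / 2))

theorem ph_pos (x : ZMod p) : 0 < ph x := Real.exp_pos _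

theorem exp_neg_le {y : ℝ} (h0 : 0 ≤ y) (h1 : y ≤ 1) : Real.exp (-y) ≤ 1 - y / 2 := by
  have h2 : 1 + y ≤ Real.exp y := by linarith [Real.add_one_le_exp y]
  rw [Real.exp_neg]
  have h3 : (Real.exp y)⁻¹ ≤ (1 + y)⁻¹ := by
    apply inv_anti₀ (by linarith) h2
  refine h3.trans ?_
  rw [inv_le_iff_one_le_mul₀ (by linarith)]
  nlinarith

theorem ph_le (x : ZMod p) : ph x ≤ 1 - (1 - cc x) / 4 := by
  have h1 := cc_le x
  have h2 := neg_one_le_cc x
  have := exp_neg_le (y := (1 - cc x) / 2) (by linarith) (by linarith)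
  unfold ph
  linarith

theorem sum_ph_le : ∑ x : ZMod p, ph x ≤ (p : ℝ) * Real.exp (-(1/4)) := by
  have h1 : ∑ x : ZMod p, ph x ≤ ∑ x : ZMod p, (1 - (1 - cc x) / 4) :=
    Finset.sum_le_sum (fun x _ => ph_le x)
  have h2 : ∑ x : ZMod p, (1 - (1 - cc x) / 4) = (p:ℝ) * (3/4) := by
    have : ∀ x : ZMod p, (1 - (1 - cc x) / 4) = 3/4 + cc x / 4 := by intro x; ring
    simp only [this]
    rw [Finset.sum_add_distrib, ← Finset.sum_div univ (fun x => cc x), sum_cc, Finset.sum_const,
      card_univ, ZMod.card, nsmul_eq_mul]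
    ring
  rw [h2] at h1
  refine h1.trans ?_
  apply mul_le_mul_of_nonneg_left _ (by positivity)
  have := Real.add_one_le_exp (-(1/4) : ℝ)
  linarith

/-- equidistribution of surjective homomorphisms -/
theorem equidist {A B : Type*} [AddCommGroup A] [AddCommGroup B] [Fintype A] [Fintype B]
    (f : A →+ B) (hf : Function.Surjective f) (F : B → ℝ) :
    (Fintype.card B : ℝ) * ∑ a, F (f a) = (Fintype.card A : ℝ) * ∑ b, F b := by
  have h1 : ∀ b : B, ∑ a, F (f a) = ∑ a, F (f a + b) := by
    intro b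
    obtain ⟨a0, rfl⟩ := hf b
    rw [← Equiv.sum_comp (Equiv.addRight a0)]
    simp
  calc (Fintype.card B : ℝ) * ∑ a, F (f a) = ∑ b : B, ∑ a, F (f a) := by
        rw [Finset.sum_const, card_univ, nsmul_eq_mul]
    _ = ∑ b : B, ∑ a, F (f a + b) := Finset.sum_congr rfl (fun b _ => h1 b)
    _ = ∑ a, ∑ b : B, F (f a + b) := Finset.sum_comm
    _ = ∑ a : A, ∑ b : B, F b := by
        refine Finset.sum_congr rfl (fun a _ => ?_)
        exact Equiv.sum_comp (Equiv.addLeft (f a)) F
    _ = _ := by rw [Finset.sum_const, card_univ, nsmul_eq_mul]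

variable {g K : ℕ}

/-- dot product homomorphism -/
def dotHom {r : ℕ} (x : Fin r → Fin g → ZMod p) : (Fin g → ZMod p) →+ (Fin r → ZMod p) where
  toFun v := fun q => x q ⬝ᵥ v
  map_zero' := by funext q; simp
  map_add' v w := by funext q; simp [dotProduct_add]

theorem dotHom_surj {r : ℕ} (x : Fin r → Fin g → ZMod p) (hx : LinearIndependent (ZMod p) x) :
    Function.Surjective (dotHom x) := by
  intro b
  let f0 : Submodule.span (ZMod p) (Set.range x) →ₗ[ZMod p] ZMod p :=
    (Module.Basis.span hx).constr (ZMod p) b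
  obtain ⟨f, hf⟩ := LinearMap.exists_extend f0
  refine ⟨fun k => f (Pi.single k 1), ?_⟩
  funext q
  have h1 : f (x q) = b q := by
    have h2 : (f ∘ₗ (Submodule.span (ZMod p) (Set.range x)).subtype) ((Module.Basis.span hx) q)
        = f0 ((Module.Basis.span hx) q) := by rw [hf]
    have h3 : f0 ((Module.Basis.span hx) q) = b q := Module.Basis.constr_basis _ _ _ _
    rw [h3] at h2
    simp only [LinearMap.comp_apply, Submodule.subtype_apply] at h2
    rw [Module.Basis.span_apply] at h2
    exact h2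
  rw [← h1]
  change x q ⬝ᵥ (fun k => f (Pi.single k 1)) = _
  rw [LinearMap.pi_apply_eq_sum_univ f (x q)]
  simp only [dotProduct, smul_eq_mul]
  refine Finset.sum_congr rfl (fun k _ => ?_)
  congr 2
  funext j
  simp [Pi.single_apply, eq_comm]

theorem exists_li (B : Finset (Fin g → ZMod p)) (r : ℕ) (h : p ^ r < p * B.card) :
    ∃ x : Fin r → (Fin g → ZMod p), LinearIndependent (ZMod p) x ∧ ∀ q, x q ∈ B := by
  obtain ⟨b, hb1, hb2, hb3⟩ := exists_linearIndependent (ZMod p) (B : Set (Fin g → ZMod p))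
  have hbf : b.Finite := Set.toFinite b
  have : Fintype b := hbf.fintype
  have hfr : Module.finrank (ZMod p) (Submodule.span (ZMod p) b) = Fintype.card b := by
    rw [finrank_span_set_eq_card hb3, Set.toFinset_card]
  have hcard : B.card ≤ p ^ Fintype.card b := by
    have h1 : Fintype.card (Submodule.span (ZMod p) b) = p ^ Fintype.card b := by
      rw [Module.card_eq_pow_finrank (K := ZMod p), ZMod.card, hfr]
    rw [← h1]
    have h2 : B.card = Fintype.card (B : Set (Fin g → ZMod p)) := by simp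
    rw [h2]
    apply Fintype.card_le_of_injective (fun y => (⟨y.1, by rw [hb2]; exact Submodule.subset_span y.2⟩ :
      Submodule.span (ZMod p) b))
    intro y y' hy
    simp only [Subtype.mk.injEq] at hy
    exact Subtype.ext hy
  have hp1 : 1 < p := (Fact.out : p.Prime).one_lt
  have hr : r ≤ Fintype.card b := by
    by_contra hcon
    push Not at hcon
    have : p * B.card ≤ p ^ r := by
      calc p * B.card ≤ p * p ^ Fintype.card b := Nat.mul_le_mul_left _ hcard
        _ = p ^ (Fintype.card b + 1) := by ring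
        _ ≤ p ^ r := Nat.pow_le_pow_right hp1.le hcon
    omega
  obtain ⟨e⟩ := Function.Embedding.nonempty_of_card_le (α := Fin r) (β := b) (by simpa using hr)
  refine ⟨fun q => (e q).1, ?_, fun q => hb1 (e q).2⟩
  exact hb3.comp e e.injective

/-- sum of defects -/
def sV (V : Fin K → Fin g → ZMod p) (x : Fin g → ZMod p) : ℝ := ∑ j, (1 - cc (x ⬝ᵥ V j))

theorem sV_nonneg (V : Fin K → Fin g → ZMod p) (x : Fin g → ZMod p) : 0 ≤ sV V x :=
  Finset.sum_nonneg (fun j _ => by linarith [cc_le (x ⬝ᵥ V j)])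

/-- `V` is bad if there are `r` independent directions with small defect -/
def BadV (r : ℕ) (V : Fin K → Fin g → ZMod p) : Prop :=
  ∃ x : Fin r → (Fin g → ZMod p), LinearIndependent (ZMod p) x ∧ ∀ q, sV V (x q) < K / 4

theorem card_bad_le (r : ℕ) :
    ((univ.filter (fun V : Fin K → Fin g → ZMod p => BadV r V)).card : ℝ) ≤
      (p:ℝ) ^ (g * K) * ((p:ℝ) ^ g * Real.exp (-(K/8))) ^ r := by
  have hp0 : (0:ℝ) < p := by exact_mod_cast (Fact.out : p.Prime).pos
  have h1 : ∀ V : Fin K → Fin g → ZMod p, (if BadV r V then (1:ℝ) else 0) ≤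
      ∑ x : Fin r → (Fin g → ZMod p), (if LinearIndependent (ZMod p) x then
        Real.exp (K * r / 8) * ∏ j : Fin K, ∏ q : Fin r, ph (x q ⬝ᵥ V j) else 0) := by
    intro V
    have hnn : ∀ x : Fin r → (Fin g → ZMod p), 0 ≤ (if LinearIndependent (ZMod p) x then
        Real.exp (K * r / 8) * ∏ j : Fin K, ∏ q : Fin r, ph (x q ⬝ᵥ V j) else 0) := by
      intro x
      split_ifs
      · apply mul_nonneg (Real.exp_pos _).le
        exact Finset.prod_nonneg (fun j _ => Finset.prod_nonneg (fun q _ => (ph_pos _).le))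
      · exact le_rfl
    by_cases hV : BadV r V
    · rw [if_pos hV]
      obtain ⟨x, hx, hxq⟩ := hV
      refine le_trans ?_ (Finset.single_le_sum (fun x _ => hnn x) (Finset.mem_univ x))
      rw [if_pos hx, Finset.prod_comm]
      have : ∀ q : Fin r, ∏ j : Fin K, ph (x q ⬝ᵥ V j) = Real.exp (-(sV V (x q) / 2)) := by
        intro q
        unfold ph sV
        rw [← Real.exp_sum]
        congr 1
        rw [Finset.sum_neg_distrib, Finset.sum_div]
      simp only [this]
      rw [← Real.exp_sum, ← Real.exp_add]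
      apply Real.one_le_exp
      have h3 : ∑ q : Fin r, -(sV V (x q) / 2) ≥ ∑ q : Fin r, (-(K/8) : ℝ) :=
        Finset.sum_le_sum (fun q _ => by linarith [hxq q])
      rw [Finset.sum_const, card_univ, Fintype.card_fin, nsmul_eq_mul] at h3
      nlinarith
    · rw [if_neg hV]
      exact Finset.sum_nonneg (fun x _ => hnn x)
  have h2 : ∀ x : Fin r → (Fin g → ZMod p), ∑ V : Fin K → Fin g → ZMod p,
      (if LinearIndependent (ZMod p) x then
        Real.exp (K * r / 8) * ∏ j : Fin K, ∏ q : Fin r, ph (x q ⬝ᵥ V j) else 0)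
      ≤ Real.exp (-(K * r / 8)) * (p:ℝ) ^ (g * K) := by
    intro x
    by_cases hx : LinearIndependent (ZMod p) x
    · simp only [hx, if_true]
      rw [← Finset.mul_sum]
      have e1 : ∑ V : Fin K → Fin g → ZMod p, ∏ j : Fin K, ∏ q : Fin r, ph (x q ⬝ᵥ V j)
          = (∑ v : Fin g → ZMod p, ∏ q : Fin r, ph (x q ⬝ᵥ v)) ^ K := by
        rw [Fintype.sum_pow]
      have e2 : (∑ v : Fin g → ZMod p, ∏ q : Fin r, ph (x q ⬝ᵥ v)) ≤
          (p:ℝ)^g * Real.exp (-(1/4)) ^ r := by
        have e3 := equidist (dotHom x) (dotHom_surj x hx) (fun y => ∏ q : Fin r, ph (y q))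
        have e4 : ∑ y : Fin r → ZMod p, ∏ q : Fin r, ph (y q) = (∑ y : ZMod p, ph y) ^ r := by
          rw [Fintype.sum_pow]
        rw [e4, Fintype.card_fun, Fintype.card_fun, ZMod.card, Fintype.card_fin, Fintype.card_fin] at e3
        push_cast at e3
        have e5 : ∑ v : Fin g → ZMod p, ∏ q : Fin r, ph (x q ⬝ᵥ v)
            = ∑ a : Fin g → ZMod p, ∏ q : Fin r, ph ((dotHom x) a q) := rfl
        rw [e5]
        have hpr : (0:ℝ) < (p:ℝ)^r := by positivity
        have e6 : (p:ℝ)^r * ∑ a : Fin g → ZMod p, ∏ q : Fin r, ph ((dotHom x) a q)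
            ≤ (p:ℝ)^r * ((p:ℝ)^g * Real.exp (-(1/4)) ^ r) := by
          rw [e3]
          have e7 : (∑ y : ZMod p, ph y) ^ r ≤ ((p:ℝ) * Real.exp (-(1/4)))^r := by
            apply pow_le_pow_left₀ (Finset.sum_nonneg (fun y _ => (ph_pos y).le)) sum_ph_le
          calc (p:ℝ)^g * (∑ y : ZMod p, ph y) ^ r ≤ (p:ℝ)^g * ((p:ℝ) * Real.exp (-(1/4)))^r := by
                apply mul_le_mul_of_nonneg_left e7 (by positivity)
            _ = _ := by rw [mul_pow]; ring
        exact le_of_mul_le_mul_left e6 hpr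
      rw [e1]
      calc Real.exp (K * r / 8) * (∑ v : Fin g → ZMod p, ∏ q : Fin r, ph (x q ⬝ᵥ v)) ^ K
          ≤ Real.exp (K * r / 8) * ((p:ℝ)^g * Real.exp (-(1/4)) ^ r) ^ K := by
            apply mul_le_mul_of_nonneg_left _ (Real.exp_pos _).le
            apply pow_le_pow_left₀ _ e2
            exact Finset.sum_nonneg (fun v _ => Finset.prod_nonneg (fun q _ => (ph_pos _).le))
        _ = Real.exp (-(K * r / 8)) * (p:ℝ) ^ (g * K) := by
            rw [mul_pow, ← pow_mul, ← pow_mul, ← Real.exp_nat_mul, mul_comm ((p:ℝ)^(g*K)), ← mul_assoc,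
              ← Real.exp_add]
            congr 2
            push_cast
            ring
    · simp only [hx, if_false]
      rw [Finset.sum_const_zero]
      positivity
  calc ((univ.filter (fun V : Fin K → Fin g → ZMod p => BadV r V)).card : ℝ)
      = ∑ V : Fin K → Fin g → ZMod p, (if BadV r V then (1:ℝ) else 0) := by
        rw [Finset.sum_boole]
    _ ≤ ∑ V : Fin K → Fin g → ZMod p, ∑ x : Fin r → (Fin g → ZMod p),
        (if LinearIndependent (ZMod p) x then
        Real.exp (K * r / 8) * ∏ j : Fin K, ∏ q : Fin r, ph (x q ⬝ᵥ V j) else 0) :=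
        Finset.sum_le_sum (fun V _ => h1 V)
    _ = ∑ x : Fin r → (Fin g → ZMod p), ∑ V : Fin K → Fin g → ZMod p,
        (if LinearIndependent (ZMod p) x then
        Real.exp (K * r / 8) * ∏ j : Fin K, ∏ q : Fin r, ph (x q ⬝ᵥ V j) else 0) :=
        Finset.sum_comm
    _ ≤ ∑ x : Fin r → (Fin g → ZMod p), Real.exp (-(K * r / 8)) * (p:ℝ) ^ (g * K) :=
        Finset.sum_le_sum (fun x _ => h2 x)
    _ = _ := by
        rw [Finset.sum_const, card_univ, Fintype.card_fun, Fintype.card_fun, ZMod.card,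
          Fintype.card_fin, Fintype.card_fin, nsmul_eq_mul]
        push_cast
        rw [mul_pow, ← Real.exp_nat_mul]
        have : (r:ℝ) * -(K/8 : ℝ) = -(K * r / 8) := by ring
        rw [this]; ring

end

end Pool.Agent.H773R3
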