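import Pool.Agent.H773R3.Moment

set_option autoImplicit false
set_option linter.unusedSectionVars false

namespace Pool.Agent.H773R3

open Finset Matrix
open scoped Classical

noncomputable section

variable {p : ℕ} [Fact p.Prime] {g K : ℕ}

theorem two_exp_bound {w : ℝ} (hw : 2 ≤ w) :
    Real.exp (-(0.34 * w)) + Real.exp (-(2 * w)) ≤ Real.exp (-(w / 4)) := by
  have h1 : Real.exp (-(0.34 * w)) = Real.exp (-(w/4)) * Real.exp (-(0.09 * w)) := by
    rw [← Real.exp_add]; congr 1; ring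
  have h2 : Real.exp (-(2 * w)) = Real.exp (-(w/4)) * Real.exp (-(1.75 * w)) := by
    rw [← Real.exp_add]; congr 1; ring
  have h3 : Real.exp (-(0.09 * w)) ≤ 0.85 := by
    have e1 : Real.exp (-(0.09*w)) ≤ Real.exp (-0.18) := by
      apply Real.exp_le_exp.2; linarith
    have e2 : (1:ℝ) + 0.18 ≤ Real.exp 0.18 := by linarith [Real.add_one_le_exp (0.18:ℝ)]
    have e3 : Real.exp (-0.18) ≤ (1.18:ℝ)⁻¹ := by
      rw [Real.exp_neg]; apply inv_anti₀ (by norm_num); linarith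
    have e4 : ((1.18:ℝ))⁻¹ ≤ 0.85 := by norm_num
    linarith
  have h4 : Real.exp (-(1.75 * w)) ≤ 0.1 := by
    have e1 : Real.exp (-(1.75*w)) ≤ Real.exp (-3.5) := by
      apply Real.exp_le_exp.2; linarith
    have e2 : (1:ℝ) + 3.5 + 3.5^2/2 ≤ Real.exp 3.5 := Real.quadratic_le_exp_of_nonneg (by norm_num)
    have e3 : Real.exp (-3.5) ≤ (10:ℝ)⁻¹ := by
      rw [Real.exp_neg]; apply inv_anti₀ (by norm_num); norm_num at e2 ⊢; linarith
    have e4 : ((10:ℝ))⁻¹ ≤ 0.1 := by norm_num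
    linarith
  rw [h1, h2, ← mul_add]
  have := Real.exp_pos (-(w/4))
  nlinarith

/-- partition function -/
def FV (V : Fin K → Fin g → ZMod p) : ℝ :=
  ∑ x : Fin g → ZMod p, Real.exp (-(8 * (g + 1) * sV V x / K))

theorem FV_nonneg (V : Fin K → Fin g → ZMod p) : 0 ≤ FV V :=
  Finset.sum_nonneg (fun _ _ => (Real.exp_pos _).le)

theorem FV_le_triv (V : Fin K → Fin g → ZMod p) : FV V ≤ (p:ℝ)^g := by
  unfold FV
  calc ∑ x : Fin g → ZMod p, Real.exp (-(8 * (g + 1) * sV V x / K))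
      ≤ ∑ x : Fin g → ZMod p, (1:ℝ) := by
        refine Finset.sum_le_sum (fun x _ => ?_)
        rw [Real.exp_le_one_iff, neg_nonpos]
        have := sV_nonneg V x
        positivity
    _ = (p:ℝ)^g := by
        rw [Finset.sum_const, card_univ, Fintype.card_fun, ZMod.card, Fintype.card_fin, nsmul_eq_mul]
        push_cast; ring

theorem FV_le (hK : 0 < K) (hg : 1 ≤ g) (V : Fin K → Fin g → ZMod p)
    (hV : ¬ BadV ((g+1)/2) V) : FV V ≤ (p:ℝ)^g * Real.exp (-((g + 1 : ℝ) / 4)) := by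
  have hp2 : 2 ≤ p := (Fact.out : p.Prime).two_le
  have hp0 : (0:ℝ) < p := by exact_mod_cast (by omega : 0 < p)
  have hKr : (0:ℝ) < K := by exact_mod_cast hK
  set B := univ.filter (fun x : Fin g → ZMod p => sV V x < K / 4) with hB
  set r := (g+1)/2 with hr
  have hcard : p * B.card ≤ p ^ r := by
    by_contra hcon
    push Not at hcon
    obtain ⟨x, hx1, hx2⟩ := exists_li B r hcon
    exact hV ⟨x, hx1, fun q => (Finset.mem_filter.1 (hx2 q)).2⟩
  have h1 : FV V ≤ (B.card : ℝ) + (p:ℝ)^g * Real.exp (-(2 * (g+1 : ℝ))) := by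
    unfold FV
    have h2 : ∀ x : Fin g → ZMod p, Real.exp (-(8 * (g + 1) * sV V x / K)) ≤
        (if sV V x < K/4 then (1:ℝ) else 0) + Real.exp (-(2 * (g+1 : ℝ))) := by
      intro x
      have hs := sV_nonneg V x
      split_ifs with h
      · have : Real.exp (-(8 * (g + 1) * sV V x / K)) ≤ 1 := by
          rw [Real.exp_le_one_iff, neg_nonpos]; positivity
        linarith [Real.exp_pos (-(2 * (g+1 : ℝ)))]
      · rw [zero_add]
        apply Real.exp_le_exp.2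
        push Not at h
        rw [neg_le_neg_iff, le_div_iff₀ hKr]
        have hgp : (0:ℝ) < (g:ℝ) + 1 := by positivity
        nlinarith
    calc _ ≤ ∑ x : Fin g → ZMod p, ((if sV V x < K/4 then (1:ℝ) else 0) + Real.exp (-(2 * (g+1 : ℝ)))) :=
          Finset.sum_le_sum (fun x _ => h2 x)
      _ = _ := by
          rw [Finset.sum_add_distrib, Finset.sum_boole, Finset.sum_const, card_univ, Fintype.card_fun,
            ZMod.card, Fintype.card_fin, nsmul_eq_mul]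
          push_cast; rfl
  have h3 : (B.card : ℝ) ≤ (p:ℝ)^g * Real.exp (-(0.34 * (g+1 : ℝ))) := by
    -- p * B ≤ p^r, p^r * p^(g+1-r) = p^(g+1)
    have hle : r ≤ g + 1 := by omega
    have e1 : (p:ℝ) * B.card ≤ (p:ℝ)^r := by exact_mod_cast hcard
    have e2 : (p:ℝ)^r * (p:ℝ)^(g+1-r) = (p:ℝ)^g * p := by
      rw [← pow_add, ← pow_succ]; congr 1; omega
    have e3 : (2:ℝ)^(g+1-r) ≤ (p:ℝ)^(g+1-r) := by
      apply pow_le_pow_left₀ (by norm_num); exact_mod_cast hp2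
    have e4 : Real.exp (0.34 * (g+1:ℝ)) ≤ (2:ℝ)^(g+1-r) := by
      rw [← Real.rpow_natCast, Real.rpow_def_of_pos (by norm_num)]
      apply Real.exp_le_exp.2
      have hl : (0.68:ℝ) ≤ Real.log 2 := by linarith [Real.log_two_gt_d9]
      have hc : ((g:ℝ)+1)/2 ≤ ((g+1-r : ℕ) : ℝ) := by
        rw [div_le_iff₀ (by norm_num)]
        have : g + 1 ≤ (g+1-r)*2 := by omega
        exact_mod_cast this
      have hgp : (0:ℝ) ≤ (g:ℝ) + 1 := by positivity
      nlinarith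
    have e5 : Real.exp (0.34 * (g+1:ℝ)) * B.card ≤ (p:ℝ)^g := by
      have h5 : (p:ℝ) * (Real.exp (0.34 * (g+1:ℝ)) * B.card) ≤ (p:ℝ) * (p:ℝ)^g := by
        calc (p:ℝ) * (Real.exp (0.34 * (g+1:ℝ)) * B.card) = Real.exp (0.34 * (g+1:ℝ)) * ((p:ℝ) * B.card) := by ring
          _ ≤ (p:ℝ)^(g+1-r) * (p:ℝ)^r := by
              apply mul_le_mul (e4.trans e3) e1 (by positivity) (by positivity)
          _ = (p:ℝ) * (p:ℝ)^g := by rw [mul_comm, e2]; ring
      exact le_of_mul_le_mul_left h5 hp0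
    rw [Real.exp_neg, ← div_eq_mul_inv, le_div_iff₀ (Real.exp_pos _)]
    linarith
  have h4 := two_exp_bound (w := (g:ℝ)+1) (by
    have : (1:ℝ) ≤ g := by exact_mod_cast hg
    linarith)
  have h5 : (0:ℝ) < (p:ℝ)^g := by positivity
  calc FV V ≤ (p:ℝ)^g * Real.exp (-(0.34 * (g+1 : ℝ))) + (p:ℝ)^g * Real.exp (-(2 * (g+1 : ℝ))) := by linarith
    _ = (p:ℝ)^g * (Real.exp (-(0.34 * (g+1 : ℝ))) + Real.exp (-(2 * (g+1 : ℝ)))) := by ring
    _ ≤ _ := mul_le_mul_of_nonneg_left h4 h5.le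

theorem moment_bound (hK : 0 < K) (hg : 1 ≤ g) (L : ℕ) (hL : 16 * K * (g+1) ≤ L) :
    ∑ U : Fin K → Fin g → ZMod p, ∑ V : Fin K → Fin g → ZMod p,
      (∑ i, ∑ j, (2 + 2 * cc (U i ⬝ᵥ V j)))^L ≤
    (4 * (K:ℝ)^2)^L * (p:ℝ)^(2 * (g * K)) *
      (Real.exp (-((g+1) * K / 4)) + ((p:ℝ)^g * Real.exp (-(K/8)))^((g+1)/2)) := by
  have hKr : (0:ℝ) < K := by exact_mod_cast hK
  have h1 : ∀ U V : Fin K → Fin g → ZMod p, (∑ i, ∑ j, (2 + 2 * cc (U i ⬝ᵥ V j)))^L ≤
      (4 * (K:ℝ)^2)^L * ∏ i, Real.exp (-(8 * (g + 1) * sV V (U i) / K)) := by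
    intro U V
    have hS0 : 0 ≤ ∑ i, sV V (U i) := Finset.sum_nonneg (fun i _ => sV_nonneg V _)
    set S := ∑ i, sV V (U i) with hS
    have e1 : ∑ i, ∑ j, (2 + 2 * cc (U i ⬝ᵥ V j)) = 4 * (K:ℝ)^2 - 2 * S := by
      rw [hS]
      simp only [sV]
      rw [Finset.mul_sum]
      simp only [Finset.mul_sum]
      have : (4 * (K:ℝ)^2) = ∑ i : Fin K, ∑ j : Fin K, (4:ℝ) := by
        simp; ring
      rw [this, ← Finset.sum_sub_distrib]
      refine Finset.sum_congr rfl (fun i _ => ?_)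
      rw [← Finset.sum_sub_distrib]
      refine Finset.sum_congr rfl (fun j _ => ?_)
      ring
    have e0 : 0 ≤ ∑ i, ∑ j, (2 + 2 * cc (U i ⬝ᵥ V j)) :=
      Finset.sum_nonneg (fun i _ => Finset.sum_nonneg (fun j _ => by
        linarith [neg_one_le_cc (U i ⬝ᵥ V j)]))
    have e2 : ∑ i, ∑ j, (2 + 2 * cc (U i ⬝ᵥ V j)) ≤ 4 * (K:ℝ)^2 * Real.exp (-(S / (2 * (K:ℝ)^2))) := by
      rw [e1]
      have h3 := Real.add_one_le_exp (-(S / (2 * (K:ℝ)^2)))
      have h4 : 4 * (K:ℝ)^2 - 2 * S = 4 * (K:ℝ)^2 * (-(S / (2 * (K:ℝ)^2)) + 1) := by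
        field_simp; ring
      rw [h4]
      apply mul_le_mul_of_nonneg_left h3 (by positivity)
    calc (∑ i, ∑ j, (2 + 2 * cc (U i ⬝ᵥ V j)))^L
        ≤ (4 * (K:ℝ)^2 * Real.exp (-(S / (2 * (K:ℝ)^2))))^L := pow_le_pow_left₀ e0 e2 L
      _ = (4 * (K:ℝ)^2)^L * Real.exp (-(L * S / (2 * (K:ℝ)^2))) := by
          rw [mul_pow, ← Real.exp_nat_mul]
          congr 2; ring
      _ ≤ (4 * (K:ℝ)^2)^L * Real.exp (-(8 * (g + 1) * S / K)) := by
          apply mul_le_mul_of_nonneg_left _ (by positivity)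
          apply Real.exp_le_exp.2
          rw [neg_le_neg_iff, div_le_div_iff₀ hKr (by positivity)]
          have hL' : (16 * K * (g+1) : ℝ) ≤ L := by exact_mod_cast hL
          have : 0 ≤ S * K := by positivity
          nlinarith
      _ = _ := by
          congr 1
          rw [← Real.exp_sum]
          congr 1
          rw [hS, Finset.mul_sum, Finset.sum_div, Finset.sum_neg_distrib]
  have h2 : ∀ V : Fin K → Fin g → ZMod p,
      ∑ U : Fin K → Fin g → ZMod p, (4 * (K:ℝ)^2)^L * ∏ i, Real.exp (-(8 * (g + 1) * sV V (U i) / K))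
      = (4 * (K:ℝ)^2)^L * (FV V)^K := by
    intro V
    rw [← Finset.mul_sum]
    congr 1
    unfold FV
    rw [Fintype.sum_pow]
  have h3 : ∀ V : Fin K → Fin g → ZMod p, (FV V)^K ≤
      ((p:ℝ)^g * Real.exp (-((g + 1 : ℝ) / 4)))^K
        + (if BadV ((g+1)/2) V then (1:ℝ) else 0) * ((p:ℝ)^g)^K := by
    intro V
    by_cases hV : BadV ((g+1)/2) V
    · rw [if_pos hV, one_mul]
      have := pow_le_pow_left₀ (FV_nonneg V) (FV_le_triv V) K
      have h0 : (0:ℝ) ≤ ((p:ℝ)^g * Real.exp (-((g + 1 : ℝ) / 4)))^K := by positivity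
      linarith
    · rw [if_neg hV, zero_mul, add_zero]
      exact pow_le_pow_left₀ (FV_nonneg V) (FV_le hK hg V hV) K
  rw [Finset.sum_comm]
  calc ∑ V : Fin K → Fin g → ZMod p, ∑ U : Fin K → Fin g → ZMod p,
        (∑ i, ∑ j, (2 + 2 * cc (U i ⬝ᵥ V j)))^L
      ≤ ∑ V : Fin K → Fin g → ZMod p, ∑ U : Fin K → Fin g → ZMod p,
        (4 * (K:ℝ)^2)^L * ∏ i, Real.exp (-(8 * (g + 1) * sV V (U i) / K)) :=
        Finset.sum_le_sum (fun V _ => Finset.sum_le_sum (fun U _ => h1 U V))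
    _ = ∑ V : Fin K → Fin g → ZMod p, (4 * (K:ℝ)^2)^L * (FV V)^K :=
        Finset.sum_congr rfl (fun V _ => h2 V)
    _ ≤ ∑ V : Fin K → Fin g → ZMod p, (4 * (K:ℝ)^2)^L *
        (((p:ℝ)^g * Real.exp (-((g + 1 : ℝ) / 4)))^K
        + (if BadV ((g+1)/2) V then (1:ℝ) else 0) * ((p:ℝ)^g)^K) :=
        Finset.sum_le_sum (fun V _ => mul_le_mul_of_nonneg_left (h3 V) (by positivity))
    _ = (4 * (K:ℝ)^2)^L * ((p:ℝ)^(g*K) * ((p:ℝ)^g * Real.exp (-((g + 1 : ℝ) / 4)))^K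
        + ((univ.filter (fun V : Fin K → Fin g → ZMod p => BadV ((g+1)/2) V)).card : ℝ) * ((p:ℝ)^g)^K) := by
        rw [← Finset.mul_sum, Finset.sum_add_distrib, ← Finset.sum_mul, Finset.sum_boole,
          Finset.sum_const, card_univ, Fintype.card_fun, Fintype.card_fun, ZMod.card,
          Fintype.card_fin, Fintype.card_fin, nsmul_eq_mul]
        push_cast
        rw [← pow_mul]
    _ ≤ (4 * (K:ℝ)^2)^L * ((p:ℝ)^(g*K) * ((p:ℝ)^g * Real.exp (-((g + 1 : ℝ) / 4)))^K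
        + ((p:ℝ) ^ (g * K) * ((p:ℝ) ^ g * Real.exp (-(K/8))) ^ ((g+1)/2)) * ((p:ℝ)^g)^K) := by
        apply mul_le_mul_of_nonneg_left _ (by positivity)
        gcongr
        exact card_bad_le _
    _ = _ := by
        have e : ((p:ℝ)^g * Real.exp (-((g + 1 : ℝ) / 4)))^K
            = (p:ℝ)^(g*K) * Real.exp (-((g+1) * K / 4)) := by
          rw [mul_pow, ← Real.exp_nat_mul, ← pow_mul]
          congr 2
          ring
        rw [e, ← pow_mul, two_mul (g * K), pow_add]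
        ring

end

end Pool.Agent.H773R3
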