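import Pool.Agent.H773R3.UT

set_option autoImplicit false
set_option linter.unusedSectionVars false

namespace Pool.Agent.H773R3

open Finset Matrix

noncomputable section

variable {d p : ℕ} [Fact p.Prime]

/-- supported on rows `≤ i` and columns `≥ a` -/
def RowS (i a : Fin d) (M : Matrix (Fin d) (Fin d) (ZMod p)) : Prop :=
  ∀ r c, ¬ (r ≤ i ∧ a ≤ c) → M r c = 0

theorem RowS.mul_right {i a : Fin d} {M N : Matrix (Fin d) (Fin d) (ZMod p)} (hM : RowS i a M)
    (hN : IsUT N) : RowS i a (M * N) := by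
  intro r c h
  rw [Matrix.mul_apply]
  refine Finset.sum_eq_zero (fun k _ => ?_)
  by_cases h1 : r ≤ i ∧ a ≤ k
  · have hc : c < a := by
      by_contra hc
      exact h ⟨h1.1, not_lt.1 hc⟩
    rw [(hN k c).1 (lt_of_lt_of_le hc h1.2), mul_zero]
  · rw [hM r k h1, zero_mul]

theorem RowS.mul_left {i a : Fin d} {M N : Matrix (Fin d) (Fin d) (ZMod p)} (hM : RowS i a M)
    (hN : IsUT N) : RowS i a (N * M) := by
  intro r c h
  rw [Matrix.mul_apply]
  refine Finset.sum_eq_zero (fun k _ => ?_)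
  by_cases h1 : k ≤ i ∧ a ≤ c
  · have hc : i < r := by
      by_contra hc
      exact h ⟨not_lt.1 hc, h1.2⟩
    rw [(hN r k).1 (lt_of_le_of_lt h1.1 hc), zero_mul]
  · rw [hM k c h1, mul_zero]

theorem RowS.mul_zero' {i a : Fin d} (hia : i < a) {M N : Matrix (Fin d) (Fin d) (ZMod p)}
    (hM : RowS i a M) (hN : RowS i a N) : M * N = 0 := by
  ext r c
  rw [Matrix.mul_apply]
  refine Finset.sum_eq_zero (fun k _ => ?_)
  by_cases h1 : r ≤ i ∧ a ≤ k
  · rw [hN k c (fun h => absurd (lt_of_le_of_lt (le_trans h1.2 h.1) hia) (lt_irrefl _)), mul_zero]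
  · rw [hM r k h1, zero_mul]

theorem RowS.add {i a : Fin d} {M N : Matrix (Fin d) (Fin d) (ZMod p)} (hM : RowS i a M)
    (hN : RowS i a N) : RowS i a (M + N) := by
  intro r c h
  rw [Matrix.add_apply, hM r c h, hN r c h, add_zero]

theorem RowS.neg {i a : Fin d} {M : Matrix (Fin d) (Fin d) (ZMod p)} (hM : RowS i a M) :
    RowS i a (-M) := by
  intro r c h
  rw [Matrix.neg_apply, hM r c h, neg_zero]

theorem RowS.zero {i a : Fin d} : RowS i a (0 : Matrix (Fin d) (Fin d) (ZMod p)) := by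
  intro r c h; rfl

theorem RowS.entry_right {i a : Fin d} {M N : Matrix (Fin d) (Fin d) (ZMod p)} (hM : RowS i a M)
    (hN : IsUT N) : (M * N) i a = M i a := by
  rw [Matrix.mul_apply, Finset.sum_eq_single a]
  · rw [(hN a a).2, mul_one]
  · intro k _ hk
    rcases lt_or_gt_of_ne hk with hk | hk
    · rw [hM i k (fun h => absurd (lt_of_lt_of_le hk h.2) (lt_irrefl _)), zero_mul]
    · rw [(hN k a).1 hk, mul_zero]
  · simp

theorem RowS.entry_left {i a : Fin d} {M N : Matrix (Fin d) (Fin d) (ZMod p)} (hM : RowS i a M)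
    (hN : IsUT N) : (N * M) i a = M i a := by
  rw [Matrix.mul_apply, Finset.sum_eq_single i]
  · rw [(hN i i).2, one_mul]
  · intro k _ hk
    rcases lt_or_gt_of_ne hk with hk | hk
    · rw [(hN i k).1 hk, zero_mul]
    · rw [hM k a (fun h => absurd (lt_of_lt_of_le hk h.1) (lt_irrefl _)), mul_zero]
  · simp

/-- `g'` arises from `g` by changing rows `≤ i`, columns `≥ a`, entry `(i,a)` by `v` -/
def Rel (i a : Fin d) (g g' : UT d p) (v : ZMod p) : Prop :=
  RowS i a (g'.mat - g.mat) ∧ (g'.mat - g.mat) i a = v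

theorem Rel.refl (i a : Fin d) (g : UT d p) : Rel i a g g 0 := by
  refine ⟨?_, ?_⟩
  · rw [sub_self]; exact RowS.zero
  · rw [sub_self]; rfl

theorem Rel.mul {i a : Fin d} (hia : i < a) {g g' h h' : UT d p} {v w : ZMod p}
    (h1 : Rel i a g g' v) (h2 : Rel i a h h' w) : Rel i a (g * h) (g' * h') (v + w) := by
  have e : (g' * h').mat - (g * h).mat
      = (g'.mat - g.mat) * h'.mat + g.mat * (h'.mat - h.mat) := by
    rw [UT.mat_mul, UT.mat_mul, sub_mul, mul_sub]; abel
  refine ⟨?_, ?_⟩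
  · rw [e]; exact (h1.1.mul_right h'.isUT).add (h2.1.mul_left g.isUT)
  · rw [e, Matrix.add_apply, h1.1.entry_right h'.isUT, h2.1.entry_left g.isUT, h1.2, h2.2]

theorem Rel.inv {i a : Fin d} {g g' : UT d p} {v : ZMod p}
    (h1 : Rel i a g g' v) : Rel i a g⁻¹ g'⁻¹ (-v) := by
  have e : (g'⁻¹).mat - (g⁻¹).mat
      = -((g'⁻¹).mat * (g'.mat - g.mat) * (g⁻¹).mat) := by
    rw [mul_sub, sub_mul, UT.mat_inv, UT.mat_inv, UT.inv_mul_mat, one_mul, mul_assoc,
      UT.mul_inv_mat, mul_one]
    abel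
  have r1 : RowS i a ((g'⁻¹).mat * (g'.mat - g.mat)) := h1.1.mul_left (g'⁻¹).isUT
  refine ⟨?_, ?_⟩
  · rw [e]; exact (r1.mul_right (g⁻¹).isUT).neg
  · rw [e, Matrix.neg_apply, r1.entry_right (g⁻¹).isUT, h1.1.entry_left (g'⁻¹).isUT, h1.2]

variable {ι : Type*}

theorem Rel.ev {i a : Fin d} (hia : i < a) {T T' : ι → UT d p} {v : ι → ZMod p}
    (hT : ∀ m, Rel i a (T m) (T' m) (v m)) (w : List (ι × Bool)) :
    ∃ β, Rel i a (ev T w) (ev T' w) β := by
  induction w with
  | nil => exact ⟨0, Rel.refl i a _⟩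
  | cons b w ih =>
    obtain ⟨β, hβ⟩ := ih
    rw [ev_cons, ev_cons]
    by_cases hb : b.2
    · refine ⟨v b.1 + β, Rel.mul hia ?_ hβ⟩
      simp only [lett, hb, if_true]; exact hT b.1
    · refine ⟨-v b.1 + β, Rel.mul hia ?_ hβ⟩
      simp only [lett, hb]; simpa using (hT b.1).inv

/-- condition on the functional -/
def Corner (i l : Fin d) (t : ZMod p) (N : Matrix (Fin d) (Fin d) (ZMod p)) : Prop :=
  ∀ b r, l ≤ b → r ≤ i → N b r = if b = l ∧ r = i then t else 0

theorem corner_shift {i a l : Fin d} (hil : i < l) {t : ZMod p}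
    {N : Matrix (Fin d) (Fin d) (ZMod p)} (hN : Corner i l t N)
    {A A' B B' : UT d p} {α β : ZMod p} (hA : Rel i a A A' α) (hB : Rel i a B B' β)
    {a' : Fin d} (ha' : a' ≤ a) :
    (A'.mat * N * B'.mat) l a' - (A.mat * N * B.mat) l a' = if a' = a then t * β else 0 := by
  have e : A'.mat * N * B'.mat - A.mat * N * B.mat
      = (A'.mat - A.mat) * (N * B'.mat) + (A.mat * N) * (B'.mat - B.mat) := by
    rw [sub_mul, mul_sub]; simp only [mul_assoc]; abel
  have e1 : ((A'.mat - A.mat) * (N * B'.mat)) l a' = 0 := by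
    rw [Matrix.mul_apply]
    refine Finset.sum_eq_zero (fun k _ => ?_)
    rw [hA.1 l k (fun h => absurd (lt_of_lt_of_le hil h.1) (lt_irrefl _)), zero_mul]
  have e2 : ∀ r, r ≤ i → (A.mat * N) l r = if r = i then t else 0 := by
    intro r hr
    rw [Matrix.mul_apply, Finset.sum_eq_single l]
    · rw [UT.diag, one_mul, hN l r le_rfl hr]; simp
    · intro k _ hk
      rcases lt_or_gt_of_ne hk with hk | hk
      · rw [UT.low _ hk, zero_mul]
      · rw [hN k r hk.le hr, if_neg (fun h => absurd h.1 hk.ne'), mul_zero]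
    · simp
  have e3 : ((A.mat * N) * (B'.mat - B.mat)) l a' = if a' = a then t * β else 0 := by
    rw [Matrix.mul_apply, Finset.sum_eq_single i]
    · rw [e2 i le_rfl, if_pos rfl]
      split_ifs with h
      · rw [h, hB.2]
      · rw [hB.1 i a' (fun hh => h (le_antisymm ha' hh.2)), mul_zero]
    · intro k _ hk
      rcases lt_or_gt_of_ne hk with hk | hk
      · rw [e2 k hk.le, if_neg hk.ne, zero_mul]
      · rw [hB.1 k a' (fun hh => absurd (lt_of_lt_of_le hk hh.1) (lt_irrefl _)), mul_zero]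
    · simp
  rw [← Matrix.sub_apply, e, Matrix.add_apply, e1, e3, zero_add]

variable [DecidableEq ι]

/-- linearised derivative -/
def kapw (v : ι → ZMod p) : ZMod p → List (ι × Bool) → ι → ZMod p
  | _, [], _ => 0
  | β, (a :: w), m => (if m = a.1 then (if a.2 then β + v a.1 else -β) else 0)
      + kapw v (if a.2 then β + v a.1 else β - v a.1) w m

theorem Zder_rel {i a l : Fin d} (hia : i < a) (hil : i < l) {t : ZMod p}
    {N : Matrix (Fin d) (Fin d) (ZMod p)} (hN : Corner i l t N)
    {T T' : ι → UT d p} {v : ι → ZMod p} (hT : ∀ m, Rel i a (T m) (T' m) (v m))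
    {a' : Fin d} (ha' : a' ≤ a) (w : List (ι × Bool)) (m : ι) (P P' : UT d p) (β : ZMod p)
    (hP : Rel i a P P' β) :
    Zder T' (N * P'.mat) w m l a' - Zder T (N * P.mat) w m l a'
      = if a' = a then t * kapw v β w m else 0 := by
  induction w generalizing P P' β with
  | nil => simp [Zder, kapw]
  | cons b w ih =>
    obtain ⟨γ, hγ⟩ := Rel.ev hia hT w
    simp only [Zder, Matrix.add_apply, kapw]
    by_cases hb : b.2
    · have hP2 : Rel i a (P * T b.1) (P' * T' b.1) (β + v b.1) := hP.mul hia (hT b.1)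
      have ih' := ih (P * T b.1) (P' * T' b.1) (β + v b.1) hP2
      have l1 : (lett T b).mat = (T b.1).mat := by simp [lett, hb]
      have l2 : (lett T' b).mat = (T' b.1).mat := by simp [lett, hb]
      rw [l1, l2]
      simp only [hb, if_true]
      rw [UT.mat_mul, UT.mat_mul, ← mul_assoc, ← mul_assoc] at ih'
      have hc := corner_shift (a' := a') hil hN hγ hP2 ha'
      by_cases hm : m = b.1
      · simp only [hm, if_true] at ih' ⊢
        have : ((ev T' w).mat * (N * P'.mat) * (T' b.1).mat) l a'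
            - ((ev T w).mat * (N * P.mat) * (T b.1).mat) l a' = if a' = a then t * (β + v b.1) else 0 := by
          rw [← hc]
          simp only [UT.mat_mul, mul_assoc]
        rw [add_sub_add_comm, this, ih']
        split_ifs <;> ring
      · simp only [hm, if_false] at ih' ⊢
        rw [add_sub_add_comm, ih']
        split_ifs <;> simp
    · have hP2 : Rel i a (P * (T b.1)⁻¹) (P' * (T' b.1)⁻¹) (β - v b.1) := by
        have := hP.mul hia (hT b.1).inv
        rwa [← sub_eq_add_neg] at this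
      have ih' := ih (P * (T b.1)⁻¹) (P' * (T' b.1)⁻¹) (β - v b.1) hP2
      have l1 : (lett T b).mat = ((T b.1)⁻¹).mat := by simp [lett, hb]
      have l2 : (lett T' b).mat = ((T' b.1)⁻¹).mat := by simp [lett, hb]
      rw [l1, l2]
      rw [UT.mat_mul, UT.mat_mul, ← mul_assoc, ← mul_assoc] at ih'
      have hA : Rel i a ((T b.1)⁻¹ * ev T w) ((T' b.1)⁻¹ * ev T' w) (- v b.1 + γ) :=
        (hT b.1).inv.mul hia hγ
      have hc := corner_shift (a' := a') hil hN hA hP ha'
      simp only [hb, if_false, Bool.false_eq_true] at ih' ⊢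
      by_cases hm : m = b.1
      · simp only [hm, if_true] at ih' ⊢
        have : (-((T' b.1).mat⁻¹ * (ev T' w).mat * (N * P'.mat))) l a'
            - (-((T b.1).mat⁻¹ * (ev T w).mat * (N * P.mat))) l a' = if a' = a then t * (-β) else 0 := by
          rw [Matrix.neg_apply, Matrix.neg_apply, neg_sub_neg, ← neg_sub]
          simp only [UT.mat_mul, UT.mat_inv, mul_assoc] at hc ⊢
          rw [hc]
          split_ifs <;> simp
        rw [add_sub_add_comm, this, ih']
        split_ifs <;> ring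
      · simp only [hm, if_false] at ih' ⊢
        rw [add_sub_add_comm, ih']
        split_ifs <;> simp

end

end Pool.Agent.H773R3
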