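import Mathlib

set_option autoImplicit false
set_option linter.unusedSectionVars false

namespace Pool.Agent.H773R3

open Finset
open scoped Classical

noncomputable section

variable {G : Type*} [Group G] [Fintype G] {Q : Type*} [Fintype Q]

/-- the step operator -/
def stepOp (h : Q → G) (f : G → ℝ) : G → ℝ := fun x => ∑ q, f (x * h q)

/-- word -/
def wordOf (h : Q → G) {L : ℕ} (s : Fin L → Q) : G := (List.ofFn (fun r => h (s r))).prod

theorem iter_apply (h : Q → G) (L : ℕ) (f : G → ℝ) (x : G) :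
    ((stepOp h)^[L] f) x = ∑ s : Fin L → Q, f (x * wordOf h s) := by
  induction L generalizing x with
  | zero => simp [wordOf]
  | succ n ih =>
    rw [Function.iterate_succ', Function.comp]
    rw [← (Fin.consEquiv (fun _ : Fin (n+1) => Q)).sum_comp, Fintype.sum_prod_type]
    simp only [stepOp] at ih ⊢
    refine Finset.sum_congr rfl (fun q _ => ?_)
    rw [ih]
    refine Finset.sum_congr rfl (fun s _ => ?_)
    congr 1
    rw [mul_assoc]
    congr 1
    simp [wordOf, Fin.consEquiv, List.ofFn_succ]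

theorem stepOp_symm (h : Q → G) (inv : Q → Q) (hinv : Function.Involutive inv)
    (hh : ∀ q, h (inv q) = (h q)⁻¹) (f g : G → ℝ) :
    ∑ x, stepOp h f x * g x = ∑ x, f x * stepOp h g x := by
  simp only [stepOp, Finset.sum_mul, Finset.mul_sum]
  rw [Finset.sum_comm]
  conv_rhs => rw [Finset.sum_comm]
  rw [← Equiv.sum_comp (hinv.toPerm inv) (fun q => ∑ x, f x * g (x * h q))]
  refine Finset.sum_congr rfl (fun q _ => ?_)
  rw [← Equiv.sum_comp (Equiv.mulRight (h q)) (fun x => f x * g (x * h ((hinv.toPerm inv) q)))]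
  refine Finset.sum_congr rfl (fun x _ => ?_)
  simp [hh]

theorem iter_symm (h : Q → G) (inv : Q → Q) (hinv : Function.Involutive inv)
    (hh : ∀ q, h (inv q) = (h q)⁻¹) (L : ℕ) (f g : G → ℝ) :
    ∑ x, ((stepOp h)^[L] f) x * g x = ∑ x, f x * ((stepOp h)^[L] g) x := by
  induction L generalizing f g with
  | zero => simp
  | succ n ih =>
    rw [Function.iterate_succ', Function.comp]
    rw [stepOp_symm h inv hinv hh, ih, ← Function.comp_apply (f := (stepOp h)^[n]),
      ← Function.iterate_succ, Function.iterate_succ']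

/-- functions that are `N1`-invariant and have zero `N0` averages -/
def InV (N1 N0 : Subgroup G) (f : G → ℝ) : Prop :=
  (∀ x, ∀ y ∈ N1, f (x * y) = f x) ∧ (∀ x, ∑ y : G, (if y ∈ N0 then f (x * y) else 0) = 0)

theorem InV.stepOp {N1 N0 : Subgroup G} [N1.Normal] [N0.Normal] {f : G → ℝ} (hf : InV N1 N0 f)
    (h : Q → G) : InV N1 N0 (stepOp h f) := by
  constructor
  · intro x y hy
    simp only [Pool.Agent.H773R3.stepOp]
    refine Finset.sum_congr rfl (fun q _ => ?_)
    have : x * y * h q = (x * h q) * ((h q)⁻¹ * y * h q) := by group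
    rw [this]
    apply hf.1
    have := Subgroup.Normal.conj_mem (H := N1) inferInstance y hy (h q)⁻¹
    simpa using this
  · intro x
    simp only [Pool.Agent.H773R3.stepOp]
    have h1 : ∀ y : G, (if y ∈ N0 then ∑ q, f (x * y * h q) else 0)
        = ∑ q, (if y ∈ N0 then f (x * y * h q) else 0) := by
      intro y; split_ifs <;> simp
    simp only [h1]
    rw [Finset.sum_comm]
    refine Finset.sum_eq_zero (fun q _ => ?_)
    have key := hf.2 (x * h q)
    refine Eq.trans ?_ key
    rw [← Equiv.sum_comp (MulAut.conj (h q)).toEquiv (fun y => if y ∈ N0 then f (x * y * h q) else 0)]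
    refine Finset.sum_congr rfl (fun y _ => ?_)
    have hm : ((MulAut.conj (h q)).toEquiv y ∈ N0) ↔ y ∈ N0 := by
      constructor
      · intro hy
        have := Subgroup.Normal.conj_mem (H := N0) inferInstance _ hy (h q)⁻¹
        simpa [MulAut.conj_apply, mul_assoc] using this
      · intro hy
        have := Subgroup.Normal.conj_mem (H := N0) inferInstance _ hy (h q)
        simpa [MulAut.conj_apply] using this
    by_cases hy : y ∈ N0
    · rw [if_pos hy, if_pos (hm.2 hy)]
      congr 1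
      simp [MulAut.conj_apply, mul_assoc]
    · rw [if_neg hy, if_neg (fun hc => hy (hm.1 hc))]

theorem InV.iter {N1 N0 : Subgroup G} [N1.Normal] [N0.Normal] {f : G → ℝ} (hf : InV N1 N0 f)
    (h : Q → G) (L : ℕ) : InV N1 N0 ((Pool.Agent.H773R3.stepOp h)^[L] f) := by
  induction L with
  | zero => simpa using hf
  | succ n ih =>
    rw [Function.iterate_succ', Function.comp]
    exact ih.stepOp h

/-- central kernel function -/
def kap (N1 N0 : Subgroup G) (g : G) : ℝ :=
  (if g ∈ N1 then 1 else 0) / (Nat.card N1 : ℝ) - (if g ∈ N0 then 1 else 0) / (Nat.card N0 : ℝ)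

theorem card_eq_sum (N : Subgroup G) : (Nat.card N : ℝ) = ∑ y : G, (if y ∈ N then (1:ℝ) else 0) := by
  rw [Finset.sum_boole, Nat.card_eq_fintype_card, Fintype.card_subtype]

theorem card_pos' (N : Subgroup G) : (0:ℝ) < (Nat.card N : ℝ) := by
  have : 0 < Nat.card N := Nat.card_pos
  exact_mod_cast this

theorem reproduce {N1 N0 : Subgroup G} {f : G → ℝ} (hf : InV N1 N0 f) (x : G) :
    ∑ y, kap N1 N0 (x⁻¹ * y) * f y = f x := by
  rw [← Equiv.sum_comp (Equiv.mulLeft x) (fun y => kap N1 N0 (x⁻¹ * y) * f y)]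
  simp only [Equiv.coe_mulLeft, inv_mul_cancel_left, kap, sub_mul]
  rw [Finset.sum_sub_distrib]
  have h2 : ∑ y : G, (if y ∈ N0 then (1:ℝ) else 0) / (Nat.card N0 : ℝ) * f (x * y) = 0 := by
    have : ∀ y : G, (if y ∈ N0 then (1:ℝ) else 0) / (Nat.card N0 : ℝ) * f (x * y)
        = (1 / (Nat.card N0 : ℝ)) * (if y ∈ N0 then f (x * y) else 0) := by
      intro y; split_ifs <;> simp
    simp only [this]
    rw [← Finset.mul_sum, hf.2 x, mul_zero]
  have h1 : ∑ y : G, (if y ∈ N1 then (1:ℝ) else 0) / (Nat.card N1 : ℝ) * f (x * y) = f x := by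
    have : ∀ y : G, (if y ∈ N1 then (1:ℝ) else 0) / (Nat.card N1 : ℝ) * f (x * y)
        = (f x / (Nat.card N1 : ℝ)) * (if y ∈ N1 then 1 else 0) := by
      intro y
      split_ifs with hy
      · rw [hf.1 x y hy]; ring
      · simp
    simp only [this]
    rw [← Finset.mul_sum, ← card_eq_sum]
    field_simp [(card_pos' N1).ne']
  rw [h1, h2, sub_zero]

theorem kap_InV {N1 N0 : Subgroup G} (hle : N1 ≤ N0) (x : G) :
    InV N1 N0 (fun y => kap N1 N0 (x⁻¹ * y)) := by
  constructor
  · intro z y hy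
    simp only [kap, ← mul_assoc]
    have h1 : (x⁻¹ * z * y ∈ N1) ↔ x⁻¹ * z ∈ N1 := by
      rw [mul_mem_cancel_right hy]
    have h0 : (x⁻¹ * z * y ∈ N0) ↔ x⁻¹ * z ∈ N0 := by
      rw [mul_mem_cancel_right (hle hy)]
    simp only [h1, h0]
  · intro z
    set c := x⁻¹ * z with hc
    have hcy : ∀ y, x⁻¹ * (z * y) = c * y := by intro y; rw [hc, mul_assoc]
    simp only [hcy]
    by_cases hcm : c ∈ N0
    · have h0 : ∀ y : G, (if y ∈ N0 then kap N1 N0 (c * y) else 0) =
          (if c * y ∈ N1 then (1:ℝ) else 0) / (Nat.card N1 : ℝ)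
            - (if c * y ∈ N0 then 1 else 0) / (Nat.card N0 : ℝ) := by
        intro y
        by_cases hy : y ∈ N0
        · rw [if_pos hy, kap]
        · have h1 : c * y ∉ N0 := by
            rw [mul_mem_cancel_left hcm]; exact hy
          have h2 : c * y ∉ N1 := fun h => h1 (hle h)
          rw [if_neg hy, if_neg h1, if_neg h2]; simp
      simp only [h0]
      rw [Finset.sum_sub_distrib, ← Finset.sum_div, ← Finset.sum_div]
      rw [show (∑ y, if c * y ∈ N1 then (1:ℝ) else 0) = ∑ y, if y ∈ N1 then (1:ℝ) else 0 from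
        Equiv.sum_comp (Equiv.mulLeft c) (fun y => if y ∈ N1 then (1:ℝ) else 0),
        show (∑ y, if c * y ∈ N0 then (1:ℝ) else 0) = ∑ y, if y ∈ N0 then (1:ℝ) else 0 from
        Equiv.sum_comp (Equiv.mulLeft c) (fun y => if y ∈ N0 then (1:ℝ) else 0)]
      rw [← card_eq_sum, ← card_eq_sum, div_self (card_pos' N1).ne', div_self (card_pos' N0).ne',
        sub_self]
    · refine Finset.sum_eq_zero (fun y _ => ?_)
      by_cases hy : y ∈ N0
      · have h1 : c * y ∉ N0 := by
          rw [mul_mem_cancel_right hy]; exact hcm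
        have h2 : c * y ∉ N1 := fun h => h1 (hle h)
        rw [if_pos hy, kap, if_neg h1, if_neg h2]; simp
      · rw [if_neg hy]

/-- trace of the `L`-th power of the step operator on the space `V` -/
def Tr (N1 N0 : Subgroup G) (h : Q → G) (L : ℕ) : ℝ :=
  (Fintype.card G : ℝ) * ∑ s : Fin L → Q, kap N1 N0 (wordOf h s)

theorem norm_iter_le {N1 N0 : Subgroup G} [N1.Normal] [N0.Normal] (hle : N1 ≤ N0) (h : Q → G)
    (inv : Q → Q) (hinv : Function.Involutive inv) (hh : ∀ q, h (inv q) = (h q)⁻¹)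
    {f : G → ℝ} (hf : InV N1 N0 f) (L : ℕ) :
    ∑ x, ((stepOp h)^[L] f x)^2 ≤ (∑ x, f x ^ 2) * Tr N1 N0 h (L + L) := by
  have h1 : ∀ x, ((stepOp h)^[L] f x)^2 ≤
      (∑ y, f y ^ 2) * (((stepOp h)^[L+L] (fun y => kap N1 N0 (x⁻¹ * y))) x) := by
    intro x
    set k : G → ℝ := fun y => kap N1 N0 (x⁻¹ * y) with hk
    have hkV : InV N1 N0 k := kap_InV hle x
    have e1 : (stepOp h)^[L] f x = ∑ y, f y * ((stepOp h)^[L] k) y := by
      rw [← reproduce (hf.iter h L) x, ← iter_symm h inv hinv hh]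
      refine Finset.sum_congr rfl (fun y _ => ?_)
      rw [mul_comm]
    have e2 : ((stepOp h)^[L+L] k) x = ∑ y, ((stepOp h)^[L] k y)^2 := by
      rw [← reproduce (hkV.iter h (L+L)) x, Function.iterate_add_apply,
        ← iter_symm h inv hinv hh]
      refine Finset.sum_congr rfl (fun y _ => ?_)
      rw [sq]
    rw [e1, e2]
    exact Finset.sum_mul_sq_le_sq_mul_sq _ _ _
  calc ∑ x, ((stepOp h)^[L] f x)^2
      ≤ ∑ x, (∑ y, f y ^ 2) * (((stepOp h)^[L+L] (fun y => kap N1 N0 (x⁻¹ * y))) x) :=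
        Finset.sum_le_sum (fun x _ => h1 x)
    _ = (∑ x, f x ^ 2) * Tr N1 N0 h (L + L) := by
        rw [← Finset.mul_sum]
        congr 1
        simp only [iter_apply, inv_mul_cancel_left, Tr]
        rw [Finset.sum_const, card_univ, nsmul_eq_mul]

theorem Tr_nonneg {N1 N0 : Subgroup G} [N1.Normal] [N0.Normal] (hle : N1 ≤ N0) (h : Q → G)
    (inv : Q → Q) (hinv : Function.Involutive inv) (hh : ∀ q, h (inv q) = (h q)⁻¹) (L : ℕ) :
    0 ≤ Tr N1 N0 h (L + L) := by
  have e2 : ∀ x : G, ((stepOp h)^[L+L] (fun y => kap N1 N0 (x⁻¹ * y))) x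
      = ∑ y, ((stepOp h)^[L] (fun y => kap N1 N0 (x⁻¹ * y)) y)^2 := by
    intro x
    rw [← reproduce ((kap_InV hle x).iter h (L+L)) x, Function.iterate_add_apply,
        ← iter_symm h inv hinv hh]
    refine Finset.sum_congr rfl (fun y _ => ?_)
    rw [sq]
  have : Tr N1 N0 h (L+L) = ∑ x : G, ((stepOp h)^[L+L] (fun y => kap N1 N0 (x⁻¹ * y))) x := by
    simp only [iter_apply, inv_mul_cancel_left, Tr]
    rw [Finset.sum_const, card_univ, nsmul_eq_mul]
  rw [this]
  refine Finset.sum_nonneg (fun x _ => ?_)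
  rw [e2]
  positivity

theorem pow_le_trace {N1 N0 : Subgroup G} [N1.Normal] [N0.Normal] (hle : N1 ≤ N0) (h : Q → G)
    (inv : Q → Q) (hinv : Function.Involutive inv) (hh : ∀ q, h (inv q) = (h q)⁻¹)
    {f : G → ℝ} (hf : InV N1 N0 f) (m : ℕ) :
    |∑ x, f x * stepOp h f x| ^ (2 ^ (m+1)) ≤
      (∑ x, f x ^ 2) ^ (2^(m+1)) * Tr N1 N0 h (2^(m+1)) := by
  set S := ∑ x, f x ^ 2 with hS
  have hS0 : 0 ≤ S := by rw [hS]; positivity
  set a : ℕ → ℝ := fun m => ∑ x, f x * ((stepOp h)^[2^m] f) x with ha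
  have hstep : ∀ m, |a m| ^ 2 ≤ S * |a (m+1)| := by
    intro m
    have e : a (m+1) = ∑ x, ((stepOp h)^[2^m] f x)^2 := by
      simp only [ha]
      rw [pow_succ, mul_two, Function.iterate_add_apply, ← iter_symm h inv hinv hh]
      refine Finset.sum_congr rfl (fun y _ => ?_)
      rw [sq]
    rw [sq_abs, e, abs_of_nonneg (by positivity)]
    exact Finset.sum_mul_sq_le_sq_mul_sq _ _ _
  have hind : ∀ m, |a 0| ^ (2^m) ≤ S ^ (2^m - 1) * |a m| := by
    intro m
    induction m with
    | zero => simp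
    | succ n ih =>
      have h1 : |a 0| ^ (2^(n+1)) = (|a 0| ^ (2^n))^2 := by rw [← pow_mul, pow_succ]
      rw [h1]
      calc (|a 0| ^ (2^n))^2 ≤ (S ^ (2^n - 1) * |a n|)^2 := by
            apply pow_le_pow_left₀ (by positivity) ih
        _ = (S^(2^n-1))^2 * |a n|^2 := by ring
        _ ≤ (S^(2^n-1))^2 * (S * |a (n+1)|) := by
            apply mul_le_mul_of_nonneg_left (hstep n) (by positivity)
        _ = S ^ (2^(n+1) - 1) * |a (n+1)| := by
            rw [← mul_assoc, ← pow_mul, ← pow_succ]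
            congr 2
            have : 0 < 2^n := by positivity
            rw [pow_succ]; omega
  have h0 : a 0 = ∑ x, f x * stepOp h f x := by simp [ha]
  rw [← h0]
  have e : a (m+1) = ∑ x, ((stepOp h)^[2^m] f x)^2 := by
      simp only [ha]
      rw [pow_succ, mul_two, Function.iterate_add_apply, ← iter_symm h inv hinv hh]
      refine Finset.sum_congr rfl (fun y _ => ?_)
      rw [sq]
  have e' : |a (m+1)| ≤ S * Tr N1 N0 h (2^(m+1)) := by
    rw [e, abs_of_nonneg (by positivity)]
    have := norm_iter_le hle h inv hinv hh hf (2^m)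
    have h2 : 2^m + 2^m = 2^(m+1) := by rw [pow_succ]; ring
    rw [h2] at this
    exact this
  calc |a 0| ^ (2^(m+1)) ≤ S ^ (2^(m+1) - 1) * |a (m+1)| := hind (m+1)
    _ ≤ S ^ (2^(m+1) - 1) * (S * Tr N1 N0 h (2^(m+1))) := by
        apply mul_le_mul_of_nonneg_left e' (by positivity)
    _ = S ^ (2^(m+1)) * Tr N1 N0 h (2^(m+1)) := by
        rw [← mul_assoc, ← pow_succ]
        congr 2
        have : 0 < 2^(m+1) := by positivity
        omega

end

end Pool.Agent.H773R3
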