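import Pool.Agent.H773R3.Final

set_option autoImplicit false
set_option linter.unusedSectionVars false

namespace Pool.Agent.H773R3

open Finset Matrix
open scoped Classical

noncomputable section

variable {d p : ℕ} [Fact p.Prime] {k : ℕ}

theorem card_H (H : Finset (Matrix (Fin d) (Fin d) (ZMod p))) (hH : ∀ M, M ∈ H ↔ IsUT M) :
    H.card = Fintype.card (UT d p) := by
  have : H = (univ : Finset (UT d p)).map ⟨fun g => g.mat, fun g h e => UT.ext' e⟩ := by
    ext M
    rw [hH, Finset.mem_map]
    constructor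
    · intro h
      exact ⟨⟨M, h⟩, mem_univ _, rfl⟩
    · rintro ⟨g, _, rfl⟩
      exact g.isUT
  rw [this, Finset.card_map, card_univ]

theorem card_good_le (H : Finset (Matrix (Fin d) (Fin d) (ZMod p))) (hH : ∀ M, M ∈ H ↔ IsUT M)
    (ε : ℝ) (F : Finset (Fin k → Matrix (Fin d) (Fin d) (ZMod p)))
    (hF : ∀ Z : Fin k → Matrix (Fin d) (Fin d) (ZMod p), (∀ i, Z i ∈ H) →
      (∀ S : Finset (Matrix (Fin d) (Fin d) (ZMod p)), S ⊆ H → 2 * S.card ≤ H.card →
        ε * (k:ℝ) * (S.card : ℝ) ≤
          ((((S ×ˢ (Finset.univ : Finset (Fin k))).filter (fun x => x.1 * Z x.2 ∉ S)).card : ℕ) : ℝ)) →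
      Z ∈ F) :
    (univ.filter (fun Z : Fin k → UT d p => Exp ε Z)).card ≤ F.card := by
  apply Finset.card_le_card_of_injOn (fun Z i => (Z i).mat)
  · intro Z hZ
    have hZ' : Exp ε Z := (Finset.mem_filter.1 hZ).2
    show (fun i => (Z i).mat) ∈ F
    apply hF
    · intro i; rw [hH]; exact (Z i).isUT
    · intro S hS hS2
      set S' : Finset (UT d p) := univ.filter (fun g => g.mat ∈ S) with hS'
      have hmem : ∀ g : UT d p, g ∈ S' ↔ g.mat ∈ S := by intro g; simp [hS']
      have hSmap : S = S'.map ⟨fun g => g.mat, fun g h e => UT.ext' e⟩ := by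
        ext M
        rw [Finset.mem_map]
        constructor
        · intro h
          exact ⟨⟨M, (hH M).1 (hS h)⟩, (hmem _).2 h, rfl⟩
        · rintro ⟨g, hg, rfl⟩
          exact (hmem g).1 hg
      have hcard : S.card = S'.card := by rw [hSmap, Finset.card_map]
      have h1 := hZ' S' (by rw [← hcard, ← card_H H hH]; exact hS2)
      rw [hcard]
      refine h1.trans ?_
      have h2 : ((S' ×ˢ (Finset.univ : Finset (Fin k))).filter (fun x => x.1 * Z x.2 ∉ S')).card ≤
          ((S ×ˢ (Finset.univ : Finset (Fin k))).filter (fun x => x.1 * (Z x.2).mat ∉ S)).card := by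
        apply Finset.card_le_card_of_injOn (fun x => (x.1.mat, x.2))
        · intro x hx
          have hx' := Finset.mem_filter.1 hx
          rw [Finset.mem_product] at hx'
          rw [Finset.mem_coe, Finset.mem_filter, Finset.mem_product]
          refine ⟨⟨(hmem _).1 hx'.1.1, mem_univ _⟩, ?_⟩
          intro hc
          exact hx'.2 ((hmem _).2 hc)
        · intro x _ y _ hxy
          simp only [Prod.mk.injEq] at hxy
          exact Prod.ext (UT.ext' hxy.1) hxy.2
      exact_mod_cast h2
  · intro Z _ Z' _ h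
    funext i
    exact UT.ext' (congrFun h i)

end

end Pool.Agent.H773R3
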