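import Mathlib

set_option autoImplicit false
set_option linter.unusedSectionVars false

namespace Pool.Agent.H773R3

open Finset Matrix

noncomputable section

variable {d p : ℕ} [Fact p.Prime]

/-- upper unitriangular matrices -/
def IsUT (M : Matrix (Fin d) (Fin d) (ZMod p)) : Prop := ∀ i j, (j < i → M i j = 0) ∧ M i i = 1

theorem IsUT.one : IsUT (1 : Matrix (Fin d) (Fin d) (ZMod p)) := by
  intro i j
  refine ⟨fun h => by rw [Matrix.one_apply, if_neg h.ne'], by simp⟩

theorem IsUT.mul {M N : Matrix (Fin d) (Fin d) (ZMod p)} (hM : IsUT M) (hN : IsUT N) :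
    IsUT (M * N) := by
  intro i j
  constructor
  · intro h
    rw [Matrix.mul_apply]
    refine Finset.sum_eq_zero (fun k _ => ?_)
    rcases lt_or_ge k i with hk | hk
    · rw [(hM i k).1 hk, zero_mul]
    · rw [(hN k j).1 (lt_of_lt_of_le h hk), mul_zero]
  · rw [Matrix.mul_apply, Finset.sum_eq_single i]
    · rw [(hM i i).2, (hN i i).2, mul_one]
    · intro k _ hk
      rcases lt_or_gt_of_ne hk with hk | hk
      · rw [(hM i k).1 hk, zero_mul]
      · rw [(hN k i).1 hk, mul_zero]
    · simp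

theorem IsUT.det {M : Matrix (Fin d) (Fin d) (ZMod p)} (hM : IsUT M) : M.det = 1 := by
  have : M.BlockTriangular id := by
    intro i j h
    exact (hM i j).1 h
  rw [Matrix.det_of_isUpperTriangular this]
  exact Finset.prod_eq_one (fun i _ => (hM i i).2)

theorem IsUT.mul_inv {M : Matrix (Fin d) (Fin d) (ZMod p)} (hM : IsUT M) : M * M⁻¹ = 1 := by
  apply Matrix.mul_nonsing_inv
  rw [hM.det]; exact isUnit_one

theorem IsUT.inv_mul {M : Matrix (Fin d) (Fin d) (ZMod p)} (hM : IsUT M) : M⁻¹ * M = 1 := by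
  apply Matrix.nonsing_inv_mul
  rw [hM.det]; exact isUnit_one

theorem IsUT.inv {M : Matrix (Fin d) (Fin d) (ZMod p)} (hM : IsUT M) : IsUT M⁻¹ := by
  have hb : M.BlockTriangular id := by
    intro i j h
    exact (hM i j).1 h
  have : Invertible M := Matrix.invertibleOfIsUnitDet M (by rw [hM.det]; exact isUnit_one)
  have hb' : (M⁻¹).BlockTriangular id := Matrix.blockTriangular_inv_of_blockTriangular hb
  intro i j
  refine ⟨fun h => hb' h, ?_⟩
  have h1 := congrFun (congrFun hM.mul_inv i) i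
  rw [Matrix.mul_apply, Matrix.one_apply_eq, Finset.sum_eq_single i] at h1
  · rwa [(hM i i).2, one_mul] at h1
  · intro k _ hk
    rcases lt_or_gt_of_ne hk with hk | hk
    · rw [(hM i k).1 hk, zero_mul]
    · rw [hb' hk, mul_zero]
  · simp

variable (d p) in
/-- the group of upper unitriangular matrices -/
def UT : Type := {M : Matrix (Fin d) (Fin d) (ZMod p) // IsUT M}

/-- underlying matrix -/
def UT.mat (g : UT d p) : Matrix (Fin d) (Fin d) (ZMod p) := g.1

theorem UT.ext' {g h : UT d p} (H : g.mat = h.mat) : g = h := Subtype.ext H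

theorem UT.isUT (g : UT d p) : IsUT g.mat := g.2

instance : Group (UT d p) where
  mul g h := ⟨g.1 * h.1, g.2.mul h.2⟩
  one := ⟨1, IsUT.one⟩
  inv g := ⟨g.1⁻¹, g.2.inv⟩
  mul_assoc a b c := Subtype.ext (Matrix.mul_assoc _ _ _)
  one_mul a := Subtype.ext (Matrix.one_mul _)
  mul_one a := Subtype.ext (Matrix.mul_one _)
  inv_mul_cancel a := Subtype.ext a.2.inv_mul

@[simp] theorem UT.mat_mul (g h : UT d p) : (g * h).mat = g.mat * h.mat := rfl
@[simp] theorem UT.mat_one : (1 : UT d p).mat = 1 := rfl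
@[simp] theorem UT.mat_inv (g : UT d p) : (g⁻¹).mat = (g.mat)⁻¹ := rfl

theorem UT.diag (g : UT d p) (i : Fin d) : g.mat i i = 1 := (g.isUT i i).2
theorem UT.low (g : UT d p) {i j : Fin d} (h : j < i) : g.mat i j = 0 := (g.isUT i j).1 h

theorem UT.mul_inv_mat (g : UT d p) : g.mat * (g.mat)⁻¹ = 1 := g.isUT.mul_inv
theorem UT.inv_mul_mat (g : UT d p) : (g.mat)⁻¹ * g.mat = 1 := g.isUT.inv_mul

instance : Finite (UT d p) := by unfold UT; infer_instance
instance : Fintype (UT d p) := Fintype.ofFinite _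

/-! ### columns: matrices supported on rows `< l`, columns `≥ l` -/

/-- supported on rows `< l` and columns `≥ l` -/
def ColS (l : Fin d) (M : Matrix (Fin d) (Fin d) (ZMod p)) : Prop :=
  ∀ r c, ¬ (r < l ∧ l ≤ c) → M r c = 0

theorem ColS.mul_right {l : Fin d} {M N : Matrix (Fin d) (Fin d) (ZMod p)} (hM : ColS l M)
    (hN : IsUT N) : ColS l (M * N) := by
  intro r c h
  rw [Matrix.mul_apply]
  refine Finset.sum_eq_zero (fun k _ => ?_)
  by_cases h1 : r < l ∧ l ≤ k
  · have hc : c < l := by
      by_contra hc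
      exact h ⟨h1.1, not_lt.1 hc⟩
    rw [(hN k c).1 (lt_of_lt_of_le hc h1.2), mul_zero]
  · rw [hM r k h1, zero_mul]

theorem ColS.mul_left {l : Fin d} {M N : Matrix (Fin d) (Fin d) (ZMod p)} (hM : ColS l M)
    (hN : IsUT N) : ColS l (N * M) := by
  intro r c h
  rw [Matrix.mul_apply]
  refine Finset.sum_eq_zero (fun k _ => ?_)
  by_cases h1 : k < l ∧ l ≤ c
  · have hc : l ≤ r := by
      by_contra hc
      exact h ⟨not_le.1 hc, h1.2⟩
    rw [(hN r k).1 (lt_of_lt_of_le h1.1 hc), zero_mul]
  · rw [hM k c h1, mul_zero]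

theorem ColS.mul_zero' {l : Fin d} {M N : Matrix (Fin d) (Fin d) (ZMod p)} (hM : ColS l M)
    (hN : ColS l N) : M * N = 0 := by
  ext r c
  rw [Matrix.mul_apply]
  refine Finset.sum_eq_zero (fun k _ => ?_)
  by_cases h1 : r < l ∧ l ≤ k
  · rw [hN k c (fun h => absurd (lt_of_le_of_lt h1.2 h.1) (lt_irrefl _)), mul_zero]
  · rw [hM r k h1, zero_mul]

theorem ColS.add {l : Fin d} {M N : Matrix (Fin d) (Fin d) (ZMod p)} (hM : ColS l M)
    (hN : ColS l N) : ColS l (M + N) := by
  intro r c h
  rw [Matrix.add_apply, hM r c h, hN r c h, add_zero]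

theorem ColS.neg {l : Fin d} {M : Matrix (Fin d) (Fin d) (ZMod p)} (hM : ColS l M) :
    ColS l (-M) := by
  intro r c h
  rw [Matrix.neg_apply, hM r c h, neg_zero]

theorem ColS.zero {l : Fin d} : ColS l (0 : Matrix (Fin d) (Fin d) (ZMod p)) := by
  intro r c h; rfl

/-! ### words -/

variable {ι : Type*}

/-- evaluation of a letter -/
def lett (T : ι → UT d p) (a : ι × Bool) : UT d p := if a.2 then T a.1 else (T a.1)⁻¹

/-- evaluation of a word -/
def ev (T : ι → UT d p) (w : List (ι × Bool)) : UT d p := (w.map (lett T)).prod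

theorem ev_nil (T : ι → UT d p) : ev T [] = 1 := rfl
theorem ev_cons (T : ι → UT d p) (a : ι × Bool) (w : List (ι × Bool)) :
    ev T (a :: w) = lett T a * ev T w := by simp [ev]
theorem ev_append (T : ι → UT d p) (w w' : List (ι × Bool)) :
    ev T (w ++ w') = ev T w * ev T w' := by simp [ev]

variable [DecidableEq ι]

/-- formal derivative matrices -/
def Zder (T : ι → UT d p) : Matrix (Fin d) (Fin d) (ZMod p) → List (ι × Bool) → ι →
    Matrix (Fin d) (Fin d) (ZMod p)
  | _, [], _ => 0
  | N, (a :: w), m =>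
    (if m = a.1 then
      (if a.2 then (ev T w).mat * N * (T a.1).mat else -((T a.1).mat⁻¹ * (ev T w).mat * N)) else 0)
      + Zder T (N * (lett T a).mat) w m

theorem ev_diff (T T' : ι → UT d p) (l : Fin d) (n : ι → Matrix (Fin d) (Fin d) (ZMod p))
    (hn : ∀ m, ColS l (n m)) (hT : ∀ m, (T' m).mat = (T m).mat * (1 + n m)) (w : List (ι × Bool)) :
    ColS l ((ev T' w).mat - (ev T w).mat) := by
  have hl : ∀ a : ι × Bool, ColS l ((lett T' a).mat - (lett T a).mat) := by
    intro a
    unfold lett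
    split_ifs with h
    · rw [hT, mul_add, mul_one, add_sub_cancel_left]
      exact (hn _).mul_left (T a.1).isUT
    · rw [UT.mat_inv, UT.mat_inv]
      -- T'⁻¹ - T⁻¹ = -(T'⁻¹ (T' - T) T⁻¹)
      have e : (T' a.1).mat⁻¹ - (T a.1).mat⁻¹
          = -((T' a.1).mat⁻¹ * ((T' a.1).mat - (T a.1).mat) * (T a.1).mat⁻¹) := by
        rw [mul_sub, sub_mul, UT.inv_mul_mat, one_mul, mul_assoc, UT.mul_inv_mat, mul_one]
        abel
      rw [e]
      apply ColS.neg
      apply ColS.mul_right _ (T a.1).isUT.inv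
      apply ColS.mul_left _ (T' a.1).isUT.inv
      rw [hT, mul_add, mul_one, add_sub_cancel_left]
      exact (hn _).mul_left (T a.1).isUT
  induction w with
  | nil => rw [ev_nil, ev_nil, sub_self]; exact ColS.zero
  | cons a w ih =>
    rw [ev_cons, ev_cons, UT.mat_mul, UT.mat_mul]
    have e : (lett T' a).mat * (ev T' w).mat - (lett T a).mat * (ev T w).mat
        = ((lett T' a).mat - (lett T a).mat) * (ev T' w).mat
          + (lett T a).mat * ((ev T' w).mat - (ev T w).mat) := by
      rw [sub_mul, mul_sub]; abel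
    rw [e]
    exact ((hl a).mul_right (ev T' w).isUT).add (ih.mul_left (lett T a).isUT)

theorem inv_one_add {l : Fin d} {n : Matrix (Fin d) (Fin d) (ZMod p)} (hn : ColS l n)
    (g g' : UT d p) (h : g'.mat = g.mat * (1 + n)) : (g'.mat)⁻¹ = (1 - n) * (g.mat)⁻¹ := by
  have h2 : (1 - n) * (g.mat)⁻¹ * g'.mat = 1 := by
    rw [h]
    have : (1 - n) * (g.mat)⁻¹ * (g.mat * (1 + n)) = (1 - n) * ((g.mat)⁻¹ * g.mat) * (1 + n) := by
      simp only [mul_assoc]
    rw [this, UT.inv_mul_mat, mul_one, sub_mul, one_mul, mul_add, mul_one, hn.mul_zero' hn]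
    abel
  calc (g'.mat)⁻¹ = ((1 - n) * (g.mat)⁻¹ * g'.mat) * (g'.mat)⁻¹ := by rw [h2, one_mul]
    _ = (1 - n) * (g.mat)⁻¹ := by rw [mul_assoc, UT.mul_inv_mat, mul_one]

theorem trace_shift [Fintype ι] (T T' : ι → UT d p) (l : Fin d)
    (n : ι → Matrix (Fin d) (Fin d) (ZMod p))
    (hn : ∀ m, ColS l (n m)) (hT : ∀ m, (T' m).mat = (T m).mat * (1 + n m)) (w : List (ι × Bool))
    (N : Matrix (Fin d) (Fin d) (ZMod p)) :
    (N * (ev T' w).mat).trace = (N * (ev T w).mat).trace + ∑ m, (Zder T N w m * n m).trace := by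
  induction w generalizing N with
  | nil => simp [ev_nil, Zder]
  | cons a w ih =>
    have hD := ev_diff T T' l n hn hT w
    rw [ev_cons, ev_cons, UT.mat_mul, UT.mat_mul]
    simp only [Zder, add_mul, Matrix.trace_add, Finset.sum_add_distrib, ite_mul, zero_mul]
    rw [← add_assoc, ]
    have hsum : ∀ (F : ι → Matrix (Fin d) (Fin d) (ZMod p)),
        ∑ m, (if m = a.1 then F m else 0).trace = (F a.1).trace := by
      intro F
      rw [Finset.sum_eq_single a.1]
      · simp
      · intro b _ hb; rw [if_neg hb]; simp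
      · simp
    rw [hsum (fun m => if a.2 = true then (ev T w).mat * N * (T a.1).mat * n m
      else -((T a.1).mat⁻¹ * (ev T w).mat * N) * n m)]
    rw [← mul_assoc, ← mul_assoc]
    by_cases ha : a.2
    · have e1 : (lett T' a).mat = (T a.1).mat + (T a.1).mat * n a.1 := by
        simp only [lett, ha, if_true]; rw [hT, mul_add, mul_one]
      have e2 : (lett T a).mat = (T a.1).mat := by simp only [lett, ha, if_true]
      rw [e1, e2, mul_add, add_mul, Matrix.trace_add, ih]
      simp only [ha, if_true]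
      have e3 : (N * ((T a.1).mat * n a.1) * (ev T' w).mat)
          = N * ((T a.1).mat * n a.1) * (ev T w).mat := by
        have : (ev T' w).mat = (ev T w).mat + ((ev T' w).mat - (ev T w).mat) := by abel
        have hz : N * ((T a.1).mat * n a.1) * ((ev T' w).mat - (ev T w).mat) = 0 := by
          have : N * ((T a.1).mat * n a.1) * ((ev T' w).mat - (ev T w).mat)
              = N * ((T a.1).mat * (n a.1 * ((ev T' w).mat - (ev T w).mat))) := by
            simp only [mul_assoc]
          rw [this, (hn a.1).mul_zero' hD, mul_zero, mul_zero]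
        rw [this, mul_add, hz, add_zero]
      rw [e3]
      have e4 : (N * ((T a.1).mat * n a.1) * (ev T w).mat).trace
          = ((ev T w).mat * N * (T a.1).mat * n a.1).trace := by
        rw [Matrix.trace_mul_comm]; simp only [mul_assoc]
      rw [e4]; ring
    · have e1 : (lett T' a).mat = (T a.1).mat⁻¹ - n a.1 * (T a.1).mat⁻¹ := by
        simp only [lett, ha]
        rw [if_neg (by simp), UT.mat_inv, inv_one_add (hn a.1) (T a.1) (T' a.1) (hT a.1), sub_mul, one_mul]
      have e2 : (lett T a).mat = (T a.1).mat⁻¹ := by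
        simp only [lett, ha]; rw [if_neg (by simp), UT.mat_inv]
      rw [e1, e2, mul_sub, sub_mul, Matrix.trace_sub, ih]
      rw [if_neg ha]
      have e3 : (N * (n a.1 * (T a.1).mat⁻¹) * (ev T' w).mat)
          = N * (n a.1 * (T a.1).mat⁻¹) * (ev T w).mat := by
        have : (ev T' w).mat = (ev T w).mat + ((ev T' w).mat - (ev T w).mat) := by abel
        have hz : N * (n a.1 * (T a.1).mat⁻¹) * ((ev T' w).mat - (ev T w).mat) = 0 := by
          have : N * (n a.1 * (T a.1).mat⁻¹) * ((ev T' w).mat - (ev T w).mat)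
              = N * (n a.1 * ((T a.1).mat⁻¹ * ((ev T' w).mat - (ev T w).mat))) := by
            simp only [mul_assoc]
          rw [this, (hn a.1).mul_zero' (hD.mul_left (T a.1).isUT.inv), mul_zero]
        rw [this, mul_add, hz, add_zero]
      rw [e3]
      have e4 : (N * (n a.1 * (T a.1).mat⁻¹) * (ev T w).mat).trace
          = ((T a.1).mat⁻¹ * (ev T w).mat * N * n a.1).trace := by
        rw [mul_assoc, mul_assoc, ← mul_assoc N, Matrix.trace_mul_comm]
        simp only [mul_assoc]
      rw [e4, neg_mul, Matrix.trace_neg]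
      ring

end

end Pool.Agent.H773R3
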