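import Pool.Agent.H773R3.Moment2
import Pool.Agent.H773R3.Trace

set_option autoImplicit false
set_option linter.unusedSectionVars false

namespace Pool.Agent.H773R3

open Finset Matrix
open scoped Classical

noncomputable section

variable {d p : ℕ} [Fact p.Prime] {g K : ℕ}

/-- labels of steps -/
abbrev Stp (K : ℕ) := Fin K × Fin K × Fin 4

/-- word of a step: identity (twice), commutator, inverse commutator -/
def stepWord (q : Stp K) : List ((Fin K ⊕ Fin K) × Bool) :=
  match q.2.2 with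
  | 0 => []
  | 1 => []
  | 2 => [(Sum.inl q.1, true), (Sum.inr q.2.1, true), (Sum.inl q.1, false), (Sum.inr q.2.1, false)]
  | 3 => [(Sum.inr q.2.1, true), (Sum.inl q.1, true), (Sum.inr q.2.1, false), (Sum.inl q.1, false)]

/-- sign of a step -/
def sgn (p : ℕ) (t : Fin 4) : ZMod p :=
  match t with
  | 0 => 0
  | 1 => 0
  | 2 => -1
  | 3 => 1

theorem kapw_step (v : Fin K → ZMod p) (β : ZMod p) (q : Stp K)
    (w : List ((Fin K ⊕ Fin K) × Bool)) (m : Fin K) :
    kapw (Sum.elim (fun _ => 0) v) β (stepWord q ++ w) (Sum.inl m)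
      = (if m = q.1 then sgn p q.2.2 * v q.2.1 else 0)
        + kapw (Sum.elim (fun _ => 0) v) β w (Sum.inl m) := by
  obtain ⟨i, j, t⟩ := q
  fin_cases t
  · simp [stepWord, sgn]
  · simp [stepWord, sgn]
  · simp only [stepWord, sgn, List.cons_append, List.nil_append, kapw]
    by_cases h : m = i
    · simp [h]; ring
    · simp [h]
  · simp only [stepWord, sgn, List.cons_append, List.nil_append, kapw]
    by_cases h : m = i
    · simp [h]; ring
    · simp [h]

/-- full word -/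
def fw {L : ℕ} (s : Fin L → Stp K) : List ((Fin K ⊕ Fin K) × Bool) :=
  (List.ofFn (fun r => stepWord (s r))).flatten

theorem kapw_fw {L : ℕ} (v : Fin K → ZMod p) (β : ZMod p) (s : Fin L → Stp K) (m : Fin K) :
    kapw (Sum.elim (fun _ => 0) v) β (fw s) (Sum.inl m)
      = ∑ r, (if m = (s r).1 then sgn p (s r).2.2 * v (s r).2.1 else 0) := by
  induction L with
  | zero => simp [fw, kapw]
  | succ n ih =>
    have : fw s = stepWord (s 0) ++ fw (fun r => s r.succ) := by
      simp [fw, List.ofFn_succ]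
    rw [this, kapw_step, ih, Fin.sum_univ_succ]

theorem ev_fw {L : ℕ} (T : Fin K ⊕ Fin K → UT d p) (s : Fin L → Stp K) :
    ev T (fw s) = wordOf (fun q => ev T (stepWord q)) s := by
  induction L with
  | zero => simp [fw, wordOf, ev]
  | succ n ih =>
    have : fw s = stepWord (s 0) ++ fw (fun r => s r.succ) := by
      simp [fw, List.ofFn_succ]
    rw [this, ev_append, ih]
    simp [wordOf, List.ofFn_succ]

/-- linear functional in `U` -/
def lFun (z : Fin K → Fin g → ZMod p) : (Fin K → Fin g → ZMod p) →+ ZMod p where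
  toFun U := ∑ m, ∑ q, U m q * z m q
  map_zero' := by simp
  map_add' u u' := by
    rw [← Finset.sum_add_distrib]
    refine Finset.sum_congr rfl (fun m _ => ?_)
    rw [← Finset.sum_add_distrib]
    refine Finset.sum_congr rfl (fun r _ => ?_)
    simp only [Pi.add_apply]; ring

theorem lFun_zero_iff (z : Fin K → Fin g → ZMod p) :
    (∀ u, lFun z u = 0) ↔ ∀ m a, z m a = 0 := by
  constructor
  · intro h m a
    have := h (fun m' a' => if m' = m ∧ a' = a then 1 else 0)
    simp only [lFun, AddMonoidHom.coe_mk, ZeroHom.coe_mk] at this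
    rw [Finset.sum_eq_single m, Finset.sum_eq_single a] at this
    · simpa using this
    · intro b _ hb; simp [hb]
    · simp
    · intro b _ hb; simp [hb]
    · simp
  · intro h u
    simp only [lFun, AddMonoidHom.coe_mk, ZeroHom.coe_mk]
    refine Finset.sum_eq_zero (fun m _ => Finset.sum_eq_zero (fun r _ => ?_))
    rw [h m r, mul_zero]

theorem prod_psi_eq {L : ℕ} (s : Fin L → Stp K) (U V : Fin K → Fin g → ZMod p) :
    ∏ r, psi p (sgn p (s r).2.2 * (U (s r).1 ⬝ᵥ V (s r).2.1))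
      = psi p (lFun (fun m a => kapw (Sum.elim (fun _ => 0) (fun j => V j a)) 0 (fw s) (Sum.inl m)) U) := by
  have hprod : ∀ (f : Fin L → ZMod p), ∏ r, psi p (f r) = psi p (∑ r, f r) := by
    intro f
    have := map_prod (psi p).toMonoidHom (fun r => Multiplicative.ofAdd (f r)) univ
    simp only [AddChar.toMonoidHom_apply] at this
    rw [← ofAdd_sum] at this
    simpa using this.symm
  rw [hprod]
  congr 1
  simp only [lFun, AddMonoidHom.coe_mk, ZeroHom.coe_mk, kapw_fw]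
  simp only [Finset.mul_sum]
  have : ∀ m : Fin K, ∑ a : Fin g, ∑ r : Fin L, U m a * (if m = (s r).1 then
      sgn p (s r).2.2 * V (s r).2.1 a else 0)
      = ∑ r : Fin L, (if m = (s r).1 then sgn p (s r).2.2 * (U m ⬝ᵥ V (s r).2.1) else 0) := by
    intro m
    rw [Finset.sum_comm]
    refine Finset.sum_congr rfl (fun r _ => ?_)
    split_ifs with h
    · rw [dotProduct, Finset.mul_sum]
      refine Finset.sum_congr rfl (fun a _ => ?_)
      ring
    · simp
  simp only [this]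
  rw [Finset.sum_comm]
  refine Finset.sum_congr rfl (fun r _ => ?_)
  rw [Finset.sum_eq_single (s r).1]
  · simp
  · intro b _ hb; rw [if_neg hb]
  · simp

theorem sum_UV {L : ℕ} (s : Fin L → Stp K) :
    ∑ U : Fin K → Fin g → ZMod p, ∑ V : Fin K → Fin g → ZMod p,
      ∏ r, psi p (sgn p (s r).2.2 * (U (s r).1 ⬝ᵥ V (s r).2.1))
      = (((p:ℂ) ^ K) ^ g) * (Zc (p := p) (fw s) : ℂ) ^ g := by
  simp only [prod_psi_eq]
  rw [Finset.sum_comm]
  simp only [sum_char]
  have h1 : ∀ V : Fin K → Fin g → ZMod p,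
      (∀ U, lFun (fun m a => kapw (Sum.elim (fun _ => 0) (fun j => V j a)) 0 (fw s) (Sum.inl m)) U = 0)
      ↔ (∀ a : Fin g, (fun j => V j a) ∈ univ.filter (fun v : Fin K → ZMod p => ∀ m : Fin K,
          kapw (Sum.elim (fun _ => 0) v) 0 (fw s) (Sum.inl m) = 0)) := by
    intro V
    rw [lFun_zero_iff]
    simp only [Finset.mem_filter, Finset.mem_univ, true_and]
    exact ⟨fun h a m => h m a, fun h m a => h a m⟩
  have h2 : ∀ V : Fin K → Fin g → ZMod p,
      (if (∀ U, lFun (fun m a => kapw (Sum.elim (fun _ => 0) (fun j => V j a)) 0 (fw s) (Sum.inl m)) U = 0)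
        then ((Fintype.card (Fin K → Fin g → ZMod p) : ℕ) : ℂ) else 0)
      = (((p:ℂ) ^ K) ^ g) * (if (∀ a : Fin g, (fun j => V j a) ∈ univ.filter (fun v : Fin K → ZMod p => ∀ m : Fin K,
          kapw (Sum.elim (fun _ => 0) v) 0 (fw s) (Sum.inl m) = 0)) then (1:ℂ) else 0) := by
    intro V
    by_cases h : ∀ a : Fin g, (fun j => V j a) ∈ univ.filter (fun v : Fin K → ZMod p => ∀ m : Fin K,
          kapw (Sum.elim (fun _ => 0) v) 0 (fw s) (Sum.inl m) = 0)
    · rw [if_pos ((h1 V).2 h), if_pos h, Fintype.card_fun, Fintype.card_fun, ZMod.card,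
        Fintype.card_fin, Fintype.card_fin, mul_one]
      push_cast
      rw [← pow_mul, ← pow_mul, mul_comm]
    · rw [if_neg (fun hh => h ((h1 V).1 hh)), if_neg h, mul_zero]
  rw [Finset.sum_congr rfl (fun V _ => h2 V), ← Finset.mul_sum]
  congr 1
  rw [Finset.sum_boole]
  unfold Zc
  rw [← Nat.cast_pow]
  congr 1
  rw [← Fintype.card_piFinset_const (univ.filter (fun v : Fin K → ZMod p => ∀ m : Fin K,
          kapw (Sum.elim (fun _ => 0) v) 0 (fw s) (Sum.inl m) = 0)) g]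
  apply Finset.card_bij (fun V _ => fun a j => V j a)
  · intro V hV
    rw [Fintype.mem_piFinset]
    exact (Finset.mem_filter.1 hV).2
  · intro V _ V' _ h
    funext j a
    exact congrFun (congrFun h a) j
  · intro W hW
    refine ⟨fun j a => W a j, ?_, rfl⟩
    rw [Finset.mem_filter]
    refine ⟨Finset.mem_univ _, ?_⟩
    rw [Fintype.mem_piFinset] at hW
    exact hW

theorem sum_step (U V : Fin K → Fin g → ZMod p) :
    ∑ q : Stp K, psi p (sgn p q.2.2 * (U q.1 ⬝ᵥ V q.2.1))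
      = ((∑ i, ∑ j, (2 + 2 * cc (U i ⬝ᵥ V j)) : ℝ) : ℂ) := by
  rw [Fintype.sum_prod_type]
  push_cast
  refine Finset.sum_congr rfl (fun i _ => ?_)
  rw [Fintype.sum_prod_type]
  refine Finset.sum_congr rfl (fun j _ => ?_)
  rw [Fin.sum_univ_four]
  simp only [sgn]
  rw [zero_mul, neg_mul, one_mul, AddChar.map_zero_eq_one, AddChar.map_neg_eq_conj]
  have h := Complex.add_conj (psi p (U i ⬝ᵥ V j))
  rw [cc]
  rw [add_assoc (1+1 : ℂ), add_comm ((starRingEnd ℂ) _), h]
  push_cast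
  ring

theorem sum_Zc (L : ℕ) :
    (((p:ℝ) ^ K) ^ g) * ∑ s : Fin L → Stp K, (Zc (p := p) (fw s) : ℝ) ^ g
      = ∑ U : Fin K → Fin g → ZMod p, ∑ V : Fin K → Fin g → ZMod p,
      (∑ i, ∑ j, (2 + 2 * cc (U i ⬝ᵥ V j)))^L := by
  have : ((((((p:ℝ) ^ K) ^ g) * ∑ s : Fin L → Stp K, (Zc (p := p) (fw s) : ℝ) ^ g : ℝ)) : ℂ)
      = ((∑ U : Fin K → Fin g → ZMod p, ∑ V : Fin K → Fin g → ZMod p,
      (∑ i, ∑ j, (2 + 2 * cc (U i ⬝ᵥ V j)))^L : ℝ) : ℂ) := by
    push_cast
    rw [Finset.mul_sum]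
    rw [Finset.sum_congr rfl (fun s _ => (sum_UV (g := g) (p := p) s).symm)]
    rw [Finset.sum_comm]
    refine Finset.sum_congr rfl (fun U _ => ?_)
    rw [Finset.sum_comm]
    refine Finset.sum_congr rfl (fun V _ => ?_)
    have h := sum_step (p := p) U V
    push_cast at h
    rw [← h, Fintype.sum_pow]
  exact_mod_cast this

/-- error term -/
def epsg (p g K : ℕ) : ℝ :=
  Real.exp (-((g+1) * K / 4)) + ((p:ℝ)^g * Real.exp (-(K/8)))^((g+1)/2)

theorem word_sum_bound (hK : 0 < K) (hg : 1 ≤ g) (L : ℕ) (hL : 16 * K * (g+1) ≤ L)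
    {N : Matrix (Fin d) (Fin d) (ZMod p)}
    {i l : Fin d} (hgl : (l : ℕ) = i + g + 1) {t : ZMod p} (ht : t ≠ 0)
    (hN : Corner i l t N) :
    ∑ s : Fin L → Stp K, ‖∑ X : Fin K → UT d p, ∑ Y : Fin K → UT d p,
      psi p ((N * (ev (Sum.elim X Y) (fw s)).mat).trace)‖ ≤
    (Fintype.card (UT d p) : ℝ) ^ (2 * K) * (4 * (K:ℝ)^2)^L * epsg p g K := by
  have hp0 : (0:ℝ) < p := by exact_mod_cast (Fact.out : p.Prime).pos
  have hpp : (0:ℝ) < ((p:ℝ)^K)^g := by positivity
  have h1 := moment_bound (p := p) hK hg L hL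
  rw [← sum_Zc] at h1
  have h2 : (((p:ℝ)^K)^g * ((p:ℝ)^K)^g) * ∑ s : Fin L → Stp K,
      ‖∑ X : Fin K → UT d p, ∑ Y : Fin K → UT d p,
      psi p ((N * (ev (Sum.elim X Y) (fw s)).mat).trace)‖ ≤
      (((p:ℝ)^K)^g * ((p:ℝ)^K)^g) * ((Fintype.card (UT d p) : ℝ) ^ (2 * K) * (4 * (K:ℝ)^2)^L * epsg p g K) := by
    calc (((p:ℝ)^K)^g * ((p:ℝ)^K)^g) * ∑ s : Fin L → Stp K,
        ‖∑ X : Fin K → UT d p, ∑ Y : Fin K → UT d p,
        psi p ((N * (ev (Sum.elim X Y) (fw s)).mat).trace)‖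
        = ((p:ℝ)^K)^g * ∑ s : Fin L → Stp K,
        (‖∑ X : Fin K → UT d p, ∑ Y : Fin K → UT d p,
        psi p ((N * (ev (Sum.elim X Y) (fw s)).mat).trace)‖ * ((p:ℝ)^K)^g) := by
          rw [← Finset.sum_mul]; ring
      _ ≤ ((p:ℝ)^K)^g * ∑ s : Fin L → Stp K, ((Fintype.card (UT d p) : ℝ) ^ (2 * K) * (Zc (p := p) (fw s) : ℝ) ^ g) := by
          apply mul_le_mul_of_nonneg_left _ hpp.le
          exact Finset.sum_le_sum (fun s _ => key (fw s) g hgl ht hN)
      _ = (Fintype.card (UT d p) : ℝ) ^ (2 * K) * (((p:ℝ) ^ K) ^ g * ∑ s : Fin L → Stp K, (Zc (p := p) (fw s) : ℝ) ^ g) := by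
          rw [← Finset.mul_sum]; ring
      _ ≤ (Fintype.card (UT d p) : ℝ) ^ (2 * K) * ((4 * (K:ℝ)^2)^L * (p:ℝ)^(2 * (g * K)) *
            (Real.exp (-((g+1) * K / 4)) + ((p:ℝ)^g * Real.exp (-(K/8)))^((g+1)/2))) :=
          mul_le_mul_of_nonneg_left h1 (by positivity)
      _ = _ := by
          unfold epsg
          rw [← pow_mul, ← pow_add]
          have : 2 * (g * K) = K * g + K * g := by ring
          rw [this]; ring
  exact le_of_mul_le_mul_left h2 (by positivity)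

end

end Pool.Agent.H773R3
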